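import Pool.Agent.Helper21.LK.Val

/-!
# The asymptotic values at imaginary points
-/

namespace Pool.Agent.Helper21.LK

open H906K MeasureTheory Filter Topology Polynomial

theorem im_phi (φ : ℝ) : ((φ : ℂ) * Complex.I).im = φ := by simp

theorem second_val : ∃ K : ℝ, 0 ≤ K ∧ ∀ (n : ℕ) (s1 s2 V1 V2 : ℝ[X]), 1 ≤ n →
    RPert n s1 s2 V1 V2 → ∀ φ : ℝ, |φ| < Real.pi / 3 →
    |4 * Real.pi * (2 * n + 1) * (Xc n s2 ((φ : ℂ) * Complex.I) -
      Xc n s1 ((φ : ℂ) * Complex.I) ^ 2 / 2).re + 6 * Real.cos (3 * φ / 2)| ≤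
      K / ((2 * n + 1) * Real.cos (3 * φ / 2)) := by
  obtain ⟨K0, hK0⟩ := sys_asymp
  refine ⟨96 * Real.pi + 4 * Real.pi * |K0|, by have := Real.pi_pos; positivity,
    fun n s1 s2 V1 V2 hn hR φ hφ => ?_⟩
  have hpi := Real.pi_pos
  have hc := phi_cos hφ
  have hc1 := Real.cos_le_one (3 * φ / 2)
  have hS := sys_of_rpert hR
  obtain ⟨b1, b2, b3, b4, b5, b6, b7⟩ := sys_bounds (by omega : 1 ≤ 2 * n + 1) hS
  obtain ⟨n1, n2, n3, n4, n5⟩ := sys_nice (by omega : 1 ≤ 2 * n + 1) hS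
  have hY := Y_strip hn hR (z := (φ : ℂ) * Complex.I) (by rw [im_phi]; exact hφ)
  have hY0 := hS.eqY 0
  have hK := hK0 n _ _ _ hn hS
  set f : ℝ → ℝ := A2 (2 * n + 1) (fun u => (Xc n s1 u).re) (fun u => (Bc V1 V2 u).re) with hf
  set F : ℂ := Xc n s2 ((φ : ℂ) * Complex.I) - Xc n s1 ((φ : ℂ) * Complex.I) ^ 2 / 2 with hF
  set Y0 : ℝ := (fun u : ℝ => (Xc n s2 u).re - (Xc n s1 u).re ^ 2 / 2) 0 with hY0d
  have hb : ∀ u, |f u| ≤ 12 := fun u => (b5 u).trans (by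
    have : |Real.tanh (3 * u / 4)| ^ (2 * n + 1) ≤ 1 := a8_pow_le _ u
    linarith)
  have hkint : Integrable (fun u : ℝ => kc ((φ : ℂ) * Complex.I - u) * (f u : ℂ)) :=
    kc_int (by rw [im_phi]; exact hc) n5.1.continuous hb
  have hre : F.re = ∫ u : ℝ, (kc ((φ : ℂ) * Complex.I - u)).re * f u := by
    rw [hY]
    have h1 := Complex.reCLM.integral_comp_comm hkint
    simp only [Complex.reCLM_apply] at h1
    rw [← h1]
    congr 1
    funext u
    rw [Complex.re_mul_ofReal]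
  have hreint : Integrable (fun u : ℝ => (kc ((φ : ℂ) * Complex.I - u)).re * f u) := by
    have h1 := hkint.re
    refine h1.congr (Eventually.of_forall fun u => ?_)
    simp only [RCLike.re_eq_complex_re]
    rw [Complex.re_mul_ofReal]
  have hkkint : Integrable (fun u : ℝ => kk u * f u) := by
    refine Integrable.mul_bdd (c := 12) kk_integrable n5.1.continuous.aestronglyMeasurable ?_
    exact Filter.Eventually.of_forall fun u => by rw [Real.norm_eq_abs]; exact hb u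
  have hY0' : Y0 = ∫ u : ℝ, kk u * f u := by
    refine Eq.trans (show Y0 = ∫ u : ℝ, kk (0 - u) * f u from hY0) ?_
    congr 1
    funext u
    rw [zero_sub, a9_kk_even]
  have hdiff : F.re - Real.cos (3 * φ / 2) * Y0 =
      ∫ u : ℝ in Set.univ,
        ((kc ((φ : ℂ) * Complex.I - u)).re - Real.cos (3 * φ / 2) * kk u) * f u := by
    rw [hre, hY0', ← integral_const_mul, ← integral_sub hreint (hkkint.const_mul _),
      setIntegral_univ]
    congr 1
    funext u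
    ring
  have hd := int_bound (N := 2 * n + 1) (by omega) (f := f)
    (g := fun u => (kc ((φ : ℂ) * Complex.I - u)).re - Real.cos (3 * φ / 2) * kk u)
    (c := 1 / Real.cos (3 * φ / 2)) (a := 12) (by positivity) (by norm_num) b5
    MeasurableSet.univ (fun u _ => by
      have := kc_re_approx hc u
      rw [mul_one_div]
      exact this)
  rw [← hdiff] at hd
  push_cast at hd
  have hNpos : (0 : ℝ) < 2 * (n : ℝ) + 1 := by positivity
  have e : 4 * Real.pi * (2 * n + 1) * F.re + 6 * Real.cos (3 * φ / 2) =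
      4 * Real.pi * (2 * n + 1) * (F.re - Real.cos (3 * φ / 2) * Y0) +
      4 * Real.pi * Real.cos (3 * φ / 2) * ((2 * n + 1) * Y0 + 3 / (2 * Real.pi)) := by
    field_simp
    ring
  rw [e]
  refine (abs_add_le _ _).trans ?_
  rw [abs_mul, abs_mul (4 * Real.pi * Real.cos (3 * φ / 2)),
    abs_of_pos (by positivity : 0 < 4 * Real.pi * (2 * (n : ℝ) + 1)),
    abs_of_pos (by positivity : 0 < 4 * Real.pi * Real.cos (3 * φ / 2))]
  have h1 : 4 * Real.pi * (2 * n + 1) * |F.re - Real.cos (3 * φ / 2) * Y0| ≤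
      96 * Real.pi / ((2 * n + 1) * Real.cos (3 * φ / 2)) := by
    calc _ ≤ 4 * Real.pi * (2 * n + 1) *
          (2 * 12 * (1 / Real.cos (3 * φ / 2)) / (2 * (n : ℝ) + 1) ^ 2) := by gcongr
      _ = _ := by field_simp; ring
  have h2 : 4 * Real.pi * Real.cos (3 * φ / 2) * |(2 * n + 1) * Y0 + 3 / (2 * Real.pi)| ≤
      4 * Real.pi * |K0| / ((2 * n + 1) * Real.cos (3 * φ / 2)) := by
    have h3 : |(2 * n + 1) * Y0 + 3 / (2 * Real.pi)| ≤ |K0| / (2 * n + 1) :=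
      hK.trans (by gcongr; exact le_abs_self _)
    calc _ ≤ 4 * Real.pi * Real.cos (3 * φ / 2) * (|K0| / (2 * n + 1)) := by gcongr
      _ = 4 * Real.pi * |K0| / (2 * n + 1) * Real.cos (3 * φ / 2) := by ring
      _ ≤ 4 * Real.pi * |K0| / (2 * n + 1) * (1 / Real.cos (3 * φ / 2)) := by
          apply mul_le_mul_of_nonneg_left _ (by positivity)
          rw [le_div_iff₀ hc]
          nlinarith
      _ = _ := by rw [div_mul_div_comm, mul_one]
  calc _ ≤ 96 * Real.pi / ((2 * n + 1) * Real.cos (3 * φ / 2)) +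
        4 * Real.pi * |K0| / ((2 * n + 1) * Real.cos (3 * φ / 2)) := add_le_add h1 h2
    _ = _ := by rw [← add_div]

theorem im_int {φ : ℝ} (hc : 0 < Real.cos (3 * φ / 2)) {q : ℝ → ℝ} (hq : Continuous q)
    (hqb : ∀ u, |q u| ≤ 4) :
    Integrable (fun u : ℝ => (kc ((φ : ℂ) * Complex.I - u)).im * q u) := by
  have h1 := (kc_int (z := (φ : ℂ) * Complex.I) (by rw [im_phi]; exact hc) hq hqb).im
  refine h1.congr (Eventually.of_forall fun u => ?_)
  simp only [RCLike.im_eq_complex_im]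
  rw [Complex.im_mul_ofReal]

theorem kk_int' {q : ℝ → ℝ} (hq : Continuous q) (hqb : ∀ u, |q u| ≤ 4) :
    Integrable (fun u : ℝ => kk u * q u) := by
  refine Integrable.mul_bdd (c := 4) kk_integrable hq.aestronglyMeasurable ?_
  exact Filter.Eventually.of_forall fun u => by rw [Real.norm_eq_abs]; exact hqb u

theorem tanh_four {n : ℕ} {q : ℝ → ℝ}
    (hqt : ∀ l, |q l| ≤ 4 * |Real.tanh (3 * l / 4)| ^ (2 * n + 1)) (u : ℝ) : |q u| ≤ 4 :=
  (hqt u).trans (by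
    have : |Real.tanh (3 * u / 4)| ^ (2 * n + 1) ≤ 1 := a8_pow_le _ u
    linarith)

theorem im_part {φ : ℝ} (hc : 0 < Real.cos (3 * φ / 2)) (n : ℕ) {q : ℝ → ℝ} (hq : Continuous q)
    (hqt : ∀ l, |q l| ≤ 4 * |Real.tanh (3 * l / 4)| ^ (2 * n + 1)) {K0 : ℝ}
    (hK : |(2 * n + 1 : ℝ) * (∫ u in Set.Ioi (0 : ℝ), kk u * q u) - 1 / 2| ≤ K0 / (2 * n + 1)) :
    |(2 * n + 1 : ℝ) * (∫ u in Set.Ioi (0 : ℝ), (kc ((φ : ℂ) * Complex.I - u)).im * q u) -
        Real.sin (3 * φ / 2) * (1 / 2)| ≤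
      (8 + |K0|) / ((2 * n + 1) * Real.cos (3 * φ / 2) ^ 2) := by
  have hc1 := Real.cos_le_one (3 * φ / 2)
  have hs1 := Real.abs_sin_le_one (3 * φ / 2)
  have hNpos : (0 : ℝ) < 2 * (n : ℝ) + 1 := by positivity
  have hqb := tanh_four hqt
  have h1 := int_bound (N := 2 * n + 1) (by omega) (f := q)
    (g := fun u => (kc ((φ : ℂ) * Complex.I - u)).im - Real.sin (3 * φ / 2) * kk u)
    (c := 1 / Real.cos (3 * φ / 2) ^ 2) (a := 4) (by positivity) (by norm_num) hqt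
    (measurableSet_Ioi (a := (0 : ℝ))) (fun u hu => by
      have := kc_im_approx hc u hu
      rw [mul_one_div]
      exact this)
  have h2 : (∫ u in Set.Ioi (0 : ℝ), (kc ((φ : ℂ) * Complex.I - u)).im * q u) -
      Real.sin (3 * φ / 2) * ∫ u in Set.Ioi (0 : ℝ), kk u * q u =
      ∫ u in Set.Ioi (0 : ℝ),
        ((kc ((φ : ℂ) * Complex.I - u)).im - Real.sin (3 * φ / 2) * kk u) * q u := by
    rw [← integral_const_mul, ← integral_sub (im_int hc hq hqb).integrableOn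
      ((kk_int' hq hqb).integrableOn.const_mul _)]
    congr 1
    funext u
    ring
  rw [← h2] at h1
  push_cast at h1
  generalize (∫ u in Set.Ioi (0 : ℝ), (kc ((φ : ℂ) * Complex.I - u)).im * q u) = G at *
  generalize (∫ u in Set.Ioi (0 : ℝ), kk u * q u) = H at *
  have e : (2 * n + 1 : ℝ) * G - Real.sin (3 * φ / 2) * (1 / 2) =
      (2 * n + 1) * (G - Real.sin (3 * φ / 2) * H) +
      Real.sin (3 * φ / 2) * ((2 * n + 1) * H - 1 / 2) := by ring
  rw [e]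
  have h3 : |(2 * n + 1 : ℝ) * (G - Real.sin (3 * φ / 2) * H)| ≤
      8 / ((2 * n + 1) * Real.cos (3 * φ / 2) ^ 2) := by
    rw [abs_mul, abs_of_pos hNpos]
    calc _ ≤ (2 * n + 1 : ℝ) * (2 * 4 * (1 / Real.cos (3 * φ / 2) ^ 2) / (2 * (n : ℝ) + 1) ^ 2) :=
          mul_le_mul_of_nonneg_left h1 hNpos.le
      _ = _ := by field_simp; ring
  have h4 : |Real.sin (3 * φ / 2) * ((2 * n + 1 : ℝ) * H - 1 / 2)| ≤
      |K0| / ((2 * n + 1) * Real.cos (3 * φ / 2) ^ 2) := by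
    rw [abs_mul]
    calc |Real.sin (3 * φ / 2)| * |(2 * n + 1 : ℝ) * H - 1 / 2| ≤ 1 * (|K0| / (2 * n + 1)) := by
          refine mul_le_mul hs1 (hK.trans ?_) (abs_nonneg _) zero_le_one
          gcongr
          exact le_abs_self _
      _ = |K0| / ((2 * n + 1) * 1) := by rw [one_mul, mul_one]
      _ ≤ _ := by
          apply div_le_div_of_nonneg_left (abs_nonneg _) (by positivity)
          apply mul_le_mul_of_nonneg_left _ hNpos.le
          exact pow_le_one₀ hc.le hc1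
  calc _ ≤ 8 / ((2 * n + 1 : ℝ) * Real.cos (3 * φ / 2) ^ 2) +
        |K0| / ((2 * n + 1) * Real.cos (3 * φ / 2) ^ 2) := (abs_add_le _ _).trans (add_le_add h3 h4)
    _ = _ := by rw [← add_div]

theorem im_split {φ : ℝ} (hc : 0 < Real.cos (3 * φ / 2)) {f fr : ℝ → ℝ} (hf : Continuous f)
    (hb : ∀ u, |f u| ≤ 4) (hfr : ∀ u, fr u = - f (-u)) :
    (∫ u : ℝ, kc ((φ : ℂ) * Complex.I - u) * (f u : ℂ)).im =
      (∫ u in Set.Ioi (0 : ℝ), (kc ((φ : ℂ) * Complex.I - u)).im * f u) +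
        ∫ u in Set.Ioi (0 : ℝ), (kc ((φ : ℂ) * Complex.I - u)).im * fr u := by
  have hodd : ∀ u : ℝ, (kc ((φ : ℂ) * Complex.I - (-u : ℝ))).im =
      - (kc ((φ : ℂ) * Complex.I - u)).im := by
    intro u
    obtain ⟨-, -, h1⟩ := kc_parts hc u
    obtain ⟨-, -, h2⟩ := kc_parts hc (-u)
    rw [h1, h2]
    have e1 : 3 * -u / 2 = -(3 * u / 2) := by ring
    rw [e1, Real.cosh_neg, Real.sinh_neg]
    ring
  have him : (∫ u : ℝ, kc ((φ : ℂ) * Complex.I - u) * (f u : ℂ)).im =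
      ∫ u : ℝ, (kc ((φ : ℂ) * Complex.I - u)).im * f u := by
    have h1 := Complex.imCLM.integral_comp_comm
      (kc_int (z := (φ : ℂ) * Complex.I) (by rw [im_phi]; exact hc) hf hb)
    simp only [Complex.imCLM_apply] at h1
    rw [← h1]
    congr 1
    funext u
    rw [Complex.im_mul_ofReal]
  have e2 : (∫ u in Set.Ioi (0 : ℝ), (kc ((φ : ℂ) * Complex.I - u)).im * fr u) =
      ∫ u in Set.Iic (0 : ℝ), (kc ((φ : ℂ) * Complex.I - u)).im * f u := by
    have e3 := integral_comp_neg_Ioi (0 : ℝ)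
      (fun u : ℝ => (kc ((φ : ℂ) * Complex.I - u)).im * f u)
    rw [neg_zero] at e3
    rw [← e3]
    congr 1
    funext u
    rw [hfr, hodd]
    ring
  rw [him, e2]
  have hi := im_int hc hf hb
  exact (intervalIntegral.integral_Iic_add_Ioi hi.integrableOn hi.integrableOn).symm.trans
    (add_comm _ _)

theorem first_val : ∃ K : ℝ, 0 ≤ K ∧ ∀ (n : ℕ) (s1 s2 V1 V2 : ℝ[X]), 1 ≤ n →
    RPert n s1 s2 V1 V2 → ∀ φ : ℝ, |φ| < Real.pi / 3 →
    |(2 * n + 1) * (Xc n s1 ((φ : ℂ) * Complex.I)).im - Real.sin (3 * φ / 2)| ≤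
      K / ((2 * n + 1) * Real.cos (3 * φ / 2) ^ 2) := by
  obtain ⟨K0, hK0⟩ := first_asymp
  refine ⟨2 * (8 + |K0|), by positivity, fun n s1 s2 V1 V2 hn hR φ hφ => ?_⟩
  have hc := phi_cos hφ
  have hsq3 : Real.sqrt 3 ≤ 2 := by
    rw [show (2:ℝ) = Real.sqrt 4 by
      rw [show (4:ℝ) = 2 ^ 2 by norm_num, Real.sqrt_sq (by norm_num)]]
    exact Real.sqrt_le_sqrt (by norm_num)
  have hS := sys_of_rpert hR
  have hSr := sys_reflect hS
  obtain ⟨-, -, -, b4, -, -, -⟩ := sys_bounds (by omega : 1 ≤ 2 * n + 1) hS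
  obtain ⟨-, -, -, n4, -⟩ := sys_nice (by omega : 1 ≤ 2 * n + 1) hS
  obtain ⟨-, -, -, b4r, -, -, -⟩ := sys_bounds (by omega : 1 ≤ 2 * n + 1) hSr
  obtain ⟨-, -, -, n4r, -⟩ := sys_nice (by omega : 1 ≤ 2 * n + 1) hSr
  have hX := X_strip hn hR (z := (φ : ℂ) * Complex.I) (by rw [im_phi]; exact hφ)
  have b4' : ∀ l, |A1 (2 * n + 1) (fun u => (Xc n s1 u).re) l| ≤
      4 * |Real.tanh (3 * l / 4)| ^ (2 * n + 1) := fun l =>
    (b4 l).trans (mul_le_mul_of_nonneg_right (by linarith) (by positivity))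
  have b4r' : ∀ l, |A1 (2 * n + 1) (fun l => -(fun u : ℝ => (Xc n s1 u).re) (-l)) l| ≤
      4 * |Real.tanh (3 * l / 4)| ^ (2 * n + 1) := fun l =>
    (b4r l).trans (mul_le_mul_of_nonneg_right (by linarith) (by positivity))
  have hsplit := im_split (φ := φ) hc n4.1.continuous (tanh_four b4')
    (fr := A1 (2 * n + 1) (fun l => -(fun u : ℝ => (Xc n s1 u).re) (-l)))
    (fun u => a9_A1 n (fun u : ℝ => (Xc n s1 u).re) u)
  rw [← hX] at hsplit
  have p1 := im_part hc n n4.1.continuous b4' (hK0 n _ _ _ hn hS)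
  have p2 := im_part hc n n4r.1.continuous b4r' (hK0 n _ _ _ hn hSr)
  rw [hsplit]
  generalize (∫ u in Set.Ioi (0 : ℝ), (kc ((φ : ℂ) * Complex.I - u)).im *
    A1 (2 * n + 1) (fun u => (Xc n s1 u).re) u) = G1 at *
  generalize (∫ u in Set.Ioi (0 : ℝ), (kc ((φ : ℂ) * Complex.I - u)).im *
    A1 (2 * n + 1) (fun l => -(fun u : ℝ => (Xc n s1 u).re) (-l)) u) = G2 at *
  have e : (2 * (n : ℝ) + 1) * (G1 + G2) - Real.sin (3 * φ / 2) =
      ((2 * n + 1) * G1 - Real.sin (3 * φ / 2) * (1 / 2)) +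
        ((2 * n + 1) * G2 - Real.sin (3 * φ / 2) * (1 / 2)) := by ring
  rw [e]
  calc _ ≤ (8 + |K0|) / ((2 * n + 1 : ℝ) * Real.cos (3 * φ / 2) ^ 2) +
        (8 + |K0|) / ((2 * n + 1) * Real.cos (3 * φ / 2) ^ 2) :=
        (abs_add_le _ _).trans (add_le_add p1 p2)
    _ = _ := by ring

end Pool.Agent.Helper21.LK
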