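import Pool.Agent.Helper21.LK.Coef
import Pool.Agent.Helper21.LK.Val2

/-!
# The isoradial parametrization
-/

namespace Pool.Agent.Helper21.LK

open H906K Pool.Agent.H974R3 Polynomial

theorem bias_mem {θ : ℝ} (h0 : 0 < θ) (h1 : θ < Real.pi) : 0 ≤ bias θ ∧ bias θ ≤ 1 := by
  have hpi := Real.pi_pos
  have h2 : 0 < Real.sin (θ / 3) := by
    apply Real.sin_pos_of_pos_of_lt_pi <;> linarith
  have h3 : 0 < Real.sin ((Real.pi - θ) / 3) := by
    apply Real.sin_pos_of_pos_of_lt_pi <;> linarith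
  unfold bias
  constructor
  · positivity
  · rw [div_le_one (by positivity)]
    linarith

theorem sum_eq (θ : ℝ) : Real.sin (θ / 3) + Real.sin ((Real.pi - θ) / 3) =
    Real.sin (Real.pi / 3 + θ / 3) := by
  have e : (Real.pi - θ) / 3 = Real.pi / 3 - θ / 3 := by ring
  rw [e, Real.sin_add, Real.sin_sub, Real.sin_pi_div_three, Real.cos_pi_div_three]
  ring

theorem om_eq : om = -(1 / 2) + (Real.sqrt 3 / 2 : ℝ) * Complex.I := by
  apply Complex.ext <;> simp [om]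
  ring

theorem num_eq (θ : ℝ) : ((Real.sin ((Real.pi - θ) / 3) : ℝ) : ℂ) +
    om * ((Real.sin (Real.pi / 3 + θ / 3) : ℝ) : ℂ) =
    ((Real.sqrt 3 / 2 : ℝ) : ℂ) * Complex.exp (((Real.pi / 3 + θ / 3 : ℝ) : ℂ) * Complex.I) := by
  have hs := Real.sq_sqrt (show (0 : ℝ) ≤ 3 by norm_num)
  have e : (Real.pi - θ) / 3 = Real.pi / 3 - θ / 3 := by ring
  have h1 : Real.sin ((Real.pi - θ) / 3) - Real.sin (Real.pi / 3 + θ / 3) / 2 =
      Real.sqrt 3 / 2 * Real.cos (Real.pi / 3 + θ / 3) := by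
    rw [e, Real.sin_add, Real.sin_sub, Real.cos_add, Real.sin_pi_div_three,
      Real.cos_pi_div_three]
    linear_combination (-(1 / 4) * Real.sin (θ / 3)) * (-hs)
  rw [Complex.exp_mul_I, ← Complex.ofReal_cos, ← Complex.ofReal_sin, om_eq]
  apply Complex.ext
  · simp only [Complex.add_re, Complex.mul_re, Complex.ofReal_re, Complex.ofReal_im,
      Complex.I_re, Complex.I_im, Complex.add_im, Complex.mul_im, Complex.neg_re, Complex.neg_im]
    have e2 : (1 / 2 : ℂ).re = 1 / 2 := by norm_num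
    have e3 : (1 / 2 : ℂ).im = 0 := by norm_num
    rw [e2, e3]
    linear_combination h1
  · simp only [Complex.add_re, Complex.mul_re, Complex.ofReal_re, Complex.ofReal_im,
      Complex.I_re, Complex.I_im, Complex.add_im, Complex.mul_im, Complex.neg_re, Complex.neg_im]
    have e3 : (1 / 2 : ℂ).im = 0 := by norm_num
    rw [e3]
    ring

theorem xp_bias {θ : ℝ} (h0 : 0 < θ) (h1 : θ < Real.pi) :
    xp (bias θ) = Complex.exp (((2 * θ / 3 - Real.pi / 3 : ℝ) : ℂ) * Complex.I) := by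
  have hpi := Real.pi_pos
  have hS : 0 < Real.sin (Real.pi / 3 + θ / 3) := by
    apply Real.sin_pos_of_pos_of_lt_pi <;> linarith
  have hSc : ((Real.sin (Real.pi / 3 + θ / 3) : ℝ) : ℂ) ≠ 0 := by exact_mod_cast hS.ne'
  have hn := num_eq θ
  have hs3 : ((Real.sqrt 3 / 2 : ℝ) : ℂ) ≠ 0 := by
    have : (0 : ℝ) < Real.sqrt 3 / 2 := by positivity
    exact_mod_cast this.ne'
  -- the conjugate identity
  have hn' : ((Real.sin ((Real.pi - θ) / 3) : ℝ) : ℂ) +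
    om ^ 2 * ((Real.sin (Real.pi / 3 + θ / 3) : ℝ) : ℂ) =
    ((Real.sqrt 3 / 2 : ℝ) : ℂ) *
      Complex.exp (-(((Real.pi / 3 + θ / 3 : ℝ) : ℂ) * Complex.I)) := by
    have h2 := congrArg (starRingEnd ℂ) hn
    rw [map_add, map_mul, map_mul, g1om, Complex.conj_ofReal, Complex.conj_ofReal,
      Complex.conj_ofReal, ← Complex.exp_conj, map_mul, Complex.conj_ofReal, Complex.conj_I] at h2
    rw [h2]
    congr 2
    ring
  unfold xp bias
  rw [sum_eq]
  have e1 : -(((Real.sin ((Real.pi - θ) / 3) / Real.sin (Real.pi / 3 + θ / 3) : ℝ) : ℂ) + om) /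
      (((Real.sin ((Real.pi - θ) / 3) / Real.sin (Real.pi / 3 + θ / 3) : ℝ) : ℂ) + om ^ 2) =
      -(((Real.sin ((Real.pi - θ) / 3) : ℝ) : ℂ) +
        om * ((Real.sin (Real.pi / 3 + θ / 3) : ℝ) : ℂ)) /
      (((Real.sin ((Real.pi - θ) / 3) : ℝ) : ℂ) +
        om ^ 2 * ((Real.sin (Real.pi / 3 + θ / 3) : ℝ) : ℂ)) := by
    have a1 : ((Real.sin ((Real.pi - θ) / 3) : ℝ) : ℂ) +
        om * ((Real.sin (Real.pi / 3 + θ / 3) : ℝ) : ℂ) =
        (((Real.sin ((Real.pi - θ) / 3) / Real.sin (Real.pi / 3 + θ / 3) : ℝ) : ℂ) + om) *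
          ((Real.sin (Real.pi / 3 + θ / 3) : ℝ) : ℂ) := by
      rw [Complex.ofReal_div, add_mul, div_mul_cancel₀ _ hSc]
    have a2 : ((Real.sin ((Real.pi - θ) / 3) : ℝ) : ℂ) +
        om ^ 2 * ((Real.sin (Real.pi / 3 + θ / 3) : ℝ) : ℂ) =
        (((Real.sin ((Real.pi - θ) / 3) / Real.sin (Real.pi / 3 + θ / 3) : ℝ) : ℂ) + om ^ 2) *
          ((Real.sin (Real.pi / 3 + θ / 3) : ℝ) : ℂ) := by
      rw [Complex.ofReal_div, add_mul, div_mul_cancel₀ _ hSc]
    rw [a1, a2, ← neg_mul, mul_div_mul_right _ _ hSc]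
  rw [e1, hn, hn', neg_div, mul_div_mul_left _ _ hs3, ← Complex.exp_sub]
  have e2 : ((2 * θ / 3 - Real.pi / 3 : ℝ) : ℂ) * Complex.I =
      (((Real.pi / 3 + θ / 3 : ℝ) : ℂ) * Complex.I -
        -(((Real.pi / 3 + θ / 3 : ℝ) : ℂ) * Complex.I)) - Real.pi * Complex.I := by
    push_cast
    ring
  rw [e2, Complex.exp_sub _ (Real.pi * Complex.I), Complex.exp_pi_mul_I]
  ring

/-- the drift and the variance per row in the isoradial parametrization -/
theorem iso_vals : ∃ K : ℝ, 0 ≤ K ∧ ∀ (n : ℕ) (w : Pat (2 * n + 1) → PowerSeries ℂ)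
    (t : (PowerSeries ℂ)[X]), 1 ≤ n → (∀ σ, PowerSeries.coeff 0 (w σ) = 1) →
    (∀ x : ℂ, (TL (2 * n) (PowerSeries.C om) (PowerSeries.C x) ez).vecMul w =
      (t.eval (PowerSeries.C x)) • w) → TSpec n t → ∀ θ : ℝ, 0 < θ → θ < Real.pi →
    |al t n (bias θ) + Real.cos θ| ≤ K / ((2 * n + 1) * Real.sin θ ^ 2) ∧
    |2 * Real.pi * vv t n (bias θ) / (2 * n + 1) - 6 * Real.sin θ| ≤
      K / ((2 * n + 1) * Real.sin θ) := by
  obtain ⟨K1, hK10, hK1⟩ := first_val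
  obtain ⟨K2, hK20, hK2⟩ := second_val
  refine ⟨K1 + K2, by positivity, fun n w t hn hw h hsp θ h0 h1 => ?_⟩
  obtain ⟨s1, s2, V1, V2, hR, hs⟩ := coef hw h hsp
  obtain ⟨b0, b1⟩ := bias_mem h0 h1
  obtain ⟨r0, r1, r2⟩ := hs (bias θ) b0 b1
  have hpi := Real.pi_pos
  have hφ : |2 * θ / 3 - Real.pi / 3| < Real.pi / 3 := by
    rw [abs_lt]
    constructor <;> linarith
  have v1 := hK1 n s1 s2 V1 V2 hn hR _ hφ
  have v2 := hK2 n s1 s2 V1 V2 hn hR _ hφ
  have ea : 3 * (2 * θ / 3 - Real.pi / 3) / 2 = θ - Real.pi / 2 := by ring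
  rw [ea, Real.sin_sub_pi_div_two, Real.cos_sub_pi_div_two] at v1
  rw [ea, Real.cos_sub_pi_div_two] at v2
  have x1 : Xc n s1 (((2 * θ / 3 - Real.pi / 3 : ℝ) : ℂ) * Complex.I) =
      Fx n s1 (xp (bias θ)) := by
    rw [xp_bias h0 h1]
    rfl
  have x2 : Xc n s2 (((2 * θ / 3 - Real.pi / 3 : ℝ) : ℂ) * Complex.I) =
      Fx n s2 (xp (bias θ)) := by
    rw [xp_bias h0 h1]
    rfl
  rw [x1] at v1 v2
  rw [x2] at v2
  have hsin : 0 < Real.sin θ := Real.sin_pos_of_pos_of_lt_pi h0 h1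
  have hNpos : (0 : ℝ) < 2 * (n : ℝ) + 1 := by positivity
  have hsq : (Fx n s1 (xp (bias θ)) ^ 2 / 2).re = -(Fx n s1 (xp (bias θ))).im ^ 2 / 2 := by
    have e : Fx n s1 (xp (bias θ)) = ((Fx n s1 (xp (bias θ))).im : ℂ) * Complex.I := by
      apply Complex.ext
      · rw [r0, Complex.re_ofReal_mul, Complex.I_re, mul_zero]
      · rw [Complex.im_ofReal_mul, Complex.I_im, mul_one]
    conv_lhs => rw [e]
    rw [mul_pow, Complex.I_sq]
    have e2 : (((Fx n s1 (xp (bias θ))).im : ℂ) ^ 2 * -1 / 2) =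
        ((-(Fx n s1 (xp (bias θ))).im ^ 2 / 2 : ℝ) : ℂ) := by
      push_cast
      ring
    rw [e2, Complex.ofReal_re]
  rw [Complex.sub_re, hsq] at v2
  constructor
  · rw [← r1, sub_neg_eq_add] at v1
    refine v1.trans ?_
    gcongr
    linarith
  · have e3 : 2 * Real.pi * vv t n (bias θ) / (2 * n + 1) - 6 * Real.sin θ =
        -(4 * Real.pi * (2 * n + 1) * ((Fx n s2 (xp (bias θ))).re -
          -(Fx n s1 (xp (bias θ))).im ^ 2 / 2) + 6 * Real.sin θ) := by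
      rw [r2, r1]
      field_simp
      ring
    rw [e3, abs_neg]
    refine v2.trans ?_
    gcongr
    linarith

end Pool.Agent.Helper21.LK
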