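import Pool.Agent.Helper21.LK.Clt
import Pool.Agent.Helper21.LK.Iso

/-!
# Assembly
-/

namespace Pool.Agent.Helper21.LK

open H906K Pool.Agent.H974R3 Polynomial Filter Topology

theorem sum_lx {n : ℕ} {t : (PowerSeries ℂ)[X]} (p e : ℕ → ℝ) (M : ℕ) :
    ∑ s ∈ Finset.range M, lx t n (p s) (e s) =
      Complex.I * ((∑ s ∈ Finset.range M, e s * al t n (p s) : ℝ) : ℂ) -
        ((∑ s ∈ Finset.range M, e s ^ 2 * vv t n (p s) : ℝ) : ℂ) / 2 := by
  push_cast
  rw [Finset.mul_sum, Finset.sum_div, ← Finset.sum_sub_distrib]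
  refine Finset.sum_congr rfl fun s _ => ?_
  unfold lx
  ring

/-- the drift and the variance per row control the mean, the variance and the characteristic
functional of the displacement in every layered environment -/
theorem layered : ∃ μ v : ℕ → ℝ → ℝ,
    (∀ n : ℕ, ∃ C : ℝ, 0 ≤ C ∧ ∀ p : ℕ → ℝ, (∀ s, 0 ≤ p s ∧ p s ≤ 1) → ∀ M : ℕ,
      |meanX n M p - ∑ s ∈ Finset.range M, μ n (p s)| ≤ C ∧
      |varX n M p - ∑ s ∈ Finset.range M, v n (p s)| ≤ C * Real.sqrt (M + 1) ∧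
      ∀ e : ℕ → ℝ,
        ‖cf n M p (wsum n e) - Complex.exp
          (Complex.I * ((∑ s ∈ Finset.range M, e s * μ n (p s) : ℝ) : ℂ) -
            ((∑ s ∈ Finset.range M, e s ^ 2 * v n (p s) : ℝ) : ℂ) / 2)‖ ≤
        C * (|e 0| + ∑ s ∈ Finset.range M, (|e s| ^ 3 + |e (s + 1) - e s|))) ∧
    ∃ K : ℝ, 0 ≤ K ∧ ∀ n : ℕ, 1 ≤ n → ∀ θ : ℝ, 0 < θ → θ < Real.pi →
      |μ n (bias θ) + Real.cos θ| ≤ K / ((2 * n + 1) * Real.sin θ ^ 2) ∧
      |2 * Real.pi * v n (bias θ) / (2 * n + 1) - 6 * Real.sin θ| ≤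
        K / ((2 * n + 1) * Real.sin θ) := by
  choose V W T hV hd ht hw hW using exists_common
  refine ⟨fun n => al (T n) n, fun n => vv (T n) n, fun n => ?_, ?_⟩
  · obtain ⟨D, hD0, hD⟩ := bounds (hw n) (hW n)
    obtain ⟨C, hC0, hC⟩ := cf_bound (hw n) (hW n)
    refine ⟨D + C, by positivity, fun p hp M => ?_⟩
    obtain ⟨h1, h2, -⟩ := hD p hp M
    refine ⟨by linarith, h2.trans ?_, fun e => ?_⟩
    · exact mul_le_mul_of_nonneg_right (by linarith) (Real.sqrt_nonneg _)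
    · have h3 := hC p hp e M
      rw [sum_lx] at h3
      refine h3.trans (mul_le_mul_of_nonneg_right (by linarith) ?_)
      have : 0 ≤ ∑ s ∈ Finset.range M, (|e s| ^ 3 + |e (s + 1) - e s|) :=
        Finset.sum_nonneg fun s _ => by positivity
      positivity
  · obtain ⟨K, hK0, hK⟩ := iso_vals
    refine ⟨K, hK0, fun n hn θ h0 h1 => ?_⟩
    exact hK n (W n) (T n) hn (hw n) (hW n) (tspec n (V n) (T n) (hV n) (hd n) (ht n)) θ h0 h1

theorem lev_zero {n M : ℕ} (c : Fin M → Fin (2 * n + 1) → Bool) : lev n c 0 = 0 := by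
  unfold lev
  rw [Xd_run]
  rfl

theorem lev_self {n M : ℕ} (c : Fin M → Fin (2 * n + 1) → Bool) : lev n c M = Xd n M c := by
  unfold lev
  rw [trunc_self]

theorem wsum_const {n M : ℕ} (e : ℝ) (c : Fin M → Fin (2 * n + 1) → Bool) :
    wsum n (fun _ => e) c = e * (Xd n M c : ℝ) := by
  unfold wsum
  rw [← Finset.mul_sum, Finset.sum_range_sub (fun s => (lev n c s : ℝ)), lev_zero, lev_self]
  simp

theorem cf_shift {n M : ℕ} {p : ℕ → ℝ} (f : (Fin M → Fin (2 * n + 1) → Bool) → ℝ) (a : ℝ) :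
    cf n M p (fun c => f c - a) = Complex.exp (-(Complex.I * (a : ℂ))) * cf n M p f := by
  unfold cf
  rw [Finset.mul_sum]
  refine Finset.sum_congr rfl fun c _ => ?_
  have e : Complex.I * ((f c - a : ℝ) : ℂ) = -(Complex.I * (a : ℂ)) + Complex.I * (f c : ℂ) := by
    push_cast
    ring
  rw [e, Complex.exp_add]
  ring

end Pool.Agent.Helper21.LK
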