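import Pool.Agent.Helper21.LK.Mart

/-!
# Uniform bounds for the mean and the variance
-/

namespace Pool.Agent.Helper21.LK

open H906K Pool.Agent.H974R3 Polynomial

section
variable {n : ℕ} {w : Pat (2 * n + 1) → PowerSeries ℂ} {t : (PowerSeries ℂ)[X]}

theorem avg_le {M : ℕ} {p : ℕ → ℝ} (hp : ∀ s, 0 ≤ p s ∧ p s ≤ 1) {B : ℝ}
    (f : (Fin M → Fin (2 * n + 1) → Bool) → ℝ) (hf : ∀ c, f c ≤ B) : avg n M p f ≤ B := by
  unfold avg
  calc ∑ c, weight n M p c * f c ≤ ∑ c, weight n M p c * B :=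
        Finset.sum_le_sum fun c _ => mul_le_mul_of_nonneg_left (hf c) (weight_nonneg hp c)
    _ = B := by rw [← Finset.sum_mul, sum_weight, one_mul]

theorem avg_nonneg {M : ℕ} {p : ℕ → ℝ} (hp : ∀ s, 0 ≤ p s ∧ p s ≤ 1)
    (f : (Fin M → Fin (2 * n + 1) → Bool) → ℝ) (hf : ∀ c, 0 ≤ f c) : 0 ≤ avg n M p f :=
  Finset.sum_nonneg fun c _ => mul_nonneg (weight_nonneg hp c) (hf c)

theorem abs_avg_le {M : ℕ} {p : ℕ → ℝ} (hp : ∀ s, 0 ≤ p s ∧ p s ≤ 1) {B : ℝ}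
    (f : (Fin M → Fin (2 * n + 1) → Bool) → ℝ) (hf : ∀ c, |f c| ≤ B) : |avg n M p f| ≤ B := by
  refine abs_le.2 ⟨?_, avg_le hp f fun c => (abs_le.1 (hf c)).2⟩
  have h : avg n M p (fun c => - f c) ≤ B := avg_le hp _ fun c => by
    have := (abs_le.1 (hf c)).1
    linarith
  have e : avg n M p (fun c => - f c) = - avg n M p f := by
    unfold avg
    rw [← Finset.sum_neg_distrib]
    exact Finset.sum_congr rfl fun c _ => by ring
  rw [e] at h
  linarith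

/-- the variance around another centre -/
theorem var_eq (M : ℕ) (p : ℕ → ℝ) (m : ℝ) :
    varX n M p = avg n M p (fun c => ((Xd n M c : ℝ) - m) ^ 2) - (meanX n M p - m) ^ 2 := by
  have h : avg n M p (fun c => ((Xd n M c : ℝ) - m) ^ 2) =
      avg n M p (fun c => (Xd n M c : ℝ) ^ 2) - 2 * m * meanX n M p + m ^ 2 := by
    unfold meanX avg
    have e3 : ∑ c, weight n M p c * ((Xd n M c : ℝ) - m) ^ 2 =
          ∑ c, (weight n M p c * (Xd n M c : ℝ) ^ 2 - 2 * m * (weight n M p c * (Xd n M c : ℝ)) +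
            weight n M p c * m ^ 2) :=
        Finset.sum_congr rfl fun c _ => by ring
    rw [e3, Finset.sum_add_distrib, Finset.sum_sub_distrib, ← Finset.mul_sum,
        ← Finset.sum_mul, sum_weight, one_mul]
  rw [h]
  unfold varX
  ring

/-- the drift and the variance per row control the mean and the variance -/
theorem bounds (hw : ∀ σ, PowerSeries.coeff 0 (w σ) = 1)
    (h : ∀ x : ℂ, (TL (2 * n) (PowerSeries.C om) (PowerSeries.C x) ez).vecMul w =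
      (t.eval (PowerSeries.C x)) • w) : ∃ D : ℝ, 0 ≤ D ∧
    ∀ (p : ℕ → ℝ), (∀ s, 0 ≤ p s ∧ p s ≤ 1) → ∀ M : ℕ,
      |meanX n M p - ∑ s ∈ Finset.range M, al t n (p s)| ≤ D ∧
      |varX n M p - ∑ s ∈ Finset.range M, vv t n (p s)| ≤ D * Real.sqrt (M + 1) ∧
      |∑ s ∈ Finset.range M, (PowerSeries.coeff 2 (Lam t n (p s))).im| ≤
        D * Real.sqrt (M + 1) := by
  obtain ⟨B, hB⟩ : ∃ B : ℝ, ∀ σ, ‖PowerSeries.coeff 1 (w σ)‖ ≤ B ∧
      ‖PowerSeries.coeff 2 (w σ)‖ ≤ B := by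
    obtain ⟨B1, hB1⟩ := (Set.finite_range fun σ => ‖PowerSeries.coeff 1 (w σ)‖).bddAbove
    obtain ⟨B2, hB2⟩ := (Set.finite_range fun σ => ‖PowerSeries.coeff 2 (w σ)‖).bddAbove
    exact ⟨max B1 B2, fun σ => ⟨(hB1 ⟨σ, rfl⟩).trans (le_max_left _ _),
      (hB2 ⟨σ, rfl⟩).trans (le_max_right _ _)⟩⟩
  have hB0 : 0 ≤ B := (norm_nonneg _).trans (hB (start n)).1
  obtain ⟨D0, hD0⟩ : ∃ D0 : ℝ, ∀ c : Fin 1 → Fin (2 * n + 1) → Bool, |(Xd n 1 c : ℝ)| ≤ D0 := by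
    obtain ⟨B1, hB1⟩ := (Set.finite_range fun c : Fin 1 → Fin (2 * n + 1) → Bool =>
      |(Xd n 1 c : ℝ)|).bddAbove
    exact ⟨B1, fun c => hB1 ⟨c, rfl⟩⟩
  have hD00 : 0 ≤ D0 := (abs_nonneg _).trans (hD0 fun _ _ => true)
  -- one row
  set V : ℝ := (1 + B) * (2 * D0 + 2 * B) ^ 2 + 5 * B with hV
  have hV0 : 0 ≤ V := by positivity
  have hvv : ∀ p : ℝ, 0 ≤ p → p ≤ 1 → |vv t n p| ≤ V := by
    intro p h0 h1
    obtain ⟨c1, c2⟩ := core hw h hB (p := fun _ => p) (fun _ => ⟨h0, h1⟩) 1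
    have c3 := (c2 1 one_pos).1
    rw [Finset.sum_range_one] at c1
    rw [Finset.sum_range_one, Finset.sum_range_one, div_one] at c3
    have hm : |meanX n 1 (fun _ => p)| ≤ D0 := abs_avg_le (fun _ => ⟨h0, h1⟩) _ hD0
    have hal : |al t n p| ≤ D0 + 2 * B := by
      have := abs_sub_abs_le_abs_sub (al t n p) (meanX n 1 (fun _ => p))
      rw [abs_sub_comm] at this
      linarith
    set Y : ℝ := avg n 1 (fun _ => p) (fun c => ((Xd n 1 c : ℝ) - al t n p) ^ 2) with hY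
    have hYle : Y ≤ (2 * D0 + 2 * B) ^ 2 := by
      refine avg_le (fun _ => ⟨h0, h1⟩) _ fun c => ?_
      rw [← sq_abs]
      refine pow_le_pow_left₀ (abs_nonneg _) ?_ 2
      have := abs_sub (Xd n 1 c : ℝ) (al t n p)
      have := hD0 c
      linarith
    have hY0 : 0 ≤ Y := avg_nonneg (fun _ => ⟨h0, h1⟩) _ fun c => sq_nonneg _
    have c4 := abs_sub_abs_le_abs_sub (vv t n p) Y
    rw [abs_sub_comm, abs_of_nonneg hY0] at c4
    have : B * Y ≤ B * (2 * D0 + 2 * B) ^ 2 := mul_le_mul_of_nonneg_left hYle hB0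
    rw [hV]
    nlinarith
  set D1 : ℝ := 2 * V + 8 * B + 2 * B * (2 * B + 1) with hD1
  have hD10 : 0 ≤ D1 := by positivity
  refine ⟨5 * B + B * D1 + 4 * B ^ 2, by positivity, fun p hp M => ?_⟩
  obtain ⟨c1, c2⟩ := core hw h hB hp M
  have hs1 : 1 ≤ Real.sqrt (M + 1) := by
    rw [Real.one_le_sqrt]
    have : (0 : ℝ) ≤ M := Nat.cast_nonneg M
    linarith
  have hs0 : 0 < Real.sqrt (M + 1) := by linarith
  have hss : Real.sqrt (M + 1) * Real.sqrt (M + 1) = M + 1 :=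
    Real.mul_self_sqrt (by positivity)
  refine ⟨c1.trans (by nlinarith), ?_⟩
  set m : ℝ := ∑ s ∈ Finset.range M, al t n (p s) with hm
  set Y : ℝ := avg n M p (fun c => ((Xd n M c : ℝ) - m) ^ 2) with hY
  set S : ℝ := ∑ s ∈ Finset.range M, vv t n (p s) with hS
  have hY0 : 0 ≤ Y := avg_nonneg hp _ fun c => sq_nonneg _
  have hSle : |S| ≤ M * V := by
    refine (Finset.abs_sum_le_sum_abs _ _).trans ?_
    calc ∑ s ∈ Finset.range M, |vv t n (p s)| ≤ ∑ s ∈ Finset.range M, V :=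
          Finset.sum_le_sum fun s _ => hvv _ (hp s).1 (hp s).2
      _ = M * V := by rw [Finset.sum_const, Finset.card_range, nsmul_eq_mul]
  have hYle : Y ≤ D1 * (M + 1) := by
    have c3 := (c2 (2 * B + 1) (by positivity)).1
    have c4 := (abs_le.1 c3).2
    have c5 : B * (2 * B + 1 + Y / (2 * B + 1)) ≤ B * (2 * B + 1) + Y / 2 := by
      have : B * (Y / (2 * B + 1)) ≤ Y / 2 := by
        rw [mul_div_assoc', div_le_div_iff₀ (by positivity) (by norm_num)]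
        nlinarith
      linarith
    have c6 := (abs_le.1 hSle).2
    have hM0 : (0 : ℝ) ≤ M := Nat.cast_nonneg M
    rw [hD1]
    have : 0 ≤ (8 * B + 2 * B * (2 * B + 1)) * M := by positivity
    nlinarith
  obtain ⟨c7, c7'⟩ := c2 (Real.sqrt (M + 1)) hs0
  have c8 : Y / Real.sqrt (M + 1) ≤ D1 * Real.sqrt (M + 1) := by
    rw [div_le_iff₀ hs0, mul_assoc, hss]
    exact hYle
  have c9 : B * (Real.sqrt (M + 1) + Y / Real.sqrt (M + 1)) ≤
      B * (Real.sqrt (M + 1) + D1 * Real.sqrt (M + 1)) :=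
    mul_le_mul_of_nonneg_left (by linarith) hB0
  have c10 : (meanX n M p - m) ^ 2 ≤ (2 * B) ^ 2 := by
    rw [← sq_abs]
    exact pow_le_pow_left₀ (abs_nonneg _) c1 2
  have c11 : 4 * B ≤ 4 * B * Real.sqrt (M + 1) := by nlinarith
  have c12 : 4 * B ^ 2 ≤ 4 * B ^ 2 * Real.sqrt (M + 1) := by nlinarith [sq_nonneg B]
  refine ⟨?_, by nlinarith⟩
  rw [var_eq M p m, ← hY]
  have e : Y - (meanX n M p - m) ^ 2 - S = (Y - S) - (meanX n M p - m) ^ 2 := by ring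
  rw [e]
  refine (abs_sub _ _).trans ?_
  rw [abs_of_nonneg (sq_nonneg (meanX n M p - m))]
  nlinarith

end

end Pool.Agent.Helper21.LK
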