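import Pool.Agent.Helper21.LK.Refl

/-!
# Gaussian approximation of the characteristic function of the displacement
-/

namespace Pool.Agent.Helper21.LK

open H906K Pool.Agent.H974R3 Polynomial

theorem exp_poly {K : ℝ} (hK : 0 ≤ K) : ∃ C : ℝ, 0 ≤ C ∧
    ∀ (e : ℝ) (z1 z2 a1 a2 : ℂ), |e| ≤ 1 → ‖z1‖ ≤ K → ‖z2‖ ≤ K → ‖a1‖ ≤ K → ‖a2‖ ≤ K →
      ‖Complex.exp (e * z1 + e ^ 2 * z2) * (1 + e * a1 + e ^ 2 * a2) -
        (1 + e * (z1 + a1) + e ^ 2 * (z2 + z1 ^ 2 / 2 + z1 * a1 + a2))‖ ≤ C * |e| ^ 3 := by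
  refine ⟨(2 * K) ^ 3 * Real.exp (2 * K) * (1 + K + K) +
    (((K + K ^ 2 / 2) * K + K * K) + (K * K + K ^ 2 / 2) * (1 + K + K) + (K + K ^ 2 / 2) * K),
    by positivity, fun e z1 z2 a1 a2 he h1 h2 h3 h4 => ?_⟩
  have he0 : 0 ≤ |e| := abs_nonneg e
  have hne : ‖(e : ℂ)‖ = |e| := by rw [Complex.norm_real, Real.norm_eq_abs]
  have he2 : |e| ^ 2 ≤ 1 := pow_le_one₀ he0 he
  set ζ : ℂ := e * z1 + e ^ 2 * z2 with hζ
  have hζn : ‖ζ‖ ≤ 2 * K * |e| := by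
    rw [hζ]
    refine (norm_add_le _ _).trans ?_
    rw [norm_mul, norm_mul, norm_pow, hne]
    have e1 : |e| * ‖z1‖ ≤ |e| * K := mul_le_mul_of_nonneg_left h1 he0
    have e2 : |e| ^ 2 * ‖z2‖ ≤ |e| * K := by
      have : |e| ^ 2 ≤ |e| := by nlinarith
      exact mul_le_mul this h2 (norm_nonneg _) he0
    linarith
  have hζ1 : ‖ζ‖ ≤ 2 * K := by nlinarith
  set ρ : ℂ := Complex.exp ζ - (1 + ζ + ζ ^ 2 / 2) with hρ
  have hρn : ‖ρ‖ ≤ (2 * K) ^ 3 * Real.exp (2 * K) * |e| ^ 3 := by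
    have h5 := Complex.norm_exp_sub_sum_le_norm_mul_exp ζ 3
    have h6 : ∑ m ∈ Finset.range 3, ζ ^ m / (m.factorial : ℂ) = 1 + ζ + ζ ^ 2 / 2 := by
      simp [Finset.sum_range_succ, Nat.factorial]
    rw [h6, ← hρ] at h5
    refine h5.trans ?_
    calc ‖ζ‖ ^ 3 * Real.exp ‖ζ‖ ≤ (2 * K * |e|) ^ 3 * Real.exp (2 * K) := by
          gcongr
      _ = _ := by ring
  have hA : ‖(1 : ℂ) + e * a1 + e ^ 2 * a2‖ ≤ 1 + K + K := by
    refine (norm_add_le _ _).trans (add_le_add ((norm_add_le _ _).trans (add_le_add ?_ ?_)) ?_)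
    · rw [norm_one]
    · rw [norm_mul, hne]
      calc |e| * ‖a1‖ ≤ 1 * K := mul_le_mul he h3 (norm_nonneg _) zero_le_one
        _ = K := one_mul K
    · rw [norm_mul, norm_pow, hne]
      calc |e| ^ 2 * ‖a2‖ ≤ 1 * K := mul_le_mul he2 h4 (norm_nonneg _) zero_le_one
        _ = K := one_mul K
  have hq : ‖z2 + z1 ^ 2 / 2‖ ≤ K + K ^ 2 / 2 := by
    refine (norm_add_le _ _).trans (add_le_add h2 ?_)
    rw [norm_div, norm_pow]
    have : ‖(2 : ℂ)‖ = 2 := by simp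
    rw [this]
    gcongr
  have hr : ‖z1 * z2 + e * z2 ^ 2 / 2‖ ≤ K * K + K ^ 2 / 2 := by
    refine (norm_add_le _ _).trans (add_le_add ?_ ?_)
    · rw [norm_mul]
      exact mul_le_mul h1 h2 (norm_nonneg _) hK
    · rw [norm_div, norm_mul, norm_pow, hne]
      have : ‖(2 : ℂ)‖ = 2 := by simp
      rw [this]
      have : |e| * ‖z2‖ ^ 2 ≤ 1 * K ^ 2 :=
        mul_le_mul he (pow_le_pow_left₀ (norm_nonneg _) h2 2) (by positivity) zero_le_one
      linarith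
  have key : Complex.exp ζ * (1 + e * a1 + e ^ 2 * a2) -
        (1 + e * (z1 + a1) + e ^ 2 * (z2 + z1 ^ 2 / 2 + z1 * a1 + a2)) =
      ρ * (1 + e * a1 + e ^ 2 * a2) + (e : ℂ) ^ 3 * (((z2 + z1 ^ 2 / 2) * a1 + z1 * a2) +
        (z1 * z2 + e * z2 ^ 2 / 2) * (1 + e * a1 + e ^ 2 * a2) +
        e * ((z2 + z1 ^ 2 / 2) * a2)) := by
    rw [hρ, hζ]
    ring
  rw [key]
  refine (norm_add_le _ _).trans ?_
  have hne3 : ‖(e : ℂ) ^ 3‖ = |e| ^ 3 := by rw [norm_pow, hne]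
  rw [norm_mul, norm_mul, hne3]
  have t1 : ‖ρ‖ * ‖(1 : ℂ) + e * a1 + e ^ 2 * a2‖ ≤
      (2 * K) ^ 3 * Real.exp (2 * K) * |e| ^ 3 * (1 + K + K) :=
    mul_le_mul hρn hA (norm_nonneg _) (by positivity)
  have t2 : ‖((z2 + z1 ^ 2 / 2) * a1 + z1 * a2) +
        (z1 * z2 + e * z2 ^ 2 / 2) * (1 + e * a1 + e ^ 2 * a2) +
        e * ((z2 + z1 ^ 2 / 2) * a2)‖ ≤ (((K + K ^ 2 / 2) * K + K * K) +
        (K * K + K ^ 2 / 2) * (1 + K + K) + (K + K ^ 2 / 2) * K) := by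
    refine (norm_add_le _ _).trans (add_le_add ((norm_add_le _ _).trans (add_le_add
      ((norm_add_le _ _).trans (add_le_add ?_ ?_)) ?_)) ?_)
    · rw [norm_mul]
      exact mul_le_mul hq h3 (norm_nonneg _) (by positivity)
    · rw [norm_mul]
      exact mul_le_mul h1 h4 (norm_nonneg _) hK
    · rw [norm_mul]
      exact mul_le_mul hr hA (norm_nonneg _) (by positivity)
    · rw [norm_mul, norm_mul, hne]
      calc |e| * (‖z2 + z1 ^ 2 / 2‖ * ‖a2‖) ≤ 1 * ((K + K ^ 2 / 2) * K) := by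
            refine mul_le_mul he (mul_le_mul hq h4 (norm_nonneg _) (by positivity))
              (by positivity) zero_le_one
        _ = _ := one_mul _
  calc _ ≤ (2 * K) ^ 3 * Real.exp (2 * K) * |e| ^ 3 * (1 + K + K) + |e| ^ 3 *
        (((K + K ^ 2 / 2) * K + K * K) + (K * K + K ^ 2 / 2) * (1 + K + K) +
          (K + K ^ 2 / 2) * K) := add_le_add t1 (mul_le_mul_of_nonneg_left t2 (by positivity))
    _ = _ := by ring

section
variable {n : ℕ} {w : Pat (2 * n + 1) → PowerSeries ℂ} {t : (PowerSeries ℂ)[X]}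

/-- the truncated eigenvector -/
noncomputable def We (w : Pat (2 * n + 1) → PowerSeries ℂ) (e : ℝ) (σ : Pat (2 * n + 1)) : ℂ :=
  1 + e * PowerSeries.coeff 1 (w σ) + e ^ 2 * PowerSeries.coeff 2 (w σ)

theorem row_coeffs (hw : ∀ σ, PowerSeries.coeff 0 (w σ) = 1)
    (h : ∀ x : ℂ, (TL (2 * n) (PowerSeries.C om) (PowerSeries.C x) ez).vecMul w =
      (t.eval (PowerSeries.C x)) • w) (p : ℝ) (σ : Pat (2 * n + 1)) :
    (∑ r, ((rowW n p r : ℝ) : ℂ) * (Complex.I * (dTc (2 * n) r σ : ℂ) +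
        PowerSeries.coeff 1 (w (Tc (2 * n) r σ))) =
      PowerSeries.coeff 1 (Lam t n p) + PowerSeries.coeff 1 (w σ)) ∧
    (∑ r, ((rowW n p r : ℝ) : ℂ) * (0 + (Complex.I * (dTc (2 * n) r σ : ℂ)) ^ 2 / 2 +
        Complex.I * (dTc (2 * n) r σ : ℂ) * PowerSeries.coeff 1 (w (Tc (2 * n) r σ)) +
        PowerSeries.coeff 2 (w (Tc (2 * n) r σ))) =
      PowerSeries.coeff 2 (Lam t n p) + PowerSeries.coeff 1 (Lam t n p) *
        PowerSeries.coeff 1 (w σ) + PowerSeries.coeff 2 (w σ)) := by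
  have key := row_id h p σ
  have hI := Complex.I_sq
  constructor
  · have h1 := congrArg (PowerSeries.coeff 1) key
    rw [map_sum, p2_mul1, lam_zero hw h, hw] at h1
    rw [show PowerSeries.coeff 1 (Lam t n p) + PowerSeries.coeff 1 (w σ) =
      1 * PowerSeries.coeff 1 (w σ) + PowerSeries.coeff 1 (Lam t n p) * 1 by ring, ← h1]
    refine Finset.sum_congr rfl fun c _ => ?_
    rw [PowerSeries.coeff_C_mul, p2_mul1, hw, p2_exp0, p2_exp1]
    ring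
  · have h1 := congrArg (PowerSeries.coeff 2) key
    rw [map_sum, p2_mul2, lam_zero hw h, hw] at h1
    rw [show PowerSeries.coeff 2 (Lam t n p) + PowerSeries.coeff 1 (Lam t n p) *
        PowerSeries.coeff 1 (w σ) + PowerSeries.coeff 2 (w σ) =
      1 * PowerSeries.coeff 2 (w σ) + PowerSeries.coeff 1 (Lam t n p) *
        PowerSeries.coeff 1 (w σ) + PowerSeries.coeff 2 (Lam t n p) * 1 by ring, ← h1]
    refine Finset.sum_congr rfl fun c _ => ?_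
    rw [PowerSeries.coeff_C_mul, p2_mul2, hw, p2_exp0, p2_exp1, p2_exp2, mul_pow, hI]
    ring

/-- the coefficients of the eigenvalue in terms of the drift and the variance -/
theorem lam_coeffs (hw : ∀ σ, PowerSeries.coeff 0 (w σ) = 1)
    (h : ∀ x : ℂ, (TL (2 * n) (PowerSeries.C om) (PowerSeries.C x) ez).vecMul w =
      (t.eval (PowerSeries.C x)) • w) {p : ℝ} (h0 : 0 ≤ p) (h1 : p ≤ 1) :
    PowerSeries.coeff 1 (Lam t n p) = Complex.I * (al t n p : ℂ) ∧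
    PowerSeries.coeff 2 (Lam t n p) = -(vv t n p : ℂ) / 2 +
      (Complex.I * (al t n p : ℂ)) ^ 2 / 2 := by
  constructor
  · apply Complex.ext
    · rw [re_zero hw h h0 h1]
      simp
    · simp [al]
  · have hI := Complex.I_sq
    rw [mul_pow, hI]
    have e : -(vv t n p : ℂ) / 2 + -1 * (al t n p : ℂ) ^ 2 / 2 =
        ((-(vv t n p) / 2 - (al t n p) ^ 2 / 2 : ℝ) : ℂ) := by
      push_cast
      ring
    rw [e]
    apply Complex.ext
    · rw [Complex.ofReal_re]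
      unfold vv
      ring
    · rw [Complex.ofReal_im, im_zero hw h h0 h1]

/-- uniform bounds for the drift and the variance per row -/
theorem al_vv_bound (hw : ∀ σ, PowerSeries.coeff 0 (w σ) = 1)
    (h : ∀ x : ℂ, (TL (2 * n) (PowerSeries.C om) (PowerSeries.C x) ez).vecMul w =
      (t.eval (PowerSeries.C x)) • w) : ∃ K : ℝ, 0 ≤ K ∧ ∀ p : ℝ, 0 ≤ p → p ≤ 1 →
    |al t n p| ≤ K ∧ |vv t n p| ≤ K := by
  obtain ⟨D, hD0, hD⟩ := bounds hw h
  obtain ⟨D0, hD0'⟩ : ∃ D0 : ℝ, ∀ c : Fin 1 → Fin (2 * n + 1) → Bool, |(Xd n 1 c : ℝ)| ≤ D0 := by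
    obtain ⟨B1, hB1⟩ := (Set.finite_range fun c : Fin 1 → Fin (2 * n + 1) → Bool =>
      |(Xd n 1 c : ℝ)|).bddAbove
    exact ⟨B1, fun c => hB1 ⟨c, rfl⟩⟩
  have hD00 : 0 ≤ D0 := (abs_nonneg _).trans (hD0' fun _ _ => true)
  refine ⟨(D + D0) + (D0 ^ 2 + D0 ^ 2 + D * Real.sqrt (((1 : ℕ) : ℝ) + 1)), by positivity,
    fun p h0 h1 => ?_⟩
  obtain ⟨c1, c2, -⟩ := hD (fun _ => p) (fun _ => ⟨h0, h1⟩) 1
  rw [Finset.sum_range_one] at c1 c2
  have hm : |meanX n 1 (fun _ => p)| ≤ D0 := abs_avg_le (fun _ => ⟨h0, h1⟩) _ hD0'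
  have hm2 : |avg n 1 (fun _ => p) (fun c => (Xd n 1 c : ℝ) ^ 2)| ≤ D0 ^ 2 := by
    refine abs_avg_le (fun _ => ⟨h0, h1⟩) _ fun c => ?_
    rw [abs_pow]
    exact pow_le_pow_left₀ (abs_nonneg _) (hD0' c) 2
  have hv : |varX n 1 (fun _ => p)| ≤ D0 ^ 2 + D0 ^ 2 := by
    unfold varX
    refine (abs_sub _ _).trans (add_le_add hm2 ?_)
    rw [abs_pow]
    exact pow_le_pow_left₀ (abs_nonneg _) hm 2
  have e1 : |al t n p| ≤ D + D0 := by
    have := abs_sub_abs_le_abs_sub (al t n p) (meanX n 1 (fun _ => p))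
    rw [abs_sub_comm] at this
    linarith
  have e2 : |vv t n p| ≤ D0 ^ 2 + D0 ^ 2 + D * Real.sqrt (((1 : ℕ) : ℝ) + 1) := by
    have := abs_sub_abs_le_abs_sub (vv t n p) (varX n 1 (fun _ => p))
    rw [abs_sub_comm] at this
    linarith
  have p1 : 0 ≤ D + D0 := by positivity
  have p2 : 0 ≤ D0 ^ 2 + D0 ^ 2 + D * Real.sqrt (((1 : ℕ) : ℝ) + 1) := by positivity
  constructor <;> linarith

/-- the limiting exponent of a row -/
noncomputable def lx (t : (PowerSeries ℂ)[X]) (n : ℕ) (p e : ℝ) : ℂ :=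
  e * (Complex.I * (al t n p : ℂ)) + e ^ 2 * (-(vv t n p : ℂ) / 2)

theorem norm_exp_lx (e : ℝ) {p : ℝ} (hv : 0 ≤ vv t n p) : ‖Complex.exp (lx t n p e)‖ ≤ 1 := by
  rw [Complex.norm_exp]
  have : (lx t n p e).re = -(e ^ 2 * vv t n p) / 2 := by
    unfold lx
    have e1 : (e : ℂ) * (Complex.I * (al t n p : ℂ)) + e ^ 2 * (-(vv t n p : ℂ) / 2) =
        ((-(e ^ 2 * vv t n p) / 2 : ℝ) : ℂ) + ((e * al t n p : ℝ) : ℂ) * Complex.I := by
      push_cast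
      ring
    rw [e1, Complex.add_re, Complex.ofReal_re, Complex.re_ofReal_mul, Complex.I_re]
    ring
  rw [this, Real.exp_le_one_iff]
  have : 0 ≤ e ^ 2 * vv t n p := by positivity
  linarith

theorem row_sum_le {p : ℝ} (h0 : 0 ≤ p) (h1 : p ≤ 1) {B : ℝ}
    (g : (Fin (2 * n + 1) → Bool) → ℂ) (hg : ∀ r, ‖g r‖ ≤ B) :
    ‖∑ r, ((rowW n p r : ℝ) : ℂ) * g r‖ ≤ B := by
  refine (norm_sum_le _ _).trans ?_
  calc ∑ r, ‖((rowW n p r : ℝ) : ℂ) * g r‖ ≤ ∑ r, rowW n p r * B := by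
        refine Finset.sum_le_sum fun r _ => ?_
        rw [norm_mul, Complex.norm_real, Real.norm_eq_abs, abs_of_nonneg (rowW_nonneg h0 h1 r)]
        exact mul_le_mul_of_nonneg_left (hg r) (rowW_nonneg h0 h1 r)
    _ = B := by rw [← Finset.sum_mul, sum_rowW, one_mul]

/-- one step -/
theorem one_step (hw : ∀ σ, PowerSeries.coeff 0 (w σ) = 1)
    (h : ∀ x : ℂ, (TL (2 * n) (PowerSeries.C om) (PowerSeries.C x) ez).vecMul w =
      (t.eval (PowerSeries.C x)) • w) : ∃ C : ℝ, 0 ≤ C ∧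
    (∀ e : ℝ, |e| ≤ 1 → ∀ σ, ‖We w e σ - 1‖ ≤ C * |e|) ∧
    (∀ e e' : ℝ, |e| ≤ 1 → |e'| ≤ 1 → ∀ σ, ‖We w e σ - We w e' σ‖ ≤ C * |e - e'|) ∧
    ∀ p : ℝ, 0 ≤ p → p ≤ 1 → ∀ e : ℝ, |e| ≤ 1 → ∀ σ,
      ‖∑ r, ((rowW n p r : ℝ) : ℂ) * (Complex.exp (e * (Complex.I * (dTc (2 * n) r σ : ℂ))) *
        We w e (Tc (2 * n) r σ)) - Complex.exp (lx t n p e) * We w e σ‖ ≤ C * |e| ^ 3 := by
  obtain ⟨B, hB⟩ : ∃ B : ℝ, ∀ σ, ‖PowerSeries.coeff 1 (w σ)‖ ≤ B ∧
      ‖PowerSeries.coeff 2 (w σ)‖ ≤ B := by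
    obtain ⟨B1, hB1⟩ := (Set.finite_range fun σ => ‖PowerSeries.coeff 1 (w σ)‖).bddAbove
    obtain ⟨B2, hB2⟩ := (Set.finite_range fun σ => ‖PowerSeries.coeff 2 (w σ)‖).bddAbove
    exact ⟨max B1 B2, fun σ => ⟨(hB1 ⟨σ, rfl⟩).trans (le_max_left _ _),
      (hB2 ⟨σ, rfl⟩).trans (le_max_right _ _)⟩⟩
  have hB0 : 0 ≤ B := (norm_nonneg _).trans (hB (start n)).1
  obtain ⟨D, hD⟩ : ∃ D : ℝ, ∀ q : (Fin (2 * n + 1) → Bool) × Pat (2 * n + 1),
      |(dTc (2 * n) q.1 q.2 : ℝ)| ≤ D := by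
    obtain ⟨B1, hB1⟩ := (Set.finite_range fun q : (Fin (2 * n + 1) → Bool) × Pat (2 * n + 1) =>
      |(dTc (2 * n) q.1 q.2 : ℝ)|).bddAbove
    exact ⟨B1, fun c => hB1 ⟨c, rfl⟩⟩
  have hD0 : 0 ≤ D := (abs_nonneg _).trans (hD (fun _ => true, start n))
  obtain ⟨K1, hK10, hK1⟩ := al_vv_bound hw h
  set K : ℝ := B + D + K1 with hK
  have hK0 : 0 ≤ K := by positivity
  obtain ⟨C, hC0, hC⟩ := exp_poly hK0
  have hne : ∀ e : ℝ, ‖(e : ℂ)‖ = |e| := fun e => by rw [Complex.norm_real, Real.norm_eq_abs]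
  refine ⟨2 * C + 3 * B, by positivity, ?_, ?_, ?_⟩
  · intro e he σ
    have he0 := abs_nonneg e
    have e1 : We w e σ - 1 = (e : ℂ) * (PowerSeries.coeff 1 (w σ) +
        e * PowerSeries.coeff 2 (w σ)) := by
      unfold We
      ring
    rw [e1, norm_mul, hne, mul_comm]
    apply mul_le_mul_of_nonneg_right _ he0
    refine (norm_add_le _ _).trans ?_
    rw [norm_mul, hne]
    have e2 : |e| * ‖PowerSeries.coeff 2 (w σ)‖ ≤ 1 * B :=
      mul_le_mul he (hB σ).2 (norm_nonneg _) zero_le_one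
    have := (hB σ).1
    linarith
  · intro e e' he he' σ
    have e1 : We w e σ - We w e' σ = ((e - e' : ℝ) : ℂ) * (PowerSeries.coeff 1 (w σ) +
        ((e + e' : ℝ) : ℂ) * PowerSeries.coeff 2 (w σ)) := by
      unfold We
      push_cast
      ring
    rw [e1, norm_mul, hne, mul_comm]
    apply mul_le_mul_of_nonneg_right _ (abs_nonneg _)
    refine (norm_add_le _ _).trans ?_
    rw [norm_mul, hne]
    have e3 : |e + e'| ≤ 2 := (abs_add_le _ _).trans (by linarith)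
    have e2 : |e + e'| * ‖PowerSeries.coeff 2 (w σ)‖ ≤ 2 * B :=
      mul_le_mul e3 (hB σ).2 (norm_nonneg _) (by norm_num)
    have := (hB σ).1
    linarith
  · intro p h0 h1 e he σ
    obtain ⟨r1, r2⟩ := row_coeffs hw h p σ
    obtain ⟨l1, l2⟩ := lam_coeffs hw h h0 h1
    rw [l1] at r1 r2
    rw [l2] at r2
    obtain ⟨k1, k2⟩ := hK1 p h0 h1
    -- the expansion of each term
    have hterm : ∀ r : Fin (2 * n + 1) → Bool,
        ‖Complex.exp (e * (Complex.I * (dTc (2 * n) r σ : ℂ))) * We w e (Tc (2 * n) r σ) -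
        (1 + e * (Complex.I * (dTc (2 * n) r σ : ℂ) + PowerSeries.coeff 1 (w (Tc (2 * n) r σ))) +
        e ^ 2 * (0 + (Complex.I * (dTc (2 * n) r σ : ℂ)) ^ 2 / 2 +
        Complex.I * (dTc (2 * n) r σ : ℂ) * PowerSeries.coeff 1 (w (Tc (2 * n) r σ)) +
        PowerSeries.coeff 2 (w (Tc (2 * n) r σ))))‖ ≤ C * |e| ^ 3 := by
      intro r
      have hd : ‖Complex.I * (dTc (2 * n) r σ : ℂ)‖ ≤ K := by
        rw [norm_mul, Complex.norm_I, one_mul]
        have := hD (r, σ)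
        rw [Complex.norm_intCast]
        linarith
      have := hC e (Complex.I * (dTc (2 * n) r σ : ℂ)) 0
        (PowerSeries.coeff 1 (w (Tc (2 * n) r σ))) (PowerSeries.coeff 2 (w (Tc (2 * n) r σ))) he hd
        (by rw [norm_zero]; exact hK0) ((hB _).1.trans (by rw [hK]; linarith))
        ((hB _).2.trans (by rw [hK]; linarith))
      rw [mul_zero, add_zero] at this
      exact this
    have hsum := row_sum_le h0 h1 _ hterm
    -- the expansion of the right side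
    have hR := hC e (Complex.I * (al t n p : ℂ)) (-(vv t n p : ℂ) / 2)
        (PowerSeries.coeff 1 (w σ)) (PowerSeries.coeff 2 (w σ)) he
        (by
          rw [norm_mul, Complex.norm_I, one_mul, hne]
          linarith)
        (by
          rw [norm_div, norm_neg, hne]
          have : ‖(2 : ℂ)‖ = 2 := by simp
          rw [this]
          have := abs_nonneg (vv t n p)
          linarith)
        ((hB _).1.trans (by rw [hK]; linarith)) ((hB _).2.trans (by rw [hK]; linarith))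
    have hsplit : ∑ r, ((rowW n p r : ℝ) : ℂ) *
        (Complex.exp (e * (Complex.I * (dTc (2 * n) r σ : ℂ))) * We w e (Tc (2 * n) r σ)) -
        Complex.exp (lx t n p e) * We w e σ =
        (∑ r, ((rowW n p r : ℝ) : ℂ) *
        (Complex.exp (e * (Complex.I * (dTc (2 * n) r σ : ℂ))) * We w e (Tc (2 * n) r σ) -
        (1 + e * (Complex.I * (dTc (2 * n) r σ : ℂ) + PowerSeries.coeff 1 (w (Tc (2 * n) r σ))) +
        e ^ 2 * (0 + (Complex.I * (dTc (2 * n) r σ : ℂ)) ^ 2 / 2 +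
        Complex.I * (dTc (2 * n) r σ : ℂ) * PowerSeries.coeff 1 (w (Tc (2 * n) r σ)) +
        PowerSeries.coeff 2 (w (Tc (2 * n) r σ)))))) -
        (Complex.exp (e * (Complex.I * (al t n p : ℂ)) + e ^ 2 * (-(vv t n p : ℂ) / 2)) *
          (1 + e * PowerSeries.coeff 1 (w σ) + e ^ 2 * PowerSeries.coeff 2 (w σ)) -
        (1 + e * (Complex.I * (al t n p : ℂ) + PowerSeries.coeff 1 (w σ)) +
          e ^ 2 * (-(vv t n p : ℂ) / 2 + (Complex.I * (al t n p : ℂ)) ^ 2 / 2 +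
          Complex.I * (al t n p : ℂ) * PowerSeries.coeff 1 (w σ) +
          PowerSeries.coeff 2 (w σ)))) := by
      have e1 : ∀ r : Fin (2 * n + 1) → Bool, ((rowW n p r : ℝ) : ℂ) *
        (Complex.exp (e * (Complex.I * (dTc (2 * n) r σ : ℂ))) * We w e (Tc (2 * n) r σ) -
        (1 + e * (Complex.I * (dTc (2 * n) r σ : ℂ) + PowerSeries.coeff 1 (w (Tc (2 * n) r σ))) +
        e ^ 2 * (0 + (Complex.I * (dTc (2 * n) r σ : ℂ)) ^ 2 / 2 +
        Complex.I * (dTc (2 * n) r σ : ℂ) * PowerSeries.coeff 1 (w (Tc (2 * n) r σ)) +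
        PowerSeries.coeff 2 (w (Tc (2 * n) r σ))))) =
        ((rowW n p r : ℝ) : ℂ) *
        (Complex.exp (e * (Complex.I * (dTc (2 * n) r σ : ℂ))) * We w e (Tc (2 * n) r σ)) -
        (((rowW n p r : ℝ) : ℂ) + e * (((rowW n p r : ℝ) : ℂ) *
          (Complex.I * (dTc (2 * n) r σ : ℂ) + PowerSeries.coeff 1 (w (Tc (2 * n) r σ)))) +
        e ^ 2 * (((rowW n p r : ℝ) : ℂ) * (0 + (Complex.I * (dTc (2 * n) r σ : ℂ)) ^ 2 / 2 +
        Complex.I * (dTc (2 * n) r σ : ℂ) * PowerSeries.coeff 1 (w (Tc (2 * n) r σ)) +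
        PowerSeries.coeff 2 (w (Tc (2 * n) r σ))))) := fun r => by ring
      have e2 : ∑ r, ((rowW n p r : ℝ) : ℂ) = 1 := by
        rw [← Complex.ofReal_sum, sum_rowW, Complex.ofReal_one]
      rw [Finset.sum_congr rfl fun r _ => e1 r, Finset.sum_sub_distrib, Finset.sum_add_distrib,
        Finset.sum_add_distrib, ← Finset.mul_sum, ← Finset.mul_sum, r1, r2, e2]
      unfold lx We
      ring
    rw [hsplit]
    refine (norm_sub_le _ _).trans ?_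
    have he3 : 0 ≤ |e| ^ 3 := by positivity
    nlinarith [mul_nonneg hB0 he3]

end

end Pool.Agent.Helper21.LK
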