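import Pool.Agent.Helper21.LK.Cf

/-!
# The telescoping argument
-/

namespace Pool.Agent.Helper21.LK

open H906K Pool.Agent.H974R3 Polynomial

section
variable {n : ℕ}

theorem trunc_self {M : ℕ} (c : Fin M → Fin (2 * n + 1) → Bool) : trunc c M = c := by
  funext t
  unfold trunc
  rw [dif_pos t.2]

theorem trunc_snoc {M : ℕ} (c : Fin M → Fin (2 * n + 1) → Bool) (r : Fin (2 * n + 1) → Bool)
    {s : ℕ} (hs : s ≤ M) :
    trunc (Fin.snoc (α := fun _ => Fin (2 * n + 1) → Bool) c r : Fin (M + 1) → _) s =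
      trunc c s := by
  funext t
  unfold trunc
  have h1 : (t : ℕ) < M := lt_of_lt_of_le t.2 hs
  rw [dif_pos h1, dif_pos (by omega : (t : ℕ) < M + 1)]
  exact Fin.snoc_castSucc (α := fun _ => Fin (2 * n + 1) → Bool) r c ⟨(t : ℕ), h1⟩

theorem lev_snoc {M : ℕ} (c : Fin M → Fin (2 * n + 1) → Bool) (r : Fin (2 * n + 1) → Bool)
    {s : ℕ} (hs : s ≤ M) :
    lev n (Fin.snoc (α := fun _ => Fin (2 * n + 1) → Bool) c r : Fin (M + 1) → _) s =
      lev n c s := by
  unfold lev
  rw [trunc_snoc c r hs]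

theorem lev_snoc_last {M : ℕ} (c : Fin M → Fin (2 * n + 1) → Bool)
    (r : Fin (2 * n + 1) → Bool) :
    lev n (Fin.snoc (α := fun _ => Fin (2 * n + 1) → Bool) c r : Fin (M + 1) → _) (M + 1) =
      lev n c M + dTc (2 * n) r (run (2 * n) M c (start n)).1 := by
  unfold lev
  rw [trunc_self, trunc_self, Xd_run, Xd_run, p2_run]

theorem wsum_snoc {M : ℕ} (e : ℕ → ℝ) (c : Fin M → Fin (2 * n + 1) → Bool)
    (r : Fin (2 * n + 1) → Bool) :
    wsum n e (Fin.snoc (α := fun _ => Fin (2 * n + 1) → Bool) c r : Fin (M + 1) → _) =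
      wsum n e c + e M * (dTc (2 * n) r (run (2 * n) M c (start n)).1 : ℝ) := by
  unfold wsum
  rw [Finset.sum_range_succ]
  congr 1
  · refine Finset.sum_congr rfl fun s hs => ?_
    rw [Finset.mem_range] at hs
    rw [lev_snoc c r (by omega), lev_snoc c r (by omega)]
  · rw [lev_snoc_last, lev_snoc c r le_rfl]
    push_cast
    ring

variable {w : Pat (2 * n + 1) → PowerSeries ℂ} {t : (PowerSeries ℂ)[X]}

theorem norm_cexp (x : ℝ) : ‖Complex.exp (Complex.I * (x : ℂ))‖ = 1 := by
  rw [mul_comm, Complex.norm_exp_ofReal_mul_I]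

theorem norm_exp_sum {p : ℕ → ℝ} (hv : ∀ s, 0 ≤ vv t n (p s)) (e : ℕ → ℝ) (M : ℕ) :
    ‖Complex.exp (∑ s ∈ Finset.range M, lx t n (p s) (e s))‖ ≤ 1 := by
  rw [Complex.exp_sum, norm_prod]
  exact Finset.prod_le_one (fun _ _ => norm_nonneg _) (fun s _ => norm_exp_lx (e s) (hv s))

theorem telescope (hw : ∀ σ, PowerSeries.coeff 0 (w σ) = 1)
    (h : ∀ x : ℂ, (TL (2 * n) (PowerSeries.C om) (PowerSeries.C x) ez).vecMul w =
      (t.eval (PowerSeries.C x)) • w) : ∃ C : ℝ, 0 ≤ C ∧
    (∀ e : ℝ, |e| ≤ 1 → ∀ σ, ‖We w e σ - 1‖ ≤ C * |e|) ∧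
    ∀ (p : ℕ → ℝ), (∀ s, 0 ≤ p s ∧ p s ≤ 1) → ∀ (e : ℕ → ℝ) (M : ℕ), (∀ s ≤ M, |e s| ≤ 1) →
      ‖∑ c, (weight n M p c : ℂ) * (Complex.exp (Complex.I * (wsum n e c : ℂ)) *
          We w (e M) (run (2 * n) M c (start n)).1) -
        Complex.exp (∑ s ∈ Finset.range M, lx t n (p s) (e s)) * We w (e 0) (start n)‖ ≤
      C * ∑ s ∈ Finset.range M, (|e s| ^ 3 + |e (s + 1) - e s|) := by
  obtain ⟨C, hC0, hC1, hC2, hC3⟩ := one_step hw h
  refine ⟨C, hC0, hC1, fun p hp e M => ?_⟩
  have hv : ∀ s, 0 ≤ vv t n (p s) := fun s => vv_nonneg hw h (hp s).1 (hp s).2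
  induction M with
  | zero =>
    intro _
    simp [wsum, weight, run]
  | succ M ih =>
    intro he
    have ih' := ih fun s hs => he s (by omega)
    rw [p2_snoc, Finset.sum_range_succ, Finset.sum_range_succ]
    have hinner : ∀ c : Fin M → Fin (2 * n + 1) → Bool,
        ‖∑ r, ((rowW n (p M) r : ℝ) : ℂ) * (Complex.exp (e M * (Complex.I *
          (dTc (2 * n) r (run (2 * n) M c (start n)).1 : ℂ))) *
          We w (e (M + 1)) (Tc (2 * n) r (run (2 * n) M c (start n)).1)) -
          Complex.exp (lx t n (p M) (e M)) * We w (e M) (run (2 * n) M c (start n)).1‖ ≤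
        C * (|e M| ^ 3 + |e (M + 1) - e M|) := by
      intro c
      set σ := (run (2 * n) M c (start n)).1 with hσ
      have s1 := hC3 (p M) (hp M).1 (hp M).2 (e M) (he M (by omega)) σ
      have s2 : ‖∑ r, ((rowW n (p M) r : ℝ) : ℂ) * (Complex.exp (e M * (Complex.I *
          (dTc (2 * n) r σ : ℂ))) * (We w (e (M + 1)) (Tc (2 * n) r σ) -
            We w (e M) (Tc (2 * n) r σ)))‖ ≤ C * |e (M + 1) - e M| := by
        apply row_sum_le (hp M).1 (hp M).2
        intro r
        rw [norm_mul]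
        have e1 : (e M : ℂ) * (Complex.I * (dTc (2 * n) r σ : ℂ)) =
            Complex.I * ((e M * (dTc (2 * n) r σ : ℝ) : ℝ) : ℂ) := by
          push_cast
          ring
        rw [e1, norm_cexp, one_mul]
        exact hC2 _ _ (he _ le_rfl) (he _ (by omega)) _
      have e2 : ∑ r, ((rowW n (p M) r : ℝ) : ℂ) * (Complex.exp (e M * (Complex.I *
          (dTc (2 * n) r σ : ℂ))) * We w (e (M + 1)) (Tc (2 * n) r σ)) -
          Complex.exp (lx t n (p M) (e M)) * We w (e M) σ =
          (∑ r, ((rowW n (p M) r : ℝ) : ℂ) * (Complex.exp (e M * (Complex.I *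
          (dTc (2 * n) r σ : ℂ))) * We w (e M) (Tc (2 * n) r σ)) -
          Complex.exp (lx t n (p M) (e M)) * We w (e M) σ) +
          ∑ r, ((rowW n (p M) r : ℝ) : ℂ) * (Complex.exp (e M * (Complex.I *
          (dTc (2 * n) r σ : ℂ))) * (We w (e (M + 1)) (Tc (2 * n) r σ) -
            We w (e M) (Tc (2 * n) r σ))) := by
        rw [sub_add_eq_add_sub, ← Finset.sum_add_distrib]
        congr 1
        refine Finset.sum_congr rfl fun r _ => ?_
        ring
      rw [e2]
      refine (norm_add_le _ _).trans ?_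
      linarith
    have hsum : ∑ c : Fin M → Fin (2 * n + 1) → Bool, ∑ r,
        ((weight n (M + 1) p (Fin.snoc (α := fun _ => Fin (2 * n + 1) → Bool) c r) : ℝ) : ℂ) *
        (Complex.exp (Complex.I * (wsum n e (Fin.snoc (α := fun _ => Fin (2 * n + 1) → Bool) c r :
          Fin (M + 1) → _) : ℂ)) *
          We w (e (M + 1)) (run (2 * n) (M + 1)
            (Fin.snoc (α := fun _ => Fin (2 * n + 1) → Bool) c r) (start n)).1) =
        ∑ c : Fin M → Fin (2 * n + 1) → Bool, ((weight n M p c : ℝ) : ℂ) *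
          (Complex.exp (Complex.I * (wsum n e c : ℂ)) *
          ∑ r, ((rowW n (p M) r : ℝ) : ℂ) * (Complex.exp (e M * (Complex.I *
          (dTc (2 * n) r (run (2 * n) M c (start n)).1 : ℂ))) *
          We w (e (M + 1)) (Tc (2 * n) r (run (2 * n) M c (start n)).1))) := by
      refine Finset.sum_congr rfl fun c _ => ?_
      rw [Finset.mul_sum, Finset.mul_sum]
      refine Finset.sum_congr rfl fun r _ => ?_
      rw [weight_snoc, wsum_snoc, p2_run]
      have e3 : Complex.I * ((wsum n e c + e M *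
          (dTc (2 * n) r (run (2 * n) M c (start n)).1 : ℝ) : ℝ) : ℂ) =
          Complex.I * (wsum n e c : ℂ) + e M * (Complex.I *
          (dTc (2 * n) r (run (2 * n) M c (start n)).1 : ℂ)) := by
        push_cast
        ring
      rw [e3, Complex.exp_add]
      push_cast
      ring
    rw [hsum, Complex.exp_add]
    have hsplit : ∑ c : Fin M → Fin (2 * n + 1) → Bool, ((weight n M p c : ℝ) : ℂ) *
          (Complex.exp (Complex.I * (wsum n e c : ℂ)) *
          ∑ r, ((rowW n (p M) r : ℝ) : ℂ) * (Complex.exp (e M * (Complex.I *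
          (dTc (2 * n) r (run (2 * n) M c (start n)).1 : ℂ))) *
          We w (e (M + 1)) (Tc (2 * n) r (run (2 * n) M c (start n)).1))) -
        Complex.exp (∑ s ∈ Finset.range M, lx t n (p s) (e s)) *
          Complex.exp (lx t n (p M) (e M)) * We w (e 0) (start n) =
        ∑ c : Fin M → Fin (2 * n + 1) → Bool, ((weight n M p c : ℝ) : ℂ) *
          (Complex.exp (Complex.I * (wsum n e c : ℂ)) *
          (∑ r, ((rowW n (p M) r : ℝ) : ℂ) * (Complex.exp (e M * (Complex.I *
          (dTc (2 * n) r (run (2 * n) M c (start n)).1 : ℂ))) *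
          We w (e (M + 1)) (Tc (2 * n) r (run (2 * n) M c (start n)).1)) -
          Complex.exp (lx t n (p M) (e M)) * We w (e M) (run (2 * n) M c (start n)).1)) +
        Complex.exp (lx t n (p M) (e M)) *
        (∑ c : Fin M → Fin (2 * n + 1) → Bool, ((weight n M p c : ℝ) : ℂ) *
          (Complex.exp (Complex.I * (wsum n e c : ℂ)) *
          We w (e M) (run (2 * n) M c (start n)).1) -
        Complex.exp (∑ s ∈ Finset.range M, lx t n (p s) (e s)) * We w (e 0) (start n)) := by
      rw [mul_sub, Finset.mul_sum, ← add_sub_assoc, ← Finset.sum_add_distrib]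
      congr 1
      · refine Finset.sum_congr rfl fun c _ => ?_
        ring
      · ring
    rw [hsplit]
    refine (norm_add_le _ _).trans ?_
    have n1 : ‖∑ c : Fin M → Fin (2 * n + 1) → Bool, ((weight n M p c : ℝ) : ℂ) *
          (Complex.exp (Complex.I * (wsum n e c : ℂ)) *
          (∑ r, ((rowW n (p M) r : ℝ) : ℂ) * (Complex.exp (e M * (Complex.I *
          (dTc (2 * n) r (run (2 * n) M c (start n)).1 : ℂ))) *
          We w (e (M + 1)) (Tc (2 * n) r (run (2 * n) M c (start n)).1)) -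
          Complex.exp (lx t n (p M) (e M)) * We w (e M) (run (2 * n) M c (start n)).1))‖ ≤
        C * (|e M| ^ 3 + |e (M + 1) - e M|) := by
      apply ex_bound hp
      intro c
      rw [norm_mul, norm_cexp, one_mul]
      exact hinner c
    have n2 := mul_le_mul (norm_exp_lx (t := t) (n := n) (e M) (hv M)) ih' (norm_nonneg _)
      zero_le_one
    rw [← norm_mul, one_mul] at n2
    rw [mul_add]
    linarith

/-- the main estimate of the characteristic functional -/
theorem cf_bound (hw : ∀ σ, PowerSeries.coeff 0 (w σ) = 1)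
    (h : ∀ x : ℂ, (TL (2 * n) (PowerSeries.C om) (PowerSeries.C x) ez).vecMul w =
      (t.eval (PowerSeries.C x)) • w) : ∃ C : ℝ, 0 ≤ C ∧
    ∀ (p : ℕ → ℝ), (∀ s, 0 ≤ p s ∧ p s ≤ 1) → ∀ (e : ℕ → ℝ) (M : ℕ),
      ‖cf n M p (wsum n e) - Complex.exp (∑ s ∈ Finset.range M, lx t n (p s) (e s))‖ ≤
      C * (|e 0| + ∑ s ∈ Finset.range M, (|e s| ^ 3 + |e (s + 1) - e s|)) := by
  obtain ⟨C, hC0, hC1, hC2⟩ := telescope hw h
  refine ⟨2 * C + 2, by positivity, fun p hp e M => ?_⟩
  have hv : ∀ s, 0 ≤ vv t n (p s) := fun s => vv_nonneg hw h (hp s).1 (hp s).2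
  have hTV : ∀ s ≤ M, |e s| ≤ |e 0| + ∑ s ∈ Finset.range M, (|e s| ^ 3 + |e (s + 1) - e s|) := by
    intro s hs
    induction s with
    | zero =>
      have : 0 ≤ ∑ s ∈ Finset.range M, (|e s| ^ 3 + |e (s + 1) - e s|) :=
        Finset.sum_nonneg fun s _ => by positivity
      linarith
    | succ k _ =>
      have h1 : ∀ j : ℕ, |e j| ≤ |e 0| + ∑ s ∈ Finset.range j, (|e s| ^ 3 + |e (s + 1) - e s|) := by
        intro j
        induction j with
        | zero => simp
        | succ j ih =>
          rw [Finset.sum_range_succ]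
          have h2 : |e (j + 1)| ≤ |e j| + |e (j + 1) - e j| := by
            have h3 := abs_add_le (e j) (e (j + 1) - e j)
            rwa [add_sub_cancel] at h3
          have h4 : 0 ≤ |e j| ^ 3 := by positivity
          linarith
      refine (h1 (k + 1)).trans (add_le_add le_rfl ?_)
      exact Finset.sum_le_sum_of_subset_of_nonneg (Finset.range_subset_range.2 hs)
        fun s _ _ => by positivity
  set R : ℝ := |e 0| + ∑ s ∈ Finset.range M, (|e s| ^ 3 + |e (s + 1) - e s|) with hR
  have hR0 : 0 ≤ R := (abs_nonneg _).trans (hTV 0 (by omega))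
  have hcf : ‖cf n M p (wsum n e)‖ ≤ 1 := by
    unfold cf
    apply ex_bound hp
    intro c
    rw [norm_cexp]
  have hex := norm_exp_sum hv e M
  by_cases hbig : ∀ s ≤ M, |e s| ≤ 1
  · have h1 := hC2 p hp e M hbig
    have h2 : ‖∑ c, (weight n M p c : ℂ) * (Complex.exp (Complex.I * (wsum n e c : ℂ)) *
          (We w (e M) (run (2 * n) M c (start n)).1 - 1))‖ ≤ C * |e M| := by
      apply ex_bound hp
      intro c
      rw [norm_mul, norm_cexp, one_mul]
      exact hC1 _ (hbig M le_rfl) _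
    have h3 : ‖Complex.exp (∑ s ∈ Finset.range M, lx t n (p s) (e s)) *
        (We w (e 0) (start n) - 1)‖ ≤ C * |e 0| := by
      rw [norm_mul]
      calc _ ≤ 1 * (C * |e 0|) :=
            mul_le_mul hex (hC1 _ (hbig 0 (by omega)) _) (norm_nonneg _) zero_le_one
        _ = _ := one_mul _
    have hsplit : cf n M p (wsum n e) -
        Complex.exp (∑ s ∈ Finset.range M, lx t n (p s) (e s)) =
        (∑ c, (weight n M p c : ℂ) * (Complex.exp (Complex.I * (wsum n e c : ℂ)) *
          We w (e M) (run (2 * n) M c (start n)).1) -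
        Complex.exp (∑ s ∈ Finset.range M, lx t n (p s) (e s)) * We w (e 0) (start n)) -
        (∑ c, (weight n M p c : ℂ) * (Complex.exp (Complex.I * (wsum n e c : ℂ)) *
          (We w (e M) (run (2 * n) M c (start n)).1 - 1))) +
        Complex.exp (∑ s ∈ Finset.range M, lx t n (p s) (e s)) *
        (We w (e 0) (start n) - 1) := by
      unfold cf
      have e1 : ∑ c, (weight n M p c : ℂ) * (Complex.exp (Complex.I * (wsum n e c : ℂ)) *
          (We w (e M) (run (2 * n) M c (start n)).1 - 1)) =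
          ∑ c, (weight n M p c : ℂ) * (Complex.exp (Complex.I * (wsum n e c : ℂ)) *
          We w (e M) (run (2 * n) M c (start n)).1) -
          ∑ c, (weight n M p c : ℂ) * Complex.exp (Complex.I * (wsum n e c : ℂ)) := by
        rw [← Finset.sum_sub_distrib]
        exact Finset.sum_congr rfl fun c _ => by ring
      rw [e1]
      ring
    rw [hsplit]
    refine (norm_add_le _ _).trans ?_
    have h4 := norm_sub_le (∑ c, (weight n M p c : ℂ) *
          (Complex.exp (Complex.I * (wsum n e c : ℂ)) *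
          We w (e M) (run (2 * n) M c (start n)).1) -
        Complex.exp (∑ s ∈ Finset.range M, lx t n (p s) (e s)) * We w (e 0) (start n))
        (∑ c, (weight n M p c : ℂ) * (Complex.exp (Complex.I * (wsum n e c : ℂ)) *
          (We w (e M) (run (2 * n) M c (start n)).1 - 1)))
    have h5 : C * |e M| ≤ C * R := mul_le_mul_of_nonneg_left (hTV M le_rfl) hC0
    have h6 : C * |e 0| + C * ∑ s ∈ Finset.range M, (|e s| ^ 3 + |e (s + 1) - e s|) = C * R := by
      rw [hR]
      ring
    linarith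
  · push Not at hbig
    obtain ⟨s, hs1, hs2⟩ := hbig
    have h1 := hTV s hs1
    have h2 : 1 ≤ R := by linarith
    refine (norm_sub_le _ _).trans ?_
    nlinarith

end

end Pool.Agent.Helper21.LK
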