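import Pool.Agent.Helper21.LK.Refl

/-!
# The coefficients of the eigenvalue
-/

namespace Pool.Agent.Helper21.LK

open H906K Pool.Agent.H974R3 Polynomial

/-- the first two Taylor coefficients of the leading eigenvalue satisfy the perturbative system
(after the library proof of `H906K.pert_of_tspec`, which states this at `x = 1` only) -/
theorem pert_tspec (n : ℕ) (t : (PowerSeries ℂ)[X]) (h : TSpec n t) :
    Pert n (C (1 / (2 * n + 1 : ℂ)) * e4_cf 1 t) (C (1 / (2 * n + 1 : ℂ) ^ 2) * e4_cf 2 t) := by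
  have hN : ((2 * n + 1 : ℂ)) ≠ 0 := by
    exact_mod_cast (by omega : 2 * n + 1 ≠ 0)
  set N : ℂ := 2 * n + 1 with hNdef
  have hev0 : ∀ x : ℂ, PowerSeries.coeff 0 (t.eval (PowerSeries.C x)) = (1 + x) ^ (2 * n + 1) := by
    intro x
    rw [e4_eval, e4_cf0 h]
    simp
  have hfac : ∀ x : ℂ, (1 + x ^ 3) ^ (2 * n + 1)
      = (1 + x) ^ (2 * n + 1) * (1 + om * x) ^ (2 * n + 1) * (1 + om ^ 2 * x) ^ (2 * n + 1) := by
    intro x
    rw [← mul_pow, ← mul_pow, e4_fac]
  have hI2 : Complex.I ^ 2 = -1 := Complex.I_sq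
  have hom := e4_om1
  have homI := e4_omI
  obtain ⟨Q, hQ⟩ := e4_div h
  · refine ⟨?_, ?_, ?_, ?_, ?_, ?_, ?_, ?_, ?_, ?_⟩
    · exact (natDegree_C_mul_le _ _).trans (e4_cf_deg 1 t h.deg)
    · exact (natDegree_C_mul_le _ _).trans (e4_cf_deg 2 t h.deg)
    · rw [coeff_C_mul, e4_cf_coeff, h.bot, map_sub, neg_mul, map_neg, PowerSeries.coeff_C_mul,
        PowerSeries.coeff_C_mul, e4_expI, e4_expI]
      simp only [← hNdef]
      field_simp
      simp
      linear_combination Complex.I * homI + (Real.sqrt 3 : ℂ) * hI2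
    · rw [coeff_C_mul, e4_cf_coeff, h.top, map_sub, neg_mul, map_neg, PowerSeries.coeff_C_mul,
        PowerSeries.coeff_C_mul, e4_expI, e4_expI]
      simp only [← hNdef]
      field_simp
      simp
      linear_combination -Complex.I * homI - (Real.sqrt 3 : ℂ) * hI2
    · rw [coeff_C_mul, e4_cf_coeff, h.bot, map_sub, neg_mul, map_neg, PowerSeries.coeff_C_mul,
        PowerSeries.coeff_C_mul, e4_expI, e4_expI]
      simp only [← hNdef]
      field_simp
      simp
      linear_combination -hom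
    · rw [coeff_C_mul, e4_cf_coeff, h.top, map_sub, neg_mul, map_neg, PowerSeries.coeff_C_mul,
        PowerSeries.coeff_C_mul, e4_expI, e4_expI]
      simp only [← hNdef]
      field_simp
      simp
      linear_combination -hom
    · intro x
      have h2 := congrArg (PowerSeries.coeff 2) (e4_fus h x)
      simp only [e4_mul2, e4_mul1, e4_mul0, map_sub, map_add, PowerSeries.coeff_C_mul, hev0,
        e4_expI, e4_eval, mul_pow, hfac x] at h2
      simp only [eval_mul, eval_C, hfac x]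
      simp only [← hNdef, Nat.factorial] at h2
      push_cast at h2
      field_simp
      linear_combination h2 - 9 * N ^ 2 * ((1 + x) ^ (2 * n + 1) * (1 + om * x) ^ (2 * n + 1)
        * (1 + om ^ 2 * x) ^ (2 * n + 1)) * hI2
    · intro x
      have h3 := congrArg (PowerSeries.coeff 3) (e4_fus h x)
      simp only [e4_mul3, e4_mul2, e4_mul1, e4_mul0, map_sub, map_add, PowerSeries.coeff_C_mul, hev0,
        e4_expI, e4_eval, mul_pow, hfac x] at h3
      simp only [eval_mul, eval_C, hfac x]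
      simp only [← hNdef, Nat.factorial] at h3
      push_cast at h3
      field_simp
      linear_combination h3
    · refine ⟨C (1 / N) * e4_cf 1 Q, fun x => ?_⟩
      have h1 := congrArg (PowerSeries.coeff 1) (hQ x)
      simp only [e4_mul1, map_add, PowerSeries.coeff_C_mul, hev0, e4_eval, mul_pow] at h1
      simp only [eval_mul, eval_C]
      have hz : PowerSeries.coeff 1 (PowerSeries.C ((1 + om * x) ^ (2 * n + 1)
          * (1 + om ^ 2 * x) ^ (2 * n + 1))) = 0 := by
        rw [PowerSeries.coeff_C]; simp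
      rw [hz] at h1
      field_simp
      linear_combination h1
    · refine ⟨C (1 / N ^ 2) * e4_cf 2 Q, fun x => ?_⟩
      have h1 := congrArg (PowerSeries.coeff 2) (hQ x)
      simp only [e4_mul2, map_add, PowerSeries.coeff_C_mul, hev0, e4_eval, mul_pow] at h1
      simp only [eval_mul, eval_C]
      have hz : PowerSeries.coeff 2 (PowerSeries.C ((1 + om * x) ^ (2 * n + 1)
          * (1 + om ^ 2 * x) ^ (2 * n + 1))) = 0 := by
        rw [PowerSeries.coeff_C]; simp
      rw [hz] at h1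
      field_simp
      linear_combination h1

theorem xp_refl (p : ℝ) : xp (1 - p) = (starRingEnd ℂ) (xp p) := by
  have h1 := den_ne p
  have h2 := den_ne (1 - p)
  have h3 : (p : ℂ) + om ≠ 0 := by
    intro h
    have h1 := congrArg Complex.im h
    simp [om] at h1
  have e1 : (1 : ℂ) + om = - om ^ 2 := by linear_combination e4_om1
  have e2 : (1 : ℂ) + om ^ 2 = - om := by linear_combination e4_om1
  unfold xp at *
  rw [map_div₀, map_neg, map_add, map_add, g1om, g1om2, Complex.conj_ofReal]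
  push_cast at h2 ⊢
  rw [div_eq_div_iff h2 h3]
  linear_combination -((p : ℂ) + om) * e1 + ((p : ℂ) + om ^ 2) * e2

section
variable {n : ℕ} {w : Pat (2 * n + 1) → PowerSeries ℂ} {t : (PowerSeries ℂ)[X]}

/-- the value of the quotient at the spectral parameter -/
noncomputable def Fx (n : ℕ) (s : ℝ[X]) (x : ℂ) : ℂ :=
  (s.map (algebraMap ℝ ℂ)).eval x / (1 + x) ^ (2 * n + 1)

theorem lam_coeff (k : ℕ) (p : ℝ) : PowerSeries.coeff k (Lam t n p) =
    (e4_cf k t).eval (xp p) / (1 + xp p) ^ (2 * n + 1) := by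
  unfold Lam
  rw [PowerSeries.coeff_C_mul, e4_eval]
  ring

theorem coef (hw : ∀ σ, PowerSeries.coeff 0 (w σ) = 1)
    (h : ∀ x : ℂ, (TL (2 * n) (PowerSeries.C om) (PowerSeries.C x) ez).vecMul w =
      (t.eval (PowerSeries.C x)) • w) (hsp : TSpec n t) :
    ∃ s1 s2 V1 V2 : ℝ[X], RPert n s1 s2 V1 V2 ∧ ∀ p : ℝ, 0 ≤ p → p ≤ 1 →
      (Fx n s1 (xp p)).re = 0 ∧ al t n p = (2 * n + 1) * (Fx n s1 (xp p)).im ∧
      vv t n p = -2 * (2 * n + 1) ^ 2 * (Fx n s2 (xp p)).re - (al t n p) ^ 2 := by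
  obtain ⟨s1, s2, V1, V2, hR, hs1, hs2⟩ := rpert_of_pert n _ _ (pert_tspec n t hsp)
  have hN : ((2 * n + 1 : ℂ)) ≠ 0 := by
    have : ((2 * n + 1 : ℕ) : ℂ) ≠ 0 := Nat.cast_ne_zero.2 (by omega)
    push_cast at this
    exact this
  set t2 : ℂ[X] := C (1 / (2 * n + 1 : ℂ) ^ 2) * e4_cf 2 t with ht2
  have hs2' : s2 = g1re t2 := by
    ext k
    rw [hs2, g1re_coeff]
  refine ⟨s1, s2, V1, V2, hR, fun p h0 h1 => ?_⟩
  have hl1 : ∀ q : ℝ, PowerSeries.coeff 1 (Lam t n q) =
      ((2 * (n : ℝ) + 1 : ℝ) : ℂ) * Fx n s1 (xp q) := by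
    intro q
    rw [lam_coeff]
    have e1 : (e4_cf 1 t).eval (xp q) = (2 * n + 1 : ℂ) *
        (s1.map (algebraMap ℝ ℂ)).eval (xp q) := by
      rw [← hs1, eval_mul, eval_C]
      field_simp
    rw [e1, mul_div_assoc]
    unfold Fx
    push_cast
    rfl
  have hal : ∀ q : ℝ, al t n q = (2 * n + 1) * (Fx n s1 (xp q)).im := by
    intro q
    unfold al
    rw [hl1, Complex.im_ofReal_mul]
  have hre0 : (Fx n s1 (xp p)).re = 0 := by
    have h2 := re_zero hw h h0 h1
    rw [hl1, Complex.re_ofReal_mul] at h2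
    rcases mul_eq_zero.1 h2 with h3 | h3
    · have : (0 : ℝ) < 2 * (n : ℝ) + 1 := by positivity
      linarith
    · exact h3
  refine ⟨hre0, hal p, ?_⟩
  have hv : ∀ q : ℝ, vv t n q = -2 * (2 * n + 1) ^ 2 *
      (t2.eval (xp q) / (1 + xp q) ^ (2 * n + 1)).re - al t n q ^ 2 := by
    intro q
    unfold vv
    rw [lam_coeff]
    have e1 : (e4_cf 2 t).eval (xp q) = (2 * n + 1 : ℂ) ^ 2 * t2.eval (xp q) := by
      rw [ht2, eval_mul, eval_C]
      field_simp
    rw [e1, mul_div_assoc]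
    have e2 : (2 * (n : ℂ) + 1) ^ 2 = (((2 * (n : ℝ) + 1) ^ 2 : ℝ) : ℂ) := by push_cast; ring
    rw [e2, Complex.re_ofReal_mul]
    ring
  obtain ⟨r1, r2⟩ := al_refl hw h h0 h1
  have hv1 := hv p
  have hv2 := hv (1 - p)
  rw [r1, r2, neg_sq] at hv2
  have e3 : (t2.eval (xp (1 - p)) / (1 + xp (1 - p)) ^ (2 * n + 1)).re =
      ((starRingEnd ℂ) (t2.eval ((starRingEnd ℂ) (xp p))) / (1 + xp p) ^ (2 * n + 1)).re := by
    rw [xp_refl, ← Complex.conj_re]
    rw [map_div₀, map_pow, map_add, map_one, Complex.conj_conj]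
  have e4 : Fx n s2 (xp p) = (1 / 2) * (t2.eval (xp p) / (1 + xp p) ^ (2 * n + 1) +
      (starRingEnd ℂ) (t2.eval ((starRingEnd ℂ) (xp p))) / (1 + xp p) ^ (2 * n + 1)) := by
    unfold Fx
    rw [hs2', g1re_eval]
    ring
  have e5 : (Fx n s2 (xp p)).re = (1 / 2) * ((t2.eval (xp p) / (1 + xp p) ^ (2 * n + 1)).re +
      (t2.eval (xp (1 - p)) / (1 + xp (1 - p)) ^ (2 * n + 1)).re) := by
    rw [e4, e3, ← Complex.add_re]
    have : (1 / 2 : ℂ) = ((1 / 2 : ℝ) : ℂ) := by push_cast; ring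
    rw [this, Complex.re_ofReal_mul]
  rw [e5]
  linarith

end

end Pool.Agent.Helper21.LK
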