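import Pool.Graph.R_seed8.H906R3.K6.Model

/-!
# The interface in a layered environment
-/

namespace Pool.Agent.Helper21.LK

open H906K

/-- the weight of the configuration `c` of `M` rows of the cylinder of circumference `2n+1`: the
tiles are independent, and a tile of the row `t` is in the state `true` with probability `p t` -/
noncomputable def weight (n M : ℕ) (p : ℕ → ℝ) (c : Fin M → Fin (2 * n + 1) → Bool) : ℝ :=
  ∏ t : Fin M, ∏ j : Fin (2 * n + 1), if c t j = true then p t else 1 - p t

/-- expectation in the layered environment `p` -/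
noncomputable def avg (n M : ℕ) (p : ℕ → ℝ) (f : (Fin M → Fin (2 * n + 1) → Bool) → ℝ) : ℝ :=
  ∑ c, weight n M p c * f c

/-- mean displacement of the interface -/
noncomputable def meanX (n M : ℕ) (p : ℕ → ℝ) : ℝ := avg n M p (fun c => (Xd n M c : ℝ))

/-- variance of the displacement of the interface -/
noncomputable def varX (n M : ℕ) (p : ℕ → ℝ) : ℝ :=
  avg n M p (fun c => (Xd n M c : ℝ) ^ 2) - meanX n M p ^ 2

/-- the first `s` rows of a configuration -/
def trunc {n M : ℕ} (c : Fin M → Fin (2 * n + 1) → Bool) (s : ℕ) :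
    Fin s → Fin (2 * n + 1) → Bool :=
  fun t => if h : (t : ℕ) < M then c ⟨t, h⟩ else fun _ => false

/-- the displacement of the interface of the first `s` rows -/
noncomputable def lev (n : ℕ) {M : ℕ} (c : Fin M → Fin (2 * n + 1) → Bool) (s : ℕ) : ℤ :=
  Xd n s (trunc c s)

/-- the weighted sum `∑ e s (X_{s+1} - X_s)` of the increments of the displacement -/
noncomputable def wsum (n : ℕ) {M : ℕ} (e : ℕ → ℝ) (c : Fin M → Fin (2 * n + 1) → Bool) : ℝ :=
  ∑ s ∈ Finset.range M, e s * ((lev n c (s + 1) : ℝ) - (lev n c s : ℝ))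

/-- characteristic function of a real function of the configuration in the environment `p` -/
noncomputable def cf (n M : ℕ) (p : ℕ → ℝ) (f : (Fin M → Fin (2 * n + 1) → Bool) → ℝ) : ℂ :=
  ∑ c, (weight n M p c : ℂ) * Complex.exp (Complex.I * (f c : ℂ))

/-- probability of the state `true` for a rhombus with the angle `θ`, in the isoradial embedding of
critical bond percolation (rows of height `sin θ`; `θ = π/2` is the square lattice at `1/2`) -/
noncomputable def bias (θ : ℝ) : ℝ :=
  Real.sin ((Real.pi - θ) / 3) / (Real.sin (θ / 3) + Real.sin ((Real.pi - θ) / 3))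

/-- `N H / 2π` for the cylinder of circumference `N = 2n+1` and of isoradial height
`H = ∑ sin θ t` -/
noncomputable def clock (n M : ℕ) (θ : ℕ → ℝ) : ℝ :=
  (2 * n + 1) / (2 * Real.pi) * ∑ t ∈ Finset.range M, Real.sin (θ t)

end Pool.Agent.Helper21.LK
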