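import Pool.Graph.R_seed8.H906R3.K6.A9

/-!
# The first-order sum rule
-/

namespace Pool.Agent.Helper21.LK

open H906K MeasureTheory Filter Topology Set

theorem arctan_lim : Real.arctan (Real.sqrt 3 / 3) = Real.pi / 6 := by
  have h : Real.sqrt 3 / 3 = Real.tan (Real.pi / 6) := by
    rw [Real.tan_pi_div_six]
    have h3 : Real.sqrt 3 * Real.sqrt 3 = 3 := Real.mul_self_sqrt (by norm_num)
    have h0 : Real.sqrt 3 ≠ 0 := by positivity
    field_simp
    linarith
  rw [h, Real.arctan_tan]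
  · have := Real.pi_pos
    linarith
  · have := Real.pi_pos
    linarith

theorem arctan_le_pos {x : ℝ} (hx : 0 ≤ x) : Real.arctan x ≤ x := by
  rcases hx.eq_or_lt with h | h
  · rw [← h, Real.arctan_zero]
  · have h1 := Real.lt_tan (x := Real.arctan x) (Real.arctan_pos.2 h) (Real.arctan_lt_pi_div_two x)
    rw [Real.tan_arctan] at h1
    exact h1.le

theorem abs_arctan_le (x : ℝ) : |Real.arctan x| ≤ |x| := by
  rcases le_total 0 x with h | h
  · have h2 : 0 ≤ Real.arctan x := by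
      rw [← Real.arctan_zero]
      exact Real.arctan_le_arctan_iff.2 h
    rw [abs_of_nonneg h, abs_of_nonneg h2]
    exact arctan_le_pos h
  · have h1 := arctan_le_pos (x := -x) (by linarith)
    rw [Real.arctan_neg] at h1
    rw [abs_of_nonpos h, abs_of_nonpos (Real.arctan_le_zero.2 h)]
    exact h1

theorem first_identity {N : ℕ} (hN : 2 ≤ N) {X Y B : ℝ → ℝ} (h : Sys N X Y B) :
    IntegrableOn (fun l => A1 N X l * (3 / 2 * N / Real.sinh (3 * l / 2))) (Set.Ioi 0) ∧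
    2 * ∫ l in Set.Ioi (0 : ℝ), A1 N X l * (3 / 2 * N / Real.sinh (3 * l / 2))
      = 2 * Real.pi + 4 * X 0 - 12 * Real.arctan (X 0 / 3) - X 0 * G0 X 0
        - Del (A1 N X) (G0 X) := by
  have hN1 : 1 ≤ N := by omega
  obtain ⟨bX, bY, bB, bA1, bA2, bG1, bG0⟩ := sys_bounds hN1 h
  obtain ⟨nG0, nG1, nbe, nA1, nA2⟩ := sys_nice hN1 h
  have bT : ∀ l, |Real.tanh (3 * l / 4)| ^ N ≤ 1 := fun l =>
    pow_le_one₀ (abs_nonneg _) (a7_tanh_abs_le l)
  have hsq3 : Real.sqrt 3 ≤ 2 := by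
    rw [show (2:ℝ) = Real.sqrt 4 by
      rw [show (4:ℝ) = 2 ^ 2 by norm_num, Real.sqrt_sq (by norm_num)]]
    exact Real.sqrt_le_sqrt (by norm_num)
  have bA1' : ∀ l, |A1 N X l| ≤ 2 * Real.sqrt 3 := fun l => (bA1 l).trans (by
    have := mul_le_mul_of_nonneg_left (bT l) (show 0 ≤ 2 * Real.sqrt 3 by positivity)
    linarith)
  have bG0' : ∀ l, |G0 X l| ≤ 3 := fun l => by
    rw [abs_of_nonneg (bG0 l).1]
    exact (bG0 l).2
  -- convolutions
  have eX : X = fun l => ∫ u : ℝ, kk (l - u) * A1 N X u := funext h.eqX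
  have ebe : be0 X = fun l => ∫ u : ℝ, kk (l - u) * G0 X u := rfl
  have dX : ∀ l, deriv X l = ∫ u : ℝ, kk (l - u) * deriv (A1 N X) u := fun l => by
    conv_lhs => rw [eX]
    exact (kk_conv_nice (A1 N X) _ nA1 bA1').2 l
  have dbe : ∀ l, deriv (be0 X) l = ∫ u : ℝ, kk (l - u) * deriv (G0 X) u := fun l => by
    conv_lhs => rw [ebe]
    exact (kk_conv_nice (G0 X) _ nG0 bG0').2 l
  have bbe : ∀ l, |be0 X l| ≤ 3 / 2 := fun l =>
    kk_conv_le (G0 X) 3 nG0.1.continuous bG0' l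
  -- continuity
  have cX := h.niceX.1.continuous
  have cG0 := nG0.1.continuous
  have cbe := nbe.1.continuous
  have cA1 := nA1.1.continuous
  have hDel : Del (A1 N X) (G0 X) =
      (∫ l in Set.Ioi (0 : ℝ), (A1 N X l * deriv (be0 X) l - deriv (A1 N X) l * be0 X l))
      - ∫ l in Set.Ioi (0 : ℝ), (X l * deriv (G0 X) l - deriv X l * G0 X l) := by
    unfold Del
    congr 1
    · apply integral_congr_ae
      refine ae_of_all _ fun l => ?_
      simp only
      rw [dbe]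
      rfl
    · apply integral_congr_ae
      refine ae_of_all _ fun l => ?_
      simp only
      rw [dX, ← h.eqX]
  -- integrability
  have i3 : IntegrableOn (fun l => A1 N X l * deriv (be0 X) l - deriv (A1 N X) l * be0 X l)
      (Set.Ioi 0) :=
    ((a7_int_mul cA1 bA1' nbe.2.2).sub (a7_int_mul' cbe bbe nA1.2.2)).integrableOn
  have i4 : IntegrableOn (fun l => X l * deriv (G0 X) l - deriv X l * G0 X l) (Set.Ioi 0) :=
    ((a7_int_mul cX bX nG0.2.2).sub (a7_int_mul' cG0 bG0' h.niceX.2.2)).integrableOn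
  have i5 : IntegrableOn (fun l => A1 N X l * (3 / 2 * N / Real.sinh (3 * l / 2))) (Set.Ioi 0) :=
    a7_bound_int hN cA1 (fun l => (bA1 l).trans (by
      have : 0 ≤ |Real.tanh (3 * l / 4)| ^ N := by positivity
      nlinarith))
  refine ⟨i5, ?_⟩
  -- limits
  have lG0 : Tendsto (G0 X) atTop (𝓝 (Real.log 12)) := by
    have h1 : Tendsto (fun l => 9 + X l ^ 2) atTop (𝓝 (9 + Real.sqrt 3 ^ 2)) :=
      (h.topX.pow 2).const_add 9
    have h2 : (9 : ℝ) + Real.sqrt 3 ^ 2 = 12 := by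
      rw [Real.sq_sqrt (by norm_num)]
      norm_num
    rw [h2] at h1
    exact h1.log (by norm_num)
  have lbe : Tendsto (be0 X) atTop (𝓝 (Real.log 12 / 2)) :=
    kk_conv_top (G0 X) 3 _ cG0 bG0' lG0
  have lA1 : Tendsto (A1 N X) atTop (𝓝 (2 * Real.sqrt 3)) := by
    have h1 : Tendsto (fun l => Real.tanh (3 * l / 4) ^ N * Real.exp (be0 X l)) atTop
        (𝓝 (1 ^ N * Real.exp (Real.log 12 / 2))) :=
      (a7_tendsto_tanh.pow N).mul ((Real.continuous_exp.tendsto _).comp lbe)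
    have h2 : (1 : ℝ) ^ N * Real.exp (Real.log 12 / 2) = 2 * Real.sqrt 3 := by
      rw [one_pow, one_mul]
      have h3 : Real.exp (Real.log 12 / 2) = Real.sqrt 12 := by
        rw [Real.sqrt_eq_rpow, Real.rpow_def_of_pos (by norm_num)]
        congr 1
        ring
      rw [h3, show (12 : ℝ) = 2 ^ 2 * 3 by norm_num, Real.sqrt_mul (by norm_num),
        Real.sqrt_sq (by norm_num)]
    rw [h2] at h1
    exact h1
  -- derivatives
  have hbeat : ∀ l, HasDerivAt (be0 X) (deriv (be0 X) l) l := fun l => (nbe.1 l).hasDerivAt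
  have hXat : ∀ l, HasDerivAt X (deriv X l) l := fun l => (h.niceX.1 l).hasDerivAt
  have hG0at : ∀ l, HasDerivAt (G0 X) (deriv (G0 X) l) l := fun l => (nG0.1 l).hasDerivAt
  have hA1at : ∀ l, HasDerivAt (A1 N X) (deriv (A1 N X) l) l := fun l => (nA1.1 l).hasDerivAt
  have dG0 : ∀ l, deriv (G0 X) l = 2 * X l * deriv X l / (9 + X l ^ 2) := fun l => by
    have h1 : HasDerivAt (fun l => 9 + X l ^ 2) (2 * X l * deriv X l) l := by
      have := ((hXat l).fun_pow 2).const_add 9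
      refine this.congr_deriv ?_
      simp
    have h2 : HasDerivAt (G0 X) (2 * X l * deriv X l / (9 + X l ^ 2)) l :=
      h1.log (by positivity)
    exact h2.deriv
  have dA1 : ∀ l, 0 < l → deriv (A1 N X) l =
      A1 N X l * (3 / 2 * N / Real.sinh (3 * l / 2) + deriv (be0 X) l) := fun l hl => by
    have h1 : HasDerivAt (fun l => Real.tanh (3 * l / 4) ^ N * Real.exp (be0 X l))
        (Real.tanh (3 * l / 4) ^ N * (3 / 2 * N / Real.sinh (3 * l / 2)) * Real.exp (be0 X l)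
          + Real.tanh (3 * l / 4) ^ N * (Real.exp (be0 X l) * deriv (be0 X) l)) l :=
      (a7_pow_deriv N hN1 l hl).mul (hbeat l).exp
    have h2 : HasDerivAt (A1 N X)
        (A1 N X l * (3 / 2 * N / Real.sinh (3 * l / 2) + deriv (be0 X) l)) l := by
      refine h1.congr_deriv ?_
      unfold A1
      ring
    exact h2.deriv
  have I1 : ∫ l in Set.Ioi (0 : ℝ),
      ((A1 N X l * deriv (be0 X) l - deriv (A1 N X) l * be0 X l)
      + 2 * (A1 N X l * (3 / 2 * N / Real.sinh (3 * l / 2)))) =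
      (2 * (2 * Real.sqrt 3) - 2 * Real.sqrt 3 * (Real.log 12 / 2)) -
        (2 * A1 N X 0 - A1 N X 0 * be0 X 0) := by
    refine integral_Ioi_of_hasDerivAt_of_tendsto
      (f := fun l => 2 * A1 N X l - A1 N X l * be0 X l) ?_ ?_ ?_ ?_
    · exact ((continuous_const.mul cA1).sub (cA1.mul cbe)).continuousWithinAt
    · intro l hl
      have h1 : HasDerivAt (fun l => 2 * A1 N X l - A1 N X l * be0 X l)
        (2 * deriv (A1 N X) l - (deriv (A1 N X) l * be0 X l + A1 N X l * deriv (be0 X) l)) l :=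
        ((hA1at l).const_mul 2).sub ((hA1at l).mul (hbeat l))
      refine h1.congr_deriv ?_
      rw [dA1 l hl]
      ring
    · exact i3.add (i5.const_mul 2)
    · exact (lA1.const_mul 2).sub (lA1.mul lbe)
  have I2 : ∫ l in Set.Ioi (0 : ℝ), (X l * deriv (G0 X) l - deriv X l * G0 X l) =
      (2 * (2 * Real.sqrt 3 - 6 * Real.arctan (Real.sqrt 3 / 3)) - Real.sqrt 3 * Real.log 12)
        - (2 * (2 * X 0 - 6 * Real.arctan (X 0 / 3)) - X 0 * G0 X 0) := by
    refine integral_Ioi_of_hasDerivAt_of_tendsto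
      (f := fun l => 2 * (2 * X l - 6 * Real.arctan (X l / 3)) - X l * G0 X l) ?_ ?_ ?_ ?_
    · exact ((continuous_const.mul ((continuous_const.mul cX).sub (continuous_const.mul
        (Real.continuous_arctan.comp (cX.div_const 3))))).sub (cX.mul cG0)).continuousWithinAt
    · intro l _
      have h0 : HasDerivAt (fun l => Real.arctan (X l / 3))
          (1 / (1 + (X l / 3) ^ 2) * (deriv X l / 3)) l := ((hXat l).div_const 3).arctan
      have h1 : HasDerivAt (fun l => 2 * (2 * X l - 6 * Real.arctan (X l / 3)) - X l * G0 X l)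
        (2 * (2 * deriv X l - 6 * (1 / (1 + (X l / 3) ^ 2) * (deriv X l / 3)))
          - (deriv X l * G0 X l + X l * deriv (G0 X) l)) l :=
        ((((hXat l).const_mul 2).sub (h0.const_mul 6)).const_mul 2).sub ((hXat l).mul (hG0at l))
      refine h1.congr_deriv ?_
      rw [dG0 l]
      have hpos : 9 + X l ^ 2 ≠ 0 := by positivity
      have hpos2 : 1 + (X l / 3) ^ 2 ≠ 0 := by positivity
      have e : 1 / (1 + (X l / 3) ^ 2) = 9 / (9 + X l ^ 2) := by
        rw [div_eq_div_iff hpos2 hpos]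
        ring
      rw [e]
      field_simp
      ring
    · exact i4
    · refine Tendsto.sub (Tendsto.const_mul 2 (Tendsto.sub (h.topX.const_mul 2)
        (Tendsto.const_mul 6 ?_))) (h.topX.mul lG0)
      exact (Real.continuous_arctan.tendsto _).comp (h.topX.div_const 3)
  have hA10 : A1 N X 0 = 0 := by
    unfold A1
    have : Real.tanh (3 * 0 / 4) = 0 := by simp
    rw [this, zero_pow (by omega)]
    ring
  rw [hA10] at I1
  rw [integral_add i3 (i5.const_mul 2), integral_const_mul] at I1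
  rw [arctan_lim] at I2
  rw [hDel, I2]
  linarith

theorem first_core {K6 K4 : ℝ} (hK6 : 0 < K6) (hK4 : 0 < K4) {N : ℕ} (hN : 2 ≤ N)
    (h1 : (∫ l : ℝ, |Real.tanh (3 * l / 4)| ^ N * Real.exp (-(3 * |l| / 2))) ≤ K6 / N)
    (h2 : (∫ l : ℝ, N * |Real.tanh (3 * l / 4)| ^ (N - 1) / Real.cosh (3 * l / 4) ^ 2
      * Real.exp (-(3 * |l| / 2))) ≤ K6 / N)
    (h3 : (∫ l in Set.Ioi (0 : ℝ), Real.tanh (3 * l / 4) ^ N * (3 / 2 * N / Real.sinh (3 * l / 2))
      * (1 - Real.tanh (3 * l / 2))) ≤ K6 / N)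
    {X Y B : ℝ → ℝ} (h : Sys N X Y B)
    (d1 : ∀ l, |deriv (G0 X) l| ≤ K4)
    (d3 : ∀ l, |deriv (A1 N X) l| ≤ K4 * (|Real.tanh (3 * l / 4)| ^ N
      + N * |Real.tanh (3 * l / 4)| ^ (N - 1) / Real.cosh (3 * l / 4) ^ 2)) :
    |(N : ℝ) * (∫ l in Set.Ioi (0 : ℝ), kk l * A1 N X l) - 1 / 2|
      ≤ (52 * K6 + 10 * K4 * K6) / N := by
  obtain ⟨b1, b2, b3, b4, b5, b6, b7⟩ := sys_bounds (by omega : 1 ≤ N) h
  obtain ⟨n1, n2, n3, n4, n5⟩ := sys_nice (by omega : 1 ≤ N) h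
  have hsq3 : Real.sqrt 3 ≤ 2 := by
    rw [show (2:ℝ) = Real.sqrt 4 by
      rw [show (4:ℝ) = 2 ^ 2 by norm_num, Real.sqrt_sq (by norm_num)]]
    exact Real.sqrt_le_sqrt (by norm_num)
  have hN0 : (0:ℝ) < N := by
    have : 0 < N := by omega
    exact_mod_cast this
  have hKN : 0 ≤ K6 / N := by positivity
  have hT : ∀ l, 0 ≤ |Real.tanh (3 * l / 4)| ^ N := fun l => by positivity
  have b4' : ∀ l, |A1 N X l| ≤ 4 * |Real.tanh (3 * l / 4)| ^ N := fun l =>
    (b4 l).trans (mul_le_mul_of_nonneg_right (by linarith) (hT l))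
  have hX0 : |X 0| ≤ 4 * (K6 / N) := by
    rw [h.eqX 0]
    exact a8_conv0 _ 4 (by norm_num) b4' h1
  have hD1 : |Del (A1 N X) (G0 X)| ≤ (4 * K4 + 2 * 3 * K4) * (K6 / N) :=
    a8_del hK4 _ _ 4 3 (by norm_num) (by norm_num) n4 n1 b4'
      (fun l => by rw [abs_of_nonneg (b7 l).1]; exact (b7 l).2) d1 d3 h1 h2
  obtain ⟨hi, hid⟩ := first_identity hN h
  have hbd : ∀ l : ℝ, 0 < l → |A1 N X l * (3 / 2 * N / Real.sinh (3 * l / 2))
      * (1 - Real.tanh (3 * l / 2))| ≤ 4 * (Real.tanh (3 * l / 4) ^ N *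
        (3 / 2 * N / Real.sinh (3 * l / 2)) * (1 - Real.tanh (3 * l / 2))) := by
    intro l hl'
    have hs : 0 < Real.sinh (3 * l / 2) := Real.sinh_pos_iff.mpr (by linarith)
    have ha : 0 ≤ 1 - Real.tanh (3 * l / 2) := by linarith [Real.tanh_lt_one (3 * l / 2)]
    have h0 : 0 ≤ Real.tanh (3 * l / 4) := a8_tanh_nonneg (by linarith)
    have b := b4' l
    rw [abs_of_nonneg h0] at b
    rw [abs_mul, abs_mul, abs_of_nonneg ha,
      abs_of_nonneg (by positivity : 0 ≤ 3 / 2 * (N:ℝ) / Real.sinh (3 * l / 2))]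
    calc _ ≤ 4 * Real.tanh (3 * l / 4) ^ N * (3 / 2 * (N:ℝ) / Real.sinh (3 * l / 2))
          * (1 - Real.tanh (3 * l / 2)) := by
          refine mul_le_mul_of_nonneg_right (mul_le_mul_of_nonneg_right b (by positivity)) ha
      _ = _ := by ring
  have hHint : IntegrableOn (fun l => A1 N X l * (3 / 2 * N / Real.sinh (3 * l / 2))
      * (1 - Real.tanh (3 * l / 2))) (Set.Ioi 0) := by
    refine ((a8_W_int (by omega : 1 ≤ N)).const_mul 4).mono' ?_ ?_
    · refine hi.aestronglyMeasurable.mul ?_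
      exact (continuous_const.sub (a8_tanh_cont.comp (by fun_prop))).aestronglyMeasurable
    · refine (ae_restrict_iff' measurableSet_Ioi).mpr (Eventually.of_forall (fun l hl => ?_))
      rw [Real.norm_eq_abs]
      exact hbd l hl
  have hH : |∫ l in Set.Ioi (0:ℝ), A1 N X l * (3 / 2 * N / Real.sinh (3 * l / 2))
      * (1 - Real.tanh (3 * l / 2))| ≤ 4 * (K6 / N) := by
    have : |∫ l in Set.Ioi (0:ℝ), A1 N X l * (3 / 2 * N / Real.sinh (3 * l / 2))
        * (1 - Real.tanh (3 * l / 2))| ≤ ∫ l in Set.Ioi (0:ℝ),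
        4 * (Real.tanh (3 * l / 4) ^ N * (3 / 2 * N / Real.sinh (3 * l / 2))
        * (1 - Real.tanh (3 * l / 2))) := by
      rw [← Real.norm_eq_abs]
      refine norm_integral_le_of_norm_le ((a8_W_int (by omega : 1 ≤ N)).const_mul 4) ?_
      refine (ae_restrict_iff' measurableSet_Ioi).mpr (Eventually.of_forall (fun l hl => ?_))
      rw [Real.norm_eq_abs]
      exact hbd l hl
    rw [integral_const_mul] at this
    exact this.trans (mul_le_mul_of_nonneg_left h3 (by norm_num))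
  have hid2 : (N : ℝ) * (∫ l in Set.Ioi (0 : ℝ), kk l * A1 N X l)
      = 1 / (2 * Real.pi) * ((∫ l in Set.Ioi (0:ℝ), A1 N X l * (3 / 2 * N / Real.sinh (3 * l / 2)))
        - ∫ l in Set.Ioi (0:ℝ), A1 N X l * (3 / 2 * N / Real.sinh (3 * l / 2))
      * (1 - Real.tanh (3 * l / 2))) := by
    rw [← integral_sub hi hHint, ← integral_const_mul, ← integral_const_mul]
    refine setIntegral_congr_fun measurableSet_Ioi (fun l hl => ?_)
    have hl' : (0:ℝ) < l := hl
    have hs : 0 < Real.sinh (3 * l / 2) := Real.sinh_pos_iff.mpr (by linarith)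
    have hc : 0 < Real.cosh (3 * l / 2) := Real.cosh_pos _
    simp only [kk, Real.tanh_eq_sinh_div_cosh]
    have hpi := Real.pi_pos
    field_simp
    ring
  set I1 := ∫ l in Set.Ioi (0:ℝ), A1 N X l * (3 / 2 * N / Real.sinh (3 * l / 2)) with hI1
  set I2 := ∫ l in Set.Ioi (0:ℝ), A1 N X l * (3 / 2 * N / Real.sinh (3 * l / 2))
      * (1 - Real.tanh (3 * l / 2)) with hI2
  have hpi := Real.pi_pos
  have hpi3 := Real.pi_gt_three
  have key : (N : ℝ) * (∫ l in Set.Ioi (0 : ℝ), kk l * A1 N X l) - 1 / 2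
      = 1 / (4 * Real.pi) * (4 * X 0 - 12 * Real.arctan (X 0 / 3) - X 0 * G0 X 0
        - Del (A1 N X) (G0 X) - 2 * I2) := by
    rw [hid2]
    have : I1 = (2 * Real.pi + 4 * X 0 - 12 * Real.arctan (X 0 / 3) - X 0 * G0 X 0
        - Del (A1 N X) (G0 X)) / 2 := by linarith
    rw [this]
    field_simp
    ring
  rw [key, abs_mul, abs_of_pos (by positivity : 0 < 1 / (4 * Real.pi))]
  have h4pi : 1 / (4 * Real.pi) ≤ 1 := by
    rw [div_le_one (by positivity)]
    linarith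
  have hG0 : |X 0 * G0 X 0| ≤ 4 * (K6 / N) * 3 := by
    rw [abs_mul]
    refine mul_le_mul hX0 ?_ (abs_nonneg _) (by positivity)
    rw [abs_of_nonneg (b7 0).1]; exact (b7 0).2
  have hat : |12 * Real.arctan (X 0 / 3)| ≤ 4 * (4 * (K6 / N)) := by
    have e1 : |Real.arctan (X 0 / 3)| ≤ |X 0 / 3| := abs_arctan_le _
    rw [abs_mul, abs_of_pos (by norm_num : (0:ℝ) < 12)]
    rw [abs_div, abs_of_pos (by norm_num : (0:ℝ) < 3)] at e1
    linarith
  have hbig : |(4 * X 0 - 12 * Real.arctan (X 0 / 3) - X 0 * G0 X 0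
        - Del (A1 N X) (G0 X) - 2 * I2)| ≤
        4 * (4 * (K6 / N)) + 4 * (4 * (K6 / N)) + 4 * (K6 / N) * 3
        + (4 * K4 + 2 * 3 * K4) * (K6 / N) + 2 * (4 * (K6 / N)) := by
    rw [abs_le] at *
    constructor <;> linarith [hG0.1, hG0.2, hX0.1, hX0.2, hat.1, hat.2, hD1.1, hD1.2,
      hH.1, hH.2]
  calc _ ≤ 1 * |(4 * X 0 - 12 * Real.arctan (X 0 / 3) - X 0 * G0 X 0
        - Del (A1 N X) (G0 X) - 2 * I2)| :=
        mul_le_mul_of_nonneg_right h4pi (abs_nonneg _)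
    _ ≤ 4 * (4 * (K6 / N)) + 4 * (4 * (K6 / N)) + 4 * (K6 / N) * 3
        + (4 * K4 + 2 * 3 * K4) * (K6 / N) + 2 * (4 * (K6 / N)) := by rw [one_mul]; exact hbig
    _ = (52 * K6 + 10 * K4 * K6) / N := by ring

theorem first_asymp : ∃ K : ℝ, ∀ (n : ℕ) (X Y B : ℝ → ℝ), 1 ≤ n → Sys (2 * n + 1) X Y B →
    |(2 * n + 1 : ℝ) * (∫ l in Set.Ioi (0 : ℝ), kk l * A1 (2 * n + 1) X l) - 1 / 2|
      ≤ K / (2 * n + 1) := by
  obtain ⟨K6, hK6, h6⟩ := dec_int
  obtain ⟨K4, hK4, h4⟩ := sys_deriv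
  refine ⟨52 * K6 + 10 * K4 * K6, fun n X Y B hn h => ?_⟩
  obtain ⟨h1, h2, h3⟩ := h6 (2 * n + 1) (by omega)
  obtain ⟨d1, d2, d3, d4⟩ := h4 (2 * n + 1) X Y B (by omega) h
  have := first_core hK6 hK4 (by omega) h1 h2 h3 h d1 d3
  push_cast at this
  exact this

end Pool.Agent.Helper21.LK
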