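import Pool.Agent.Helper21.LK.Fin

/-!
# The limit in isoradial environments
-/

namespace Pool.Agent.Helper21.LK

open H906K Pool.Agent.H974R3 Polynomial Filter Topology

theorem sin_ge {δ θ : ℝ} (hδ : 0 < δ) (h1 : δ ≤ θ) (h2 : θ ≤ Real.pi - δ) :
    Real.sin δ ≤ Real.sin θ := by
  have hpi := Real.pi_pos
  rcases le_total θ (Real.pi / 2) with h | h
  · exact Real.sin_le_sin_of_le_of_le_pi_div_two (by linarith) h h1
  · rw [← Real.sin_pi_sub θ]
    exact Real.sin_le_sin_of_le_of_le_pi_div_two (by linarith) (by linarith) (by linarith)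

theorem iso_limit : ∃ M0 : ℕ → ℕ, ∀ δ : ℝ, 0 < δ → ∀ θ : ℕ → ℕ → ℝ,
    (∀ n t, δ ≤ θ n t ∧ θ n t ≤ Real.pi - δ) → ∀ M : ℕ → ℕ, (∀ n, M0 n ≤ M n) →
    Tendsto (fun n => (meanX n (M n) (fun t => bias (θ n t)) +
      ∑ t ∈ Finset.range (M n), Real.cos (θ n t)) /
        ∑ t ∈ Finset.range (M n), Real.sin (θ n t)) atTop (𝓝 0) ∧
    Tendsto (fun n => varX n (M n) (fun t => bias (θ n t)) / clock n (M n) (θ n)) atTop (𝓝 6) ∧
    ∀ l : ℝ, Tendsto (fun n => cf n (M n) (fun t => bias (θ n t)) (fun c =>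
      l * ((Xd n (M n) c : ℝ) - meanX n (M n) (fun t => bias (θ n t))) /
        Real.sqrt (clock n (M n) (θ n)))) atTop (𝓝 (Complex.exp (-3 * (l : ℂ) ^ 2))) := by
  obtain ⟨μ, v, hC, K, hK0, hK⟩ := layered
  choose C hC0 hC using hC
  refine ⟨fun n => ⌈((n + 1) * C n) ^ 2⌉₊ + 1, fun δ hδ θ hθ M hM => ?_⟩
  have hpi := Real.pi_pos
  have hδ2 : δ ≤ Real.pi / 2 := by
    have := hθ 0 0
    linarith
  set s0 : ℝ := Real.sin δ with hs0
  have hs : 0 < s0 := Real.sin_pos_of_pos_of_lt_pi hδ (by linarith)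
  have hs1 : s0 ≤ 1 := Real.sin_le_one δ
  -- bounds for each n
  have hMr : ∀ n, ((n + 1) * C n) ^ 2 ≤ (M n : ℝ) ∧ (1 : ℝ) ≤ M n := by
    intro n
    have h1 : ((⌈((n + 1) * C n) ^ 2⌉₊ + 1 : ℕ) : ℝ) ≤ M n := by exact_mod_cast hM n
    have h2 := Nat.le_ceil (((n : ℝ) + 1) * C n) 
    have h3 := Nat.le_ceil ((((n : ℝ) + 1) * C n) ^ 2)
    push_cast at h1
    have h4 : (0 : ℝ) ≤ ⌈(((n : ℝ) + 1) * C n) ^ 2⌉₊ := by positivity
    constructor <;> linarith
  have hsq : ∀ n, C n / Real.sqrt (M n) ≤ 1 / (n + 1) := by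
    intro n
    obtain ⟨h1, h2⟩ := hMr n
    have h3 : ((n : ℝ) + 1) * C n ≤ Real.sqrt (M n) := by
      apply Real.le_sqrt_of_sq_le
      exact h1
    have h4 : 0 < Real.sqrt (M n) := Real.sqrt_pos.2 (by linarith)
    have h5 : (0 : ℝ) < n + 1 := by positivity
    rw [div_le_div_iff₀ h4 h5]
    linarith
  have hsM : ∀ n, 1 ≤ Real.sqrt (M n) := fun n => by
    rw [Real.one_le_sqrt]
    exact (hMr n).2
  have hss : ∀ n, Real.sqrt (M n) * Real.sqrt (M n) = M n := fun n =>
    Real.mul_self_sqrt (Nat.cast_nonneg _)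
  have hmem : ∀ n t, 0 < θ n t ∧ θ n t < Real.pi := fun n t => by
    have := hθ n t
    constructor <;> linarith
  have hsin : ∀ n t, s0 ≤ Real.sin (θ n t) := fun n t => sin_ge hδ (hθ n t).1 (hθ n t).2
  have hbias : ∀ n t, 0 ≤ bias (θ n t) ∧ bias (θ n t) ≤ 1 := fun n t =>
    bias_mem (hmem n t).1 (hmem n t).2
  have hS : ∀ n, (M n : ℝ) * s0 ≤ ∑ t ∈ Finset.range (M n), Real.sin (θ n t) := by
    intro n
    have h1 := Finset.card_nsmul_le_sum (Finset.range (M n)) (fun t => Real.sin (θ n t)) s0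
      (fun t _ => hsin n t)
    rw [Finset.card_range, nsmul_eq_mul] at h1
    exact h1
  -- the sums of the drifts and of the variances
  have hμ : ∀ n, 1 ≤ n → |∑ t ∈ Finset.range (M n), μ n (bias (θ n t)) +
      ∑ t ∈ Finset.range (M n), Real.cos (θ n t)| ≤ M n * (K / s0 ^ 2 * (1 / (n + 1))) := by
    intro n hn
    rw [← Finset.sum_add_distrib]
    refine (Finset.abs_sum_le_sum_abs _ _).trans ?_
    have : ∀ t ∈ Finset.range (M n), |μ n (bias (θ n t)) + Real.cos (θ n t)| ≤
        K / s0 ^ 2 * (1 / (n + 1)) := by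
      intro t _
      refine ((hK n hn _ (hmem n t).1 (hmem n t).2).1).trans ?_
      rw [div_mul_div_comm, mul_one]
      apply div_le_div_of_nonneg_left hK0 (by positivity)
      have h1 := hsin n t
      have h2 : s0 ^ 2 ≤ Real.sin (θ n t) ^ 2 := pow_le_pow_left₀ hs.le h1 2
      calc s0 ^ 2 * ((n : ℝ) + 1) ≤ Real.sin (θ n t) ^ 2 * (2 * n + 1) := by
            have h3 : (0 : ℝ) ≤ n := Nat.cast_nonneg n
            exact mul_le_mul h2 (by linarith) (by positivity) (by positivity)
        _ = _ := by ring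
    refine (Finset.sum_le_card_nsmul _ _ _ this).trans (le_of_eq ?_)
    rw [Finset.card_range, nsmul_eq_mul]
  have hv : ∀ n, 1 ≤ n → |2 * Real.pi * (∑ t ∈ Finset.range (M n), v n (bias (θ n t))) /
      (2 * n + 1) - 6 * ∑ t ∈ Finset.range (M n), Real.sin (θ n t)| ≤
      M n * (K / s0 * (1 / (n + 1))) := by
    intro n hn
    have e : 2 * Real.pi * (∑ t ∈ Finset.range (M n), v n (bias (θ n t))) /
      (2 * n + 1) - 6 * ∑ t ∈ Finset.range (M n), Real.sin (θ n t) =
      ∑ t ∈ Finset.range (M n), (2 * Real.pi * v n (bias (θ n t)) / (2 * n + 1) -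
        6 * Real.sin (θ n t)) := by
      rw [Finset.sum_sub_distrib, Finset.mul_sum, Finset.mul_sum, Finset.sum_div]
    rw [e]
    refine (Finset.abs_sum_le_sum_abs _ _).trans ?_
    have : ∀ t ∈ Finset.range (M n), |2 * Real.pi * v n (bias (θ n t)) / (2 * n + 1) -
        6 * Real.sin (θ n t)| ≤ K / s0 * (1 / (n + 1)) := by
      intro t _
      refine ((hK n hn _ (hmem n t).1 (hmem n t).2).2).trans ?_
      rw [div_mul_div_comm, mul_one]
      apply div_le_div_of_nonneg_left hK0 (by positivity)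
      have h1 := hsin n t
      calc s0 * ((n : ℝ) + 1) ≤ Real.sin (θ n t) * (2 * n + 1) := by
            have h3 : (0 : ℝ) ≤ n := Nat.cast_nonneg n
            exact mul_le_mul h1 (by linarith) (by positivity) (by linarith)
        _ = _ := by ring
    refine (Finset.sum_le_card_nsmul _ _ _ this).trans (le_of_eq ?_)
    rw [Finset.card_range, nsmul_eq_mul]
  have hlim : Tendsto (fun n : ℕ => 1 / ((n : ℝ) + 1)) atTop (𝓝 0) :=
    tendsto_one_div_add_atTop_nhds_zero_nat
  have hcl : ∀ c : ℝ, Tendsto (fun n : ℕ => c * (1 / ((n : ℝ) + 1))) atTop (𝓝 0) := fun c => by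
    have := hlim.const_mul c
    rwa [mul_zero] at this
  -- notation
  set p : ℕ → ℕ → ℝ := fun n t => bias (θ n t) with hp
  set S : ℕ → ℝ := fun n => ∑ t ∈ Finset.range (M n), Real.sin (θ n t) with hSd
  have hS0 : ∀ n, 0 < S n := fun n => by
    have := hS n
    have h2 := (hMr n).2
    have : 0 < (M n : ℝ) * s0 := by positivity
    exact lt_of_lt_of_le this (hS n)
  have hZ : ∀ n, clock n (M n) (θ n) = (2 * n + 1) / (2 * Real.pi) * S n := fun n => rfl
  have hZ0 : ∀ n, (M n : ℝ) * (s0 / (2 * Real.pi)) ≤ clock n (M n) (θ n) := by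
    intro n
    rw [hZ]
    have h1 := hS n
    calc (M n : ℝ) * (s0 / (2 * Real.pi)) = 1 / (2 * Real.pi) * (M n * s0) := by ring
      _ ≤ (2 * n + 1) / (2 * Real.pi) * S n := by
          apply mul_le_mul _ h1 (by positivity) (by positivity)
          gcongr
          have : (0 : ℝ) ≤ n := Nat.cast_nonneg n
          linarith
  -- the variance per row over the clock
  have hvZ : Tendsto (fun n => (∑ t ∈ Finset.range (M n), v n (p n t)) / clock n (M n) (θ n))
      atTop (𝓝 6) := by
    rw [tendsto_iff_norm_sub_tendsto_zero]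
    refine squeeze_zero' (Eventually.of_forall fun n => norm_nonneg _) ?_
      (hcl (K / s0 ^ 2))
    filter_upwards [eventually_ge_atTop 1] with n hn
    have h1 := hv n hn
    have h2 := hS n
    have h3 := hS0 n
    have hN : (0 : ℝ) < 2 * (n : ℝ) + 1 := by positivity
    rw [Real.norm_eq_abs]
    have e : (∑ t ∈ Finset.range (M n), v n (p n t)) / clock n (M n) (θ n) - 6 =
        (2 * Real.pi * (∑ t ∈ Finset.range (M n), v n (bias (θ n t))) /
      (2 * n + 1) - 6 * S n) / S n := by
      rw [hZ]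
      field_simp
      simp only [hp]
      ring
    rw [e, abs_div, abs_of_pos h3, div_le_iff₀ h3]
    refine h1.trans ?_
    calc (M n : ℝ) * (K / s0 * (1 / (n + 1))) = K / s0 ^ 2 * (1 / (n + 1)) * (M n * s0) := by
          field_simp
      _ ≤ K / s0 ^ 2 * (1 / (n + 1)) * S n := by gcongr
  refine ⟨?_, ?_, fun l => ?_⟩
  · rw [tendsto_iff_norm_sub_tendsto_zero]
    refine squeeze_zero' (Eventually.of_forall fun n => norm_nonneg _) ?_
      (hcl (1 / s0 + K / s0 ^ 3))
    filter_upwards [eventually_ge_atTop 1] with n hn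
    have h1 := hμ n hn
    obtain ⟨h4, -, -⟩ := hC n (p n) (hbias n) (M n)
    have h2 := hS n
    have h3 := hS0 n
    have h5 := hsq n
    have h6 := hsM n
    rw [Real.norm_eq_abs, sub_zero, abs_div, abs_of_pos h3, div_le_iff₀ h3]
    have e : meanX n (M n) (p n) + ∑ t ∈ Finset.range (M n), Real.cos (θ n t) =
        (meanX n (M n) (p n) - ∑ t ∈ Finset.range (M n), μ n (p n t)) +
        (∑ t ∈ Finset.range (M n), μ n (bias (θ n t)) +
          ∑ t ∈ Finset.range (M n), Real.cos (θ n t)) := by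
      simp only [hp]
      ring
    rw [e]
    have h7 : C n ≤ M n * (1 / (n + 1)) := by
      have h8 : C n ≤ 1 / (n + 1) * Real.sqrt (M n) := by
        rwa [div_le_iff₀ (by linarith)] at h5
      have h9 : Real.sqrt (M n) ≤ M n := by
        have := hss n
        nlinarith
      calc C n ≤ 1 / (n + 1) * Real.sqrt (M n) := h8
        _ ≤ 1 / (n + 1) * M n := by gcongr
        _ = _ := by ring
    calc _ ≤ C n + M n * (K / s0 ^ 2 * (1 / (n + 1))) := (abs_add_le _ _).trans (add_le_add h4 h1)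
      _ ≤ M n * (1 / (n + 1)) + M n * (K / s0 ^ 2 * (1 / (n + 1))) := by linarith
      _ = (1 / s0 + K / s0 ^ 3) * (1 / (n + 1)) * (M n * s0) := by field_simp
      _ ≤ (1 / s0 + K / s0 ^ 3) * (1 / (n + 1)) * S n := by gcongr
  · have h0 : Tendsto (fun n => (varX n (M n) (p n) - ∑ t ∈ Finset.range (M n), v n (p n t)) /
        clock n (M n) (θ n)) atTop (𝓝 0) := by
      rw [tendsto_iff_norm_sub_tendsto_zero]
      refine squeeze_zero' (Eventually.of_forall fun n => norm_nonneg _) ?_
        (hcl (2 / (s0 / (2 * Real.pi))))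
      filter_upwards with n
      obtain ⟨-, h4, -⟩ := hC n (p n) (hbias n) (M n)
      have h2 := hZ0 n
      have h5 := hsq n
      have h6 := hsM n
      have hM1 := (hMr n).2
      have hz : 0 < clock n (M n) (θ n) := lt_of_lt_of_le (by positivity) h2
      rw [Real.norm_eq_abs, sub_zero, abs_div, abs_of_pos hz, div_le_iff₀ hz]
      have h8 : C n ≤ 1 / (n + 1) * Real.sqrt (M n) := by
        rwa [div_le_iff₀ (by linarith)] at h5
      have h9 : Real.sqrt ((M n : ℝ) + 1) ≤ 2 * Real.sqrt (M n) := by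
        rw [Real.sqrt_le_left (by positivity), mul_pow, Real.sq_sqrt (by positivity)]
        linarith
      calc _ ≤ C n * Real.sqrt ((M n : ℝ) + 1) := h4
        _ ≤ (1 / (n + 1) * Real.sqrt (M n)) * (2 * Real.sqrt (M n)) :=
            mul_le_mul h8 h9 (Real.sqrt_nonneg _) (by positivity)
        _ = 2 * (1 / (n + 1)) * (Real.sqrt (M n) * Real.sqrt (M n)) := by ring
        _ = 2 / (s0 / (2 * Real.pi)) * (1 / (n + 1)) * (M n * (s0 / (2 * Real.pi))) := by
            rw [hss n]
            field_simp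
        _ ≤ _ := by gcongr
    have h1 := h0.add hvZ
    rw [zero_add] at h1
    refine h1.congr fun n => ?_
    rw [← add_div, sub_add_cancel]
  · set e : ℕ → ℝ := fun n => l / Real.sqrt (clock n (M n) (θ n)) with he
    set z0 : ℝ := s0 / (2 * Real.pi) with hz0
    have hz0p : 0 < z0 := by positivity
    have hclock : ∀ n, 0 < clock n (M n) (θ n) := fun n =>
      lt_of_lt_of_le (by have := (hMr n).2; positivity) (hZ0 n)
    -- bounds for e
    have hsqZ : ∀ n, Real.sqrt (M n) * Real.sqrt z0 ≤ Real.sqrt (clock n (M n) (θ n)) := by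
      intro n
      rw [← Real.sqrt_mul (Nat.cast_nonneg _)]
      exact Real.sqrt_le_sqrt (hZ0 n)
    have hsz0 : 0 < Real.sqrt z0 := Real.sqrt_pos.2 hz0p
    have hebd : ∀ n, |e n| ≤ |l| / Real.sqrt z0 / Real.sqrt (M n) := by
      intro n
      have h6 := hsM n
      simp only [he]
      rw [abs_div, abs_of_pos (Real.sqrt_pos.2 (hclock n)), div_div]
      apply div_le_div_of_nonneg_left (abs_nonneg _) (by positivity)
      rw [mul_comm]
      exact hsqZ n
    have hCe : ∀ n, C n * |e n| ≤ |l| / Real.sqrt z0 * (1 / (n + 1)) := by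
      intro n
      have h6 := hsM n
      calc C n * |e n| ≤ C n * (|l| / Real.sqrt z0 / Real.sqrt (M n)) :=
            mul_le_mul_of_nonneg_left (hebd n) (hC0 n)
        _ = |l| / Real.sqrt z0 * (C n / Real.sqrt (M n)) := by ring
        _ ≤ _ := mul_le_mul_of_nonneg_left (hsq n) (by positivity)
    have hCe3 : ∀ n, C n * (M n * |e n| ^ 3) ≤ (|l| / Real.sqrt z0) ^ 3 * (1 / (n + 1)) := by
      intro n
      have h6 := hsM n
      have h7 := hss n
      have h8 : |e n| ^ 3 ≤ (|l| / Real.sqrt z0 / Real.sqrt (M n)) ^ 3 :=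
        pow_le_pow_left₀ (abs_nonneg _) (hebd n) 3
      have hsp : 0 < Real.sqrt (M n) := by linarith
      calc C n * (M n * |e n| ^ 3) ≤
            C n * (M n * (|l| / Real.sqrt z0 / Real.sqrt (M n)) ^ 3) := by
            have := hC0 n
            gcongr
        _ = (|l| / Real.sqrt z0) ^ 3 * (C n / Real.sqrt (M n)) := by
            have h9 : ∀ q m a c : ℝ, 0 < q → q * q = m → c * (m * (a / q) ^ 3) = a ^ 3 * (c / q) := by
              intro q m a c hq h
              rw [← h]
              field_simp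
            exact h9 _ _ _ _ hsp h7
        _ ≤ _ := mul_le_mul_of_nonneg_left (hsq n) (by positivity)
    set ζ : ℕ → ℂ := fun n => Complex.I * ((e n * (∑ t ∈ Finset.range (M n), μ n (p n t) -
      meanX n (M n) (p n)) : ℝ) : ℂ) - ((l ^ 2 / 2 *
        ((∑ t ∈ Finset.range (M n), v n (p n t)) / clock n (M n) (θ n)) : ℝ) : ℂ) with hζ
    have hζlim : Tendsto ζ atTop (𝓝 (-3 * (l : ℂ) ^ 2)) := by
      have h1 : Tendsto (fun n => e n * (∑ t ∈ Finset.range (M n), μ n (p n t) -
          meanX n (M n) (p n))) atTop (𝓝 0) := by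
        rw [tendsto_iff_norm_sub_tendsto_zero]
        refine squeeze_zero' (Eventually.of_forall fun n => norm_nonneg _) ?_
          (hcl (|l| / Real.sqrt z0))
        filter_upwards with n
        obtain ⟨h4, -, -⟩ := hC n (p n) (hbias n) (M n)
        rw [Real.norm_eq_abs, sub_zero, abs_mul, abs_sub_comm]
        calc _ ≤ |e n| * C n := mul_le_mul_of_nonneg_left h4 (abs_nonneg _)
          _ = C n * |e n| := by ring
          _ ≤ _ := hCe n
      have h2 : Tendsto (fun n => l ^ 2 / 2 *
        ((∑ t ∈ Finset.range (M n), v n (p n t)) / clock n (M n) (θ n))) atTop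
          (𝓝 (l ^ 2 / 2 * 6)) := hvZ.const_mul _
      have h3 := ((Complex.continuous_ofReal.tendsto _).comp h1).const_mul Complex.I
      have h4 := (Complex.continuous_ofReal.tendsto _).comp h2
      have h5 := h3.sub h4
      have e1 : Complex.I * ((0 : ℝ) : ℂ) - ((l ^ 2 / 2 * 6 : ℝ) : ℂ) = -3 * (l : ℂ) ^ 2 := by
        push_cast
        ring
      rw [e1] at h5
      exact h5
    have hexp : Tendsto (fun n => Complex.exp (ζ n)) atTop
        (𝓝 (Complex.exp (-3 * (l : ℂ) ^ 2))) :=
      (Complex.continuous_exp.tendsto _).comp hζlim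
    have hdiff : Tendsto (fun n => cf n (M n) (p n) (fun c =>
      l * ((Xd n (M n) c : ℝ) - meanX n (M n) (p n)) /
        Real.sqrt (clock n (M n) (θ n))) - Complex.exp (ζ n)) atTop (𝓝 0) := by
      rw [tendsto_zero_iff_norm_tendsto_zero]
      refine squeeze_zero' (Eventually.of_forall fun n => norm_nonneg _) ?_
        (hcl (|l| / Real.sqrt z0 + (|l| / Real.sqrt z0) ^ 3))
      filter_upwards with n
      obtain ⟨-, -, h4⟩ := hC n (p n) (hbias n) (M n)
      have h5 := h4 (fun _ => e n)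
      have e1 : (fun c => l * ((Xd n (M n) c : ℝ) - meanX n (M n) (p n)) /
        Real.sqrt (clock n (M n) (θ n))) = fun c => (wsum n (fun _ => e n) c -
          e n * meanX n (M n) (p n)) := by
        funext c
        rw [wsum_const]
        simp only [he]
        ring
      rw [e1, cf_shift]
      have e2 : Complex.exp (ζ n) = Complex.exp (-(Complex.I * ((e n * meanX n (M n) (p n) : ℝ) :
          ℂ))) * Complex.exp
          (Complex.I * ((∑ s ∈ Finset.range (M n), e n * μ n (p n s) : ℝ) : ℂ) -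
            ((∑ s ∈ Finset.range (M n), e n ^ 2 * v n (p n s) : ℝ) : ℂ) / 2) := by
        rw [← Complex.exp_add]
        congr 1
        simp only [hζ]
        have e3 : e n ^ 2 = l ^ 2 / clock n (M n) (θ n) := by
          simp only [he]
          rw [div_pow, Real.sq_sqrt (hclock n).le]
        rw [← Finset.mul_sum, ← Finset.mul_sum, e3]
        push_cast
        ring
      rw [e2, ← mul_sub, norm_mul]
      have e4 : ‖Complex.exp (-(Complex.I * ((e n * meanX n (M n) (p n) : ℝ) : ℂ)))‖ = 1 := by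
        have e5 : -(Complex.I * ((e n * meanX n (M n) (p n) : ℝ) : ℂ)) =
            Complex.I * ((-(e n * meanX n (M n) (p n)) : ℝ) : ℂ) := by
          push_cast
          ring
        rw [e5, norm_cexp]
      rw [e4, one_mul]
      refine h5.trans ?_
      simp only [sub_self, abs_zero, add_zero, Finset.sum_const, Finset.card_range, nsmul_eq_mul]
      rw [mul_add, add_mul]
      exact add_le_add (hCe n) (hCe3 n)
    have := hdiff.add hexp
    rw [zero_add] at this
    refine this.congr fun n => ?_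
    rw [sub_add_cancel]

end Pool.Agent.Helper21.LK
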