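import Pool.Graph.R_seed8.H906R3.K6.Final

/-!
# The common left eigenvector of the twisted transfer matrices
-/

namespace Pool.Agent.Helper21.LK

open H906K Pool.Agent.H974R3 Polynomial

theorem left_unique {ι : Type*} [Fintype ι] [DecidableEq ι] [Nonempty ι]
    (A : Matrix ι ι (PowerSeries ℂ)) (l0 : ℂ)
    (h1 : ∀ j, ∑ i, PowerSeries.coeff 0 (A i j) = l0)
    (h2 : ∀ u : ι → ℂ, (∀ i, ∑ j, PowerSeries.coeff 0 (A i j) * u j = l0 * u i) →
      ∑ i, u i = 0 → u = 0)
    (L : PowerSeries ℂ) (hL0 : PowerSeries.coeff 0 L = l0)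
    (w y : ι → PowerSeries ℂ) (hw : ∀ i, PowerSeries.coeff 0 (w i) = 1)
    (hwL : A.vecMul w = L • w) (hyL : A.vecMul y = L • y) : ∃ s : PowerSeries ℂ, y = s • w := by
  obtain ⟨e, he⟩ : ∃ e : ι → ℂ, ∑ i, e i = 1 := by
    refine ⟨Pi.single (Classical.arbitrary ι) 1, ?_⟩
    rw [Finset.sum_pi_single' (Classical.arbitrary ι) (1 : ℂ) Finset.univ,
      if_pos (Finset.mem_univ _)]
  have hu := e1M_isUnit A l0 h1 h2 e he L hL0
  set a : PowerSeries ℂ := ∑ i, w i * PowerSeries.C (e i) with ha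
  set b : PowerSeries ℂ := ∑ i, y i * PowerSeries.C (e i) with hb
  have hwM : ∀ j, (e1M A e L).vecMul w j = a := by
    intro j
    rw [e1M_vecMul, hwL, Pi.smul_apply, smul_eq_mul]
    ring
  have hyM : ∀ j, (e1M A e L).vecMul y j = b := by
    intro j
    rw [e1M_vecMul, hyL, Pi.smul_apply, smul_eq_mul]
    ring
  have ha0 : PowerSeries.constantCoeff a = 1 := by
    rw [ha, map_sum]
    rw [← he]
    refine Finset.sum_congr rfl fun i _ => ?_
    rw [map_mul, PowerSeries.constantCoeff_C, ← PowerSeries.coeff_zero_eq_constantCoeff_apply, hw,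
      one_mul]
  have hau : IsUnit a := by
    rw [PowerSeries.isUnit_iff_constantCoeff, ha0]
    exact isUnit_one
  obtain ⟨u, hu'⟩ := hau
  have hz : (e1M A e L).vecMul (a • y - b • w) = 0 := by
    funext j
    rw [Matrix.sub_vecMul, Matrix.smul_vecMul, Matrix.smul_vecMul, Pi.sub_apply, Pi.smul_apply,
      Pi.smul_apply, hwM, hyM, smul_eq_mul, smul_eq_mul, Pi.zero_apply]
    ring
  have hz' : a • y - b • w = 0 := by
    have h3 : ((e1M A e L)⁻¹).vecMul ((e1M A e L).vecMul (a • y - b • w)) = a • y - b • w := by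
      rw [Matrix.vecMul_vecMul, Matrix.mul_nonsing_inv _ hu, Matrix.vecMul_one]
    rw [← h3, hz, Matrix.zero_vecMul]
  refine ⟨(↑(u⁻¹) : PowerSeries ℂ) * b, ?_⟩
  have h4 : a • y = b • w := sub_eq_zero.1 hz'
  rw [mul_smul, ← h4, ← hu', smul_smul, Units.inv_mul, one_smul]

theorem TL_eval (n : ℕ) (x : ℂ) :
    (TL (2 * n) (C (PowerSeries.C om)) (X : (PowerSeries ℂ)[X]) ezX).map
      (Polynomial.eval (PowerSeries.C x)) = TL (2 * n) (PowerSeries.C om) (PowerSeries.C x) ez := by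
  have := e2_TL_map (Polynomial.evalRingHom (PowerSeries.C x)) (2 * n) (C (PowerSeries.C om)) X ezX
  have h1 : Units.map (Polynomial.evalRingHom (PowerSeries.C x)).toMonoidHom ezX = ez := by
    apply Units.ext
    simp [ezX]
  rw [h1] at this
  simp only [coe_evalRingHom, eval_C, eval_X] at this
  exact this.symm

theorem TL_comm_scal (n : ℕ) (x : ℂ) :
    TL (2 * n) (PowerSeries.C om) (PowerSeries.C x) ez * TL (2 * n) (PowerSeries.C om) 1 ez =
      TL (2 * n) (PowerSeries.C om) 1 ez * TL (2 * n) (PowerSeries.C om) (PowerSeries.C x) ez := by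
  have h := TL_comm_X n
  rw [e2_CA] at h
  have h2 := congrArg (fun M : Matrix (Pat (2 * n + 1)) (Pat (2 * n + 1)) (PowerSeries ℂ)[X] =>
    M.map (Polynomial.evalRingHom (PowerSeries.C x))) h
  simp only [Matrix.map_mul] at h2
  have h3 : ((TL (2 * n) (PowerSeries.C om) 1 ez).map (C : PowerSeries ℂ →+* (PowerSeries ℂ)[X])).map
      (Polynomial.evalRingHom (PowerSeries.C x)) = TL (2 * n) (PowerSeries.C om) 1 ez := by
    ext i j
    simp
  have h4 : (TL (2 * n) (C (PowerSeries.C om)) (X : (PowerSeries ℂ)[X]) ezX).map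
      (Polynomial.evalRingHom (PowerSeries.C x)) =
      TL (2 * n) (PowerSeries.C om) (PowerSeries.C x) ez := TL_eval n x
  rw [h3, h4] at h2
  exact h2

/-- the common left eigenvector, with all that is known about the eigenvalue -/
theorem exists_common (n : ℕ) : ∃ (v w : Pat (2 * n + 1) → PowerSeries ℂ) (t : (PowerSeries ℂ)[X]),
    ∑ σ, v σ = 1 ∧ t.natDegree ≤ 2 * n + 1 ∧
    (TL (2 * n) (C (PowerSeries.C om)) (X : (PowerSeries ℂ)[X]) ezX).mulVec (fun σ => C (v σ))
      = t • (fun σ => C (v σ)) ∧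
    (∀ σ, PowerSeries.coeff 0 (w σ) = 1) ∧
    ∀ x : ℂ, (TL (2 * n) (PowerSeries.C om) (PowerSeries.C x) ez).vecMul w =
      (t.eval (PowerSeries.C x)) • w := by
  have : Nonempty (Pat (2 * n + 1)) := ⟨base n⟩
  obtain ⟨v, t, hv, hd, ht, w, hw, hwL⟩ := exists_t n
  refine ⟨v, w, t, hv, hd, ht, hw, fun x => ?_⟩
  -- the right eigenvector
  have hR : ∀ x : ℂ, (TL (2 * n) (PowerSeries.C om) (PowerSeries.C x) ez).mulVec v =
      (t.eval (PowerSeries.C x)) • v := by
    intro x
    funext σ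
    have h1 := congrArg (Polynomial.eval (PowerSeries.C x)) (congrFun ht σ)
    rw [← TL_eval n x]
    simp only [Matrix.mulVec, dotProduct, Polynomial.eval_finsetSum, Polynomial.eval_mul,
      Polynomial.eval_C, Pi.smul_apply, smul_eq_mul, Matrix.map_apply] at h1 ⊢
    exact h1
  have hL0 : PowerSeries.coeff 0 (t.eval 1) = 2 ^ (2 * n + 1) := by
    have h1 := congrFun (hR 1) 
    rw [map_one] at h1
    have h2 : ∑ σ, (TL (2 * n) (PowerSeries.C om) 1 ez).mulVec v σ = t.eval 1 := by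
      rw [Finset.sum_congr rfl fun σ _ => h1 σ]
      simp only [Pi.smul_apply, smul_eq_mul]
      rw [← Finset.mul_sum, hv, mul_one]
    rw [← h2, map_sum]
    have h3 : ∀ i, PowerSeries.coeff 0 ((TL (2 * n) (PowerSeries.C om) 1 ez).mulVec v i)
        = ∑ j, PowerSeries.coeff 0 (TL (2 * n) (PowerSeries.C om) 1 ez i j) *
          PowerSeries.coeff 0 (v j) := by
      intro i
      unfold Matrix.mulVec dotProduct
      rw [map_sum]
      refine Finset.sum_congr rfl fun j _ => ?_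
      simp only [PowerSeries.coeff_zero_eq_constantCoeff, map_mul]
    rw [Finset.sum_congr rfl (fun i _ => h3 i), Finset.sum_comm]
    have h4 : ∀ j, ∑ i, PowerSeries.coeff 0 (TL (2 * n) (PowerSeries.C om) 1 ez i j) *
        PowerSeries.coeff 0 (v j) = 2 ^ (2 * n + 1) * PowerSeries.coeff 0 (v j) := by
      intro j
      rw [← Finset.sum_mul, e2_h1 (2 * n) j]
    rw [Finset.sum_congr rfl (fun j _ => h4 j), ← Finset.mul_sum, ← map_sum, hv]
    simp
  obtain ⟨s, hs⟩ := left_unique (TL (2 * n) (PowerSeries.C om) 1 ez) (2 ^ (2 * n + 1))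
    (fun σ => e2_h1 (2 * n) σ) (fun u hu hs => e2_h2 n u hu hs) (t.eval 1) hL0 w
    ((TL (2 * n) (PowerSeries.C om) (PowerSeries.C x) ez).vecMul w) hw hwL (by
      rw [Matrix.vecMul_vecMul, TL_comm_scal, ← Matrix.vecMul_vecMul, hwL, Matrix.smul_vecMul])
  -- pairing with the right eigenvector
  have h5 : w ⬝ᵥ ((TL (2 * n) (PowerSeries.C om) (PowerSeries.C x) ez).mulVec v) =
      ((TL (2 * n) (PowerSeries.C om) (PowerSeries.C x) ez).vecMul w) ⬝ᵥ v :=
    Matrix.dotProduct_mulVec _ _ _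
  rw [hR, hs, dotProduct_smul, smul_dotProduct, smul_eq_mul, smul_eq_mul] at h5
  have h6 : PowerSeries.constantCoeff (w ⬝ᵥ v) = 1 := by
    unfold dotProduct
    rw [map_sum, ← map_one (PowerSeries.constantCoeff (R := ℂ)), ← hv, map_sum]
    refine Finset.sum_congr rfl fun σ _ => ?_
    rw [map_mul, ← PowerSeries.coeff_zero_eq_constantCoeff_apply, hw, one_mul]
  have h7 : w ⬝ᵥ v ≠ 0 := by
    intro h
    rw [h, map_zero] at h6
    exact zero_ne_one h6
  have h8 : t.eval (PowerSeries.C x) = s := mul_right_cancel₀ h7 h5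
  rw [hs, h8]

end Pool.Agent.Helper21.LK
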