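import Pool.Agent.Helper21.LK.Row

/-!
# Mean and variance of the displacement in a layered environment
-/

namespace Pool.Agent.Helper21.LK

open H906K Pool.Agent.H974R3 Polynomial

/-- the drift per row -/
noncomputable def al (t : (PowerSeries ℂ)[X]) (n : ℕ) (p : ℝ) : ℝ :=
  (PowerSeries.coeff 1 (Lam t n p)).im

/-- the variance per row -/
noncomputable def vv (t : (PowerSeries ℂ)[X]) (n : ℕ) (p : ℝ) : ℝ :=
  -2 * (PowerSeries.coeff 2 (Lam t n p)).re - al t n p ^ 2

section
variable {n : ℕ} {w : Pat (2 * n + 1) → PowerSeries ℂ} {t : (PowerSeries ℂ)[X]}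

/-- the expectation of complex functions -/
theorem ex_bound {M : ℕ} {p : ℕ → ℝ} (hp : ∀ s, 0 ≤ p s ∧ p s ≤ 1) {B : ℝ}
    (g : (Fin M → Fin (2 * n + 1) → Bool) → ℂ) (hg : ∀ c, ‖g c‖ ≤ B) :
    ‖∑ c, ((weight n M p c : ℝ) : ℂ) * g c‖ ≤ B := by
  refine (norm_sum_le _ _).trans ?_
  calc ∑ c, ‖((weight n M p c : ℝ) : ℂ) * g c‖ ≤ ∑ c, weight n M p c * B := by
        refine Finset.sum_le_sum fun c _ => ?_
        rw [norm_mul, Complex.norm_real, Real.norm_eq_abs, abs_of_nonneg (weight_nonneg hp c)]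
        exact mul_le_mul_of_nonneg_left (hg c) (weight_nonneg hp c)
    _ = B := by rw [← Finset.sum_mul, sum_weight, one_mul]

/-- the two identities -/
theorem ids (hw : ∀ σ, PowerSeries.coeff 0 (w σ) = 1)
    (h : ∀ x : ℂ, (TL (2 * n) (PowerSeries.C om) (PowerSeries.C x) ez).vecMul w =
      (t.eval (PowerSeries.C x)) • w) (p : ℕ → ℝ) (M : ℕ) :
    (∑ c, ((weight n M p c : ℝ) : ℂ) * (PowerSeries.coeff 1 (w (run (2 * n) M c (start n)).1) +
        Complex.I * (run (2 * n) M c (start n)).2) =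
      (∑ s ∈ Finset.range M, PowerSeries.coeff 1 (Lam t n (p s))) +
        PowerSeries.coeff 1 (w (start n))) ∧
    (∑ c, ((weight n M p c : ℝ) : ℂ) * (PowerSeries.coeff 2 (w (run (2 * n) M c (start n)).1) +
        Complex.I * ((run (2 * n) M c (start n)).2 *
          PowerSeries.coeff 1 (w (run (2 * n) M c (start n)).1)) -
        ((run (2 * n) M c (start n)).2 : ℂ) ^ 2 / 2) =
      ∑ s ∈ Finset.range M, (PowerSeries.coeff 2 (Lam t n (p s)) -
          PowerSeries.coeff 1 (Lam t n (p s)) ^ 2 / 2) +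
        (∑ s ∈ Finset.range M, PowerSeries.coeff 1 (Lam t n (p s))) ^ 2 / 2 +
        (∑ s ∈ Finset.range M, PowerSeries.coeff 1 (Lam t n (p s))) *
          PowerSeries.coeff 1 (w (start n)) + PowerSeries.coeff 2 (w (start n))) := by
  obtain ⟨q0, q1, q2⟩ := prod_coeff (fun s => Lam t n (p s)) (fun s => lam_zero hw h (p s)) M
  have key := all_id h p (start n) M
  constructor
  · have h1 := congrArg (PowerSeries.coeff 1) key
    rw [map_sum, p2_mul1, q0, q1, hw] at h1
    rw [show (∑ s ∈ Finset.range M, PowerSeries.coeff 1 (Lam t n (p s))) +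
        PowerSeries.coeff 1 (w (start n)) = 1 * PowerSeries.coeff 1 (w (start n)) +
        (∑ s ∈ Finset.range M, PowerSeries.coeff 1 (Lam t n (p s))) * 1 by ring, ← h1]
    refine Finset.sum_congr rfl fun c _ => ?_
    rw [PowerSeries.coeff_C_mul, p2_mul1, hw, p2_exp0, p2_exp1]
    ring
  · have h1 := congrArg (PowerSeries.coeff 2) key
    rw [map_sum, p2_mul2, q0, q1, q2, hw] at h1
    rw [show ∑ s ∈ Finset.range M, (PowerSeries.coeff 2 (Lam t n (p s)) -
          PowerSeries.coeff 1 (Lam t n (p s)) ^ 2 / 2) +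
        (∑ s ∈ Finset.range M, PowerSeries.coeff 1 (Lam t n (p s))) ^ 2 / 2 +
        (∑ s ∈ Finset.range M, PowerSeries.coeff 1 (Lam t n (p s))) *
          PowerSeries.coeff 1 (w (start n)) + PowerSeries.coeff 2 (w (start n)) =
        1 * PowerSeries.coeff 2 (w (start n)) +
        (∑ s ∈ Finset.range M, PowerSeries.coeff 1 (Lam t n (p s))) *
          PowerSeries.coeff 1 (w (start n)) +
        (∑ s ∈ Finset.range M, (PowerSeries.coeff 2 (Lam t n (p s)) -
          PowerSeries.coeff 1 (Lam t n (p s)) ^ 2 / 2) +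
        (∑ s ∈ Finset.range M, PowerSeries.coeff 1 (Lam t n (p s))) ^ 2 / 2) * 1 by ring, ← h1]
    refine Finset.sum_congr rfl fun c _ => ?_
    rw [PowerSeries.coeff_C_mul, p2_mul2, hw, p2_exp0, p2_exp1, p2_exp2]
    ring

/-- the drift is real -/
theorem re_zero (hw : ∀ σ, PowerSeries.coeff 0 (w σ) = 1)
    (h : ∀ x : ℂ, (TL (2 * n) (PowerSeries.C om) (PowerSeries.C x) ez).vecMul w =
      (t.eval (PowerSeries.C x)) • w) {p : ℝ} (h0 : 0 ≤ p) (h1 : p ≤ 1) :
    (PowerSeries.coeff 1 (Lam t n p)).re = 0 := by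
  obtain ⟨B, hB⟩ : ∃ B : ℝ, ∀ σ, ‖PowerSeries.coeff 1 (w σ)‖ ≤ B := by
    obtain ⟨B1, hB1⟩ := (Set.finite_range fun σ => ‖PowerSeries.coeff 1 (w σ)‖).bddAbove
    exact ⟨B1, fun σ => hB1 ⟨σ, rfl⟩⟩
  have hre : ∀ M : ℕ, M * |(PowerSeries.coeff 1 (Lam t n p)).re| ≤ 2 * B := by
    intro M
    obtain ⟨i1, -⟩ := ids hw h (fun _ => p) M
    simp only [mul_add, Finset.sum_add_distrib] at i1
    rw [Finset.sum_const, Finset.card_range, nsmul_eq_mul] at i1
    have e : ∑ c, ((weight n M (fun _ => p) c : ℝ) : ℂ) *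
        (Complex.I * ((run (2 * n) M c (start n)).2 : ℂ)) = Complex.I *
        ((∑ c, weight n M (fun _ => p) c * ((run (2 * n) M c (start n)).2 : ℝ) : ℝ) : ℂ) := by
      push_cast
      rw [Finset.mul_sum]
      refine Finset.sum_congr rfl fun c _ => ?_
      ring
    rw [e] at i1
    have i2 := congrArg Complex.re i1
    rw [Complex.add_re, Complex.add_re, Complex.I_mul_re, Complex.ofReal_im, neg_zero, add_zero,
      ← Complex.ofReal_natCast, Complex.re_ofReal_mul] at i2
    have b1 := (Complex.abs_re_le_norm _).trans (ex_bound (n := n) (M := M) (p := fun _ => p)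
      (fun _ => ⟨h0, h1⟩) (fun c => PowerSeries.coeff 1 (w (run (2 * n) M c (start n)).1))
      (fun c => hB _))
    have b2 := (Complex.abs_re_le_norm _).trans (hB (start n))
    have e3 : (M : ℝ) * |(PowerSeries.coeff 1 (Lam t n p)).re| =
        |(M : ℝ) * (PowerSeries.coeff 1 (Lam t n p)).re| := by
      rw [abs_mul, Nat.abs_cast]
    rw [e3]
    have e4 : (M : ℝ) * (PowerSeries.coeff 1 (Lam t n p)).re =
        (∑ c, ((weight n M (fun _ => p) c : ℝ) : ℂ) *
          PowerSeries.coeff 1 (w (run (2 * n) M c (start n)).1)).re -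
          (PowerSeries.coeff 1 (w (start n))).re := by linarith
    rw [e4]
    refine (abs_sub _ _).trans ?_
    linarith
  by_contra hne
  have hpos : 0 < |(PowerSeries.coeff 1 (Lam t n p)).re| := abs_pos.2 hne
  obtain ⟨M, hM⟩ := exists_nat_gt (2 * B / |(PowerSeries.coeff 1 (Lam t n p)).re|)
  rw [div_lt_iff₀ hpos] at hM
  exact absurd (hre M) (not_le.2 hM)

/-- the displacement -/
theorem Xd_run (n M : ℕ) (c : Fin M → Fin (2 * n + 1) → Bool) :
    Xd n M c = (run (2 * n) M c (start n)).2 := by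
  have : End n M c (Xd n M c) := Classical.epsilon_spec (p := End n M c)
    ⟨_, (end_run n M c _).2 rfl⟩
  exact (end_run n M c _).1 this

/-- the main estimate: `y = E (X - m)²` -/
theorem core (hw : ∀ σ, PowerSeries.coeff 0 (w σ) = 1)
    (h : ∀ x : ℂ, (TL (2 * n) (PowerSeries.C om) (PowerSeries.C x) ez).vecMul w =
      (t.eval (PowerSeries.C x)) • w) {B : ℝ}
    (hB : ∀ σ, ‖PowerSeries.coeff 1 (w σ)‖ ≤ B ∧ ‖PowerSeries.coeff 2 (w σ)‖ ≤ B)
    {p : ℕ → ℝ} (hp : ∀ s, 0 ≤ p s ∧ p s ≤ 1) (M : ℕ) :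
    |meanX n M p - ∑ s ∈ Finset.range M, al t n (p s)| ≤ 2 * B ∧
    ∀ l : ℝ, 0 < l → |avg n M p (fun c => ((Xd n M c : ℝ) -
        ∑ s ∈ Finset.range M, al t n (p s)) ^ 2) - ∑ s ∈ Finset.range M, vv t n (p s)| ≤
      4 * B + B * (l + avg n M p (fun c => ((Xd n M c : ℝ) -
        ∑ s ∈ Finset.range M, al t n (p s)) ^ 2) / l) ∧
      |∑ s ∈ Finset.range M, (PowerSeries.coeff 2 (Lam t n (p s))).im| ≤
      4 * B + B * (l + avg n M p (fun c => ((Xd n M c : ℝ) -
        ∑ s ∈ Finset.range M, al t n (p s)) ^ 2) / l) := by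
  have hB0 : 0 ≤ B := (norm_nonneg _).trans (hB (start n)).1
  set m : ℝ := ∑ s ∈ Finset.range M, al t n (p s) with hm
  set x : (Fin M → Fin (2 * n + 1) → Bool) → ℝ := fun c => (Xd n M c : ℝ) with hx
  set w1 : (Fin M → Fin (2 * n + 1) → Bool) → ℂ :=
    fun c => PowerSeries.coeff 1 (w (run (2 * n) M c (start n)).1) with hw1
  set w2 : (Fin M → Fin (2 * n + 1) → Bool) → ℂ :=
    fun c => PowerSeries.coeff 2 (w (run (2 * n) M c (start n)).1) with hw2
  set W : (Fin M → Fin (2 * n + 1) → Bool) → ℝ := fun c => weight n M p c with hW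
  have hxr : ∀ c, (((run (2 * n) M c (start n)).2 : ℤ) : ℂ) = ((x c : ℝ) : ℂ) := by
    intro c
    rw [hx]
    simp only [Xd_run]
    push_cast
    rfl
  have hW1 : ∑ c, W c = 1 := sum_weight M p
  have hW0 : ∀ c, 0 ≤ W c := fun c => weight_nonneg hp c
  have ha : ∀ s, PowerSeries.coeff 1 (Lam t n (p s)) = Complex.I * (al t n (p s) : ℂ) := by
    intro s
    apply Complex.ext
    · rw [re_zero hw h (hp s).1 (hp s).2]
      simp
    · simp [al]
  have hA : ∑ s ∈ Finset.range M, PowerSeries.coeff 1 (Lam t n (p s)) = Complex.I * (m : ℂ) := by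
    rw [Finset.sum_congr rfl fun s _ => ha s, ← Finset.mul_sum, hm]
    push_cast
    rfl
  obtain ⟨i1, i2⟩ := ids hw h p M
  rw [hA] at i1 i2
  simp only [hxr] at i1 i2
  set a1 : ℂ := PowerSeries.coeff 1 (w (start n)) with ha1
  set a2 : ℂ := PowerSeries.coeff 2 (w (start n)) with ha2
  set S : ℂ := ∑ s ∈ Finset.range M, (PowerSeries.coeff 2 (Lam t n (p s)) -
          PowerSeries.coeff 1 (Lam t n (p s)) ^ 2 / 2) with hS
  have hSre : S.re = -(∑ s ∈ Finset.range M, vv t n (p s)) / 2 := by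
    rw [hS, Complex.re_sum]
    have : ∀ s ∈ Finset.range M, (PowerSeries.coeff 2 (Lam t n (p s)) -
          PowerSeries.coeff 1 (Lam t n (p s)) ^ 2 / 2).re = -(vv t n (p s)) / 2 := by
      intro s _
      rw [ha s, mul_pow, Complex.I_sq]
      have e : (PowerSeries.coeff 2 (Lam t n (p s)) - -1 * (al t n (p s) : ℂ) ^ 2 / 2) =
          PowerSeries.coeff 2 (Lam t n (p s)) + ((al t n (p s) ^ 2 / 2 : ℝ) : ℂ) := by
        push_cast
        ring
      rw [e, Complex.add_re, Complex.ofReal_re]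
      unfold vv
      ring
    rw [Finset.sum_congr rfl this, ← Finset.sum_div, Finset.sum_neg_distrib]
  have hSim : S.im = ∑ s ∈ Finset.range M, (PowerSeries.coeff 2 (Lam t n (p s))).im := by
    rw [hS, Complex.im_sum]
    refine Finset.sum_congr rfl fun s _ => ?_
    rw [ha s, mul_pow, Complex.I_sq]
    have e : (PowerSeries.coeff 2 (Lam t n (p s)) - -1 * (al t n (p s) : ℂ) ^ 2 / 2) =
        PowerSeries.coeff 2 (Lam t n (p s)) + ((al t n (p s) ^ 2 / 2 : ℝ) : ℂ) := by
      push_cast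
      ring
    rw [e, Complex.add_im, Complex.ofReal_im, add_zero]
  set F1 : ℂ := ∑ c, (W c : ℂ) * w1 c with hF1
  set F2 : ℂ := ∑ c, (W c : ℂ) * w2 c with hF2
  set F3 : ℂ := ∑ c, (W c : ℂ) * (w1 c * ((x c - m : ℝ) : ℂ)) with hF3
  set Ex : ℝ := ∑ c, W c * x c with hEx
  set Y : ℝ := ∑ c, W c * (x c - m) ^ 2 with hY
  have j1 : F1 + Complex.I * (Ex : ℂ) = Complex.I * m + a1 := by
    rw [← i1, hF1, hEx]
    push_cast
    rw [Finset.mul_sum, ← Finset.sum_add_distrib]
    refine Finset.sum_congr rfl fun c _ => ?_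
    ring
  have j2 : F2 + Complex.I * (F3 + m * F1) - ((Y + 2 * m * Ex - m ^ 2 : ℝ) : ℂ) / 2 =
      S + (Complex.I * m) ^ 2 / 2 + Complex.I * m * a1 + a2 := by
    rw [← i2]
    have e1 : (Y + 2 * m * Ex - m ^ 2 : ℝ) = ∑ c, W c * x c ^ 2 := by
      have e3 : ∑ c, W c * x c ^ 2 =
          ∑ c, (W c * (x c - m) ^ 2 + 2 * m * (W c * x c) - W c * m ^ 2) :=
        Finset.sum_congr rfl fun c _ => by ring
      rw [e3, Finset.sum_sub_distrib, Finset.sum_add_distrib, ← Finset.mul_sum,
        ← Finset.sum_mul, hW1, one_mul]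
    rw [e1, hF2, hF3, hF1]
    push_cast
    rw [Finset.mul_sum, ← Finset.sum_add_distrib, Finset.mul_sum, Finset.sum_div,
      ← Finset.sum_add_distrib, ← Finset.sum_sub_distrib]
    refine Finset.sum_congr rfl fun c _ => ?_
    ring
  have hb1 : ‖F1‖ ≤ B := ex_bound hp w1 (fun c => (hB _).1)
  have hb2 : ‖F2‖ ≤ B := ex_bound hp w2 (fun c => (hB _).2)
  have hmean : meanX n M p = Ex := rfl
  have hav : avg n M p (fun c => ((Xd n M c : ℝ) - m) ^ 2) = Y := rfl
  rw [hmean, hav]
  have j3 : (Ex : ℂ) - m = Complex.I * (F1 - a1) := by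
    have := Complex.I_mul_I
    linear_combination (-Complex.I) * j1 + ((Ex : ℂ) - m) * this
  constructor
  · have : ‖(Ex : ℂ) - m‖ ≤ 2 * B := by
      rw [j3, norm_mul, Complex.norm_I, one_mul]
      refine (norm_sub_le _ _).trans ?_
      have := (hB (start n)).1
      linarith
    rwa [← Complex.ofReal_sub, Complex.norm_real, Real.norm_eq_abs] at this
  · intro l hl
    have j4 : ((Y : ℝ) : ℂ) = -2 * S + 2 * (F2 - a2) + 2 * Complex.I * F3 := by
      have hI := Complex.I_mul_I
      push_cast at j2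
      linear_combination (-2 : ℂ) * j2 - 2 * (m : ℂ) * j3 - (m : ℂ) ^ 2 * hI
    have j5 := congrArg Complex.re j4
    rw [Complex.ofReal_re] at j5
    have e5 : (-2 * S + 2 * (F2 - a2) + 2 * Complex.I * F3).re =
        -2 * S.re + 2 * (F2 - a2).re - 2 * F3.im := by
      simp only [Complex.add_re, Complex.mul_re, Complex.sub_re, Complex.neg_re, Complex.neg_im,
        Complex.re_ofNat, Complex.im_ofNat, Complex.I_re, Complex.I_im, Complex.mul_im]
      ring
    rw [e5, hSre] at j5
    have e6 : Y - ∑ s ∈ Finset.range M, vv t n (p s) = 2 * (F2 - a2).re - 2 * F3.im := by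
      linarith
    rw [e6]
    have b3 : |(F2 - a2).re| ≤ 2 * B := by
      refine (Complex.abs_re_le_norm _).trans ((norm_sub_le _ _).trans ?_)
      have := (hB (start n)).2
      linarith
    have b4 : ‖F3‖ ≤ B * ((l + Y / l) / 2) := by
      rw [hF3]
      refine (norm_sum_le _ _).trans ?_
      calc ∑ c, ‖(W c : ℂ) * (w1 c * ((x c - m : ℝ) : ℂ))‖
          ≤ ∑ c, W c * (B * ((l + (x c - m) ^ 2 / l) / 2)) := by
            refine Finset.sum_le_sum fun c _ => ?_
            rw [norm_mul, norm_mul, Complex.norm_real, Complex.norm_real, Real.norm_eq_abs,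
              Real.norm_eq_abs, abs_of_nonneg (hW0 c)]
            apply mul_le_mul_of_nonneg_left _ (hW0 c)
            have e7 : |x c - m| ≤ (l + (x c - m) ^ 2 / l) / 2 := by
              rw [le_div_iff₀ (by norm_num)]
              have e8 : l + (x c - m) ^ 2 / l - |x c - m| * 2 = (l - |x c - m|) ^ 2 / l := by
                rw [← sq_abs (x c - m)]
                field_simp
                ring
              have : 0 ≤ (l - |x c - m|) ^ 2 / l := by positivity
              linarith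
            exact mul_le_mul (hB _).1 e7 (abs_nonneg _) hB0
        _ = B * ((l + Y / l) / 2) := by
            have e9 : ∀ c, W c * (B * ((l + (x c - m) ^ 2 / l) / 2)) =
                (B * l / 2) * W c + (B / (2 * l)) * (W c * (x c - m) ^ 2) := by
              intro c
              field_simp
            rw [Finset.sum_congr rfl fun c _ => e9 c, Finset.sum_add_distrib, ← Finset.mul_sum,
              ← Finset.mul_sum, hW1, ← hY]
            field_simp
    have b5 := (Complex.abs_im_le_norm F3).trans b4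
    have b6 := abs_sub (2 * (F2 - a2).re) (2 * F3.im)
    rw [abs_mul, abs_mul, abs_two] at b6
    refine ⟨by linarith, ?_⟩
    have j6 := congrArg Complex.im j4
    rw [Complex.ofReal_im] at j6
    have e7 : (-2 * S + 2 * (F2 - a2) + 2 * Complex.I * F3).im =
        -2 * S.im + 2 * (F2 - a2).im + 2 * F3.re := by
      simp only [Complex.add_im, Complex.mul_re, Complex.sub_im, Complex.neg_re, Complex.neg_im,
        Complex.re_ofNat, Complex.im_ofNat, Complex.I_re, Complex.I_im, Complex.mul_im]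
      ring
    rw [e7, hSim] at j6
    have e8 : ∑ s ∈ Finset.range M, (PowerSeries.coeff 2 (Lam t n (p s))).im =
        (F2 - a2).im + F3.re := by linarith
    rw [e8]
    have b7 : |(F2 - a2).im| ≤ 2 * B := by
      refine (Complex.abs_im_le_norm _).trans ((norm_sub_le _ _).trans ?_)
      have := (hB (start n)).2
      linarith
    have b8 := (Complex.abs_re_le_norm F3).trans b4
    have b9 : 0 ≤ B * (l + Y / l) := by
      have hY0 : 0 ≤ Y := Finset.sum_nonneg fun c _ => mul_nonneg (hW0 c) (sq_nonneg _)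
      positivity
    refine (abs_add_le _ _).trans ?_
    linarith

end

end Pool.Agent.Helper21.LK
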