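import Pool.Agent.Helper21.LK.Bound

/-!
# The reflection symmetry
-/

namespace Pool.Agent.Helper21.LK

open H906K Pool.Agent.H974R3 Polynomial

theorem jx_val (m : ℕ) (j : ℤ) : ((jx m j : ℕ) : ℤ) = j % ((m : ℤ) + 1) := by
  unfold jx
  have h1 := Int.emod_nonneg j (show ((m : ℤ) + 1) ≠ 0 by omega)
  simp only
  omega

theorem jx_congr {m : ℕ} {i j : ℤ} (h : i % ((m : ℤ) + 1) = j % ((m : ℤ) + 1)) :
    jx m i = jx m j := by
  apply Fin.ext
  have h1 := jx_val m i
  have h2 := jx_val m j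
  have : ((jx m i : ℕ) : ℤ) = ((jx m j : ℕ) : ℤ) := by rw [h1, h2, h]
  exact_mod_cast this

theorem jx_self (m : ℕ) (j : Fin (m + 1)) : jx m ((j : ℕ) : ℤ) = j := by
  apply Fin.ext
  have h1 := jx_val m ((j : ℕ) : ℤ)
  have h2 : ((j : ℕ) : ℤ) % ((m : ℤ) + 1) = ((j : ℕ) : ℤ) := by
    apply Int.emod_eq_of_lt (by positivity)
    have := j.2
    omega
  rw [h2] at h1
  exact_mod_cast h1

/-- the reflection of the positions -/
def rf (n : ℕ) (j : Fin (2 * n + 1)) : Fin (2 * n + 1) := jx (2 * n) (4 * n - ((j : ℕ) : ℤ))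

theorem rf_jx (n : ℕ) (j : ℤ) : rf n (jx (2 * n) j) = jx (2 * n) (4 * n - j) := by
  unfold rf
  apply jx_congr
  rw [jx_val]
  have := Int.emod_emod_of_dvd j (dvd_refl (((2 * n : ℕ) : ℤ) + 1))
  rw [Int.sub_emod, this, ← Int.sub_emod]

theorem rf_rf (n : ℕ) (j : Fin (2 * n + 1)) : rf n (rf n j) = j := by
  conv_lhs => rw [← jx_self (2 * n) j]
  rw [rf_jx, rf_jx]
  rw [show (4 * (n : ℤ) - (4 * n - ((j : ℕ) : ℤ))) = ((j : ℕ) : ℤ) by ring]
  exact jx_self (2 * n) j

/-- the reflection of the configurations -/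
def rc {n M : ℕ} (c : Fin M → Fin (2 * n + 1) → Bool) : Fin M → Fin (2 * n + 1) → Bool :=
  fun t j => !(c t (rf n j))

theorem rc_rc {n M : ℕ} (c : Fin M → Fin (2 * n + 1) → Bool) : rc (rc c) = c := by
  funext t j
  unfold rc
  rw [rf_rf, Bool.not_not]

/-- the reflection of the edges -/
def rE (n : ℕ) : Edg → Edg
  | Edg.v j t => Edg.v (4 * n - j) t
  | Edg.h j t => Edg.h (4 * n + 1 - j) t

theorem rc_jx {n M : ℕ} (c : Fin M → Fin (2 * n + 1) → Bool) (t : Fin M) (j : ℤ) :
    rc c t (jx (2 * n) (4 * n - j)) = !(c t (jx (2 * n) j)) := by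
  unfold rc
  rw [rf_jx]
  rw [show (4 * (n : ℤ) - (4 * n - j)) = j by ring]

theorem link_refl {n M : ℕ} {c : Fin M → Fin (2 * n + 1) → Bool} {a b : Edg}
    (h : Link n M c a b) : Link n M (rc c) (rE n a) (rE n b) ∨
      Link n M (rc c) (rE n b) (rE n a) := by
  cases h with
  | br j t h =>
    left
    have h1 := Link.bl (n := n) (M := M) (c := rc c) (4 * n - j) t (by rw [rc_jx, h]; rfl)
    simp only [rE]
    rw [show (4 * (n : ℤ) + 1 - (j + 1)) = 4 * n - j by ring]
    exact h1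
  | lt j t h =>
    left
    have h1 := Link.rt (n := n) (M := M) (c := rc c) (4 * n - j) t (by rw [rc_jx, h]; rfl)
    simp only [rE]
    rw [show (4 * (n : ℤ) + 1 - j) = 4 * n - j + 1 by ring]
    exact h1
  | bl j t h =>
    left
    have h1 := Link.br (n := n) (M := M) (c := rc c) (4 * n - j) t (by rw [rc_jx, h]; rfl)
    simp only [rE]
    rw [show (4 * (n : ℤ) + 1 - j) = 4 * n - j + 1 by ring]
    exact h1
  | rt j t h =>
    left
    have h1 := Link.lt (n := n) (M := M) (c := rc c) (4 * n - j) t (by rw [rc_jx, h]; rfl)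
    simp only [rE]
    rw [show (4 * (n : ℤ) + 1 - (j + 1)) = 4 * n - j by ring]
    exact h1
  | bot k i hi =>
    right
    have h1 := Link.bot (n := n) (M := M) (c := rc c) (1 - k) (n - 1 - i) (by omega)
    simp only [rE]
    have e : (((n - 1 - i : ℕ)) : ℤ) = (n : ℤ) - 1 - i := by omega
    rw [e] at h1
    rw [show (4 * (n : ℤ) - (k * (2 * n + 1) + 2 * i + 1)) =
      (1 - k) * (2 * n + 1) + 2 * (n - 1 - i) by ring,
      show (4 * (n : ℤ) - (k * (2 * n + 1) + 2 * i)) =
      (1 - k) * (2 * n + 1) + 2 * (n - 1 - i) + 1 by ring]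
    exact h1

theorem end_refl {n M : ℕ} {c : Fin M → Fin (2 * n + 1) → Bool} {X : ℤ}
    (h : End n M c X) : End n M (rc c) (-X) := by
  unfold End at *
  have key : ∀ a b : Edg, Relation.EqvGen (Link n M c) a b →
      Relation.EqvGen (Link n M (rc c)) (rE n a) (rE n b) := by
    intro a b hab
    induction hab with
    | rel a b h =>
      rcases link_refl h with h | h
      · exact Relation.EqvGen.rel _ _ h
      · exact Relation.EqvGen.symm _ _ (Relation.EqvGen.rel _ _ h)
    | refl a => exact Relation.EqvGen.refl _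
    | symm a b _ ih => exact Relation.EqvGen.symm _ _ ih
    | trans a b c _ _ ih1 ih2 => exact Relation.EqvGen.trans _ _ _ ih1 ih2
  have h1 := key _ _ h
  simp only [rE] at h1
  rw [show (4 * (n : ℤ) - 2 * n) = 2 * n by ring,
    show (4 * (n : ℤ) - (2 * n + X)) = 2 * n + -X by ring] at h1
  exact h1

theorem Xd_refl {n M : ℕ} (c : Fin M → Fin (2 * n + 1) → Bool) : Xd n M (rc c) = - Xd n M c := by
  have h1 : End n M c (Xd n M c) := (end_run n M c _).2 (Xd_run n M c)
  have h2 := end_refl h1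
  rw [Xd_run n M (rc c)]
  exact ((end_run n M (rc c) _).1 h2).symm

theorem weight_refl {n M : ℕ} (p : ℕ → ℝ) (c : Fin M → Fin (2 * n + 1) → Bool) :
    weight n M p (rc c) = weight n M (fun t => 1 - p t) c := by
  unfold weight
  refine Finset.prod_congr rfl fun t _ => ?_
  refine Finset.prod_bij' (fun j _ => rf n j) (fun j _ => rf n j) (by simp) (by simp)
    (by simp [rf_rf]) (by simp [rf_rf]) ?_
  intro j _
  unfold rc
  cases c t (rf n j) <;> simp

theorem avg_refl {n M : ℕ} (p : ℕ → ℝ) (f : (Fin M → Fin (2 * n + 1) → Bool) → ℝ) :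
    avg n M (fun t => 1 - p t) f = avg n M p (fun c => f (rc c)) := by
  unfold avg
  refine Finset.sum_bij' (fun c _ => rc c) (fun c _ => rc c) (by simp) (by simp)
    (by simp [rc_rc]) (by simp [rc_rc]) ?_
  intro c _
  simp only [weight_refl, rc_rc]

theorem mean_refl (n M : ℕ) (p : ℕ → ℝ) :
    meanX n M (fun t => 1 - p t) = - meanX n M p := by
  unfold meanX
  rw [avg_refl]
  unfold avg
  rw [← Finset.sum_neg_distrib]
  refine Finset.sum_congr rfl fun c _ => ?_
  simp only [Xd_refl]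
  push_cast
  ring

theorem var_refl (n M : ℕ) (p : ℕ → ℝ) :
    varX n M (fun t => 1 - p t) = varX n M p := by
  unfold varX
  rw [mean_refl, avg_refl, neg_sq]
  congr 1
  unfold avg
  refine Finset.sum_congr rfl fun c _ => ?_
  simp only [Xd_refl]
  push_cast
  ring

/-- a number whose multiples grow slower than `√M` is zero -/
theorem zero_of_sqrt {a D : ℝ} (h : ∀ M : ℕ, M * |a| ≤ D * Real.sqrt (M + 1)) : a = 0 := by
  by_contra hne
  have hpos : 0 < |a| := abs_pos.2 hne
  have hD : 0 ≤ D := by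
    have := h 0
    simp at this
    exact this
  obtain ⟨M, hM⟩ := exists_nat_gt (4 * (D / |a|) ^ 2 + 1)
  have h1 := h M
  have hM0 : (1 : ℝ) ≤ M := by
    have : 0 ≤ 4 * (D / |a|) ^ 2 := by positivity
    linarith
  have h2 : (M : ℝ) ≤ (D / |a|) * Real.sqrt (M + 1) := by
    rw [div_mul_eq_mul_div, le_div_iff₀ hpos]
    exact h1
  have h3 : (M : ℝ) ^ 2 ≤ (D / |a|) ^ 2 * (M + 1) := by
    have := pow_le_pow_left₀ (by linarith) h2 2
    rw [mul_pow, Real.sq_sqrt (by linarith)] at this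
    exact this
  nlinarith [sq_nonneg (D / |a|)]

section
variable {n : ℕ} {w : Pat (2 * n + 1) → PowerSeries ℂ} {t : (PowerSeries ℂ)[X]}

theorem al_refl (hw : ∀ σ, PowerSeries.coeff 0 (w σ) = 1)
    (h : ∀ x : ℂ, (TL (2 * n) (PowerSeries.C om) (PowerSeries.C x) ez).vecMul w =
      (t.eval (PowerSeries.C x)) • w) {p : ℝ} (h0 : 0 ≤ p) (h1 : p ≤ 1) :
    al t n (1 - p) = - al t n p ∧ vv t n (1 - p) = vv t n p := by
  obtain ⟨D, hD0, hD⟩ := bounds hw h
  constructor
  · have : al t n (1 - p) + al t n p = 0 := by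
      apply zero_of_sqrt (D := 2 * D)
      intro M
      have e1 := (hD (fun _ => p) (fun _ => ⟨h0, h1⟩) M).1
      have e2 := (hD (fun _ => 1 - p) (fun _ => ⟨by linarith, by linarith⟩) M).1
      have e3 := mean_refl n M (fun _ => p)
      rw [e3] at e2
      simp only [Finset.sum_const, Finset.card_range, nsmul_eq_mul] at e1 e2
      have hs : 1 ≤ Real.sqrt (M + 1) := by
        rw [Real.one_le_sqrt]
        have : (0 : ℝ) ≤ M := Nat.cast_nonneg M
        linarith
      rw [show (M : ℝ) * |al t n (1 - p) + al t n p| = |M * (al t n (1 - p) + al t n p)| by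
        rw [abs_mul, Nat.abs_cast]]
      have e4 : |M * (al t n (1 - p) + al t n p)| ≤ 2 * D := by
        have e5 : M * (al t n (1 - p) + al t n p) = -(meanX n M (fun _ => p) - M * al t n p)
          + -(-meanX n M (fun _ => p) - M * al t n (1 - p)) := by ring
        rw [e5]
        refine (abs_add_le _ _).trans ?_
        rw [abs_neg, abs_neg]
        linarith
      nlinarith
    linarith
  · have : vv t n (1 - p) - vv t n p = 0 := by
      apply zero_of_sqrt (D := 2 * D)
      intro M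
      have e1 := (hD (fun _ => p) (fun _ => ⟨h0, h1⟩) M).2.1
      have e2 := (hD (fun _ => 1 - p) (fun _ => ⟨by linarith, by linarith⟩) M).2.1
      have e3 := var_refl n M (fun _ => p)
      rw [e3] at e2
      simp only [Finset.sum_const, Finset.card_range, nsmul_eq_mul] at e1 e2
      rw [show (M : ℝ) * |vv t n (1 - p) - vv t n p| = |M * (vv t n (1 - p) - vv t n p)| by
        rw [abs_mul, Nat.abs_cast]]
      have e5 : M * (vv t n (1 - p) - vv t n p) = (varX n M (fun _ => p) - M * vv t n p)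
          - (varX n M (fun _ => p) - M * vv t n (1 - p)) := by ring
      rw [e5]
      refine (abs_sub _ _).trans ?_
      linarith
    linarith

theorem im_zero (hw : ∀ σ, PowerSeries.coeff 0 (w σ) = 1)
    (h : ∀ x : ℂ, (TL (2 * n) (PowerSeries.C om) (PowerSeries.C x) ez).vecMul w =
      (t.eval (PowerSeries.C x)) • w) {p : ℝ} (h0 : 0 ≤ p) (h1 : p ≤ 1) :
    (PowerSeries.coeff 2 (Lam t n p)).im = 0 := by
  obtain ⟨D, hD0, hD⟩ := bounds hw h
  apply zero_of_sqrt (D := D)
  intro M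
  have e1 := (hD (fun _ => p) (fun _ => ⟨h0, h1⟩) M).2.2
  rw [Finset.sum_const, Finset.card_range, nsmul_eq_mul, abs_mul, Nat.abs_cast] at e1
  exact e1

theorem varX_nonneg {M : ℕ} {p : ℕ → ℝ} (hp : ∀ s, 0 ≤ p s ∧ p s ≤ 1) : 0 ≤ varX n M p := by
  rw [var_eq M p (meanX n M p), sub_self]
  have : 0 ≤ avg n M p (fun c => ((Xd n M c : ℝ) - meanX n M p) ^ 2) :=
    avg_nonneg hp _ fun c => sq_nonneg _
  linarith [this, sq_nonneg (0 : ℝ)]

theorem vv_nonneg (hw : ∀ σ, PowerSeries.coeff 0 (w σ) = 1)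
    (h : ∀ x : ℂ, (TL (2 * n) (PowerSeries.C om) (PowerSeries.C x) ez).vecMul w =
      (t.eval (PowerSeries.C x)) • w) {p : ℝ} (h0 : 0 ≤ p) (h1 : p ≤ 1) : 0 ≤ vv t n p := by
  obtain ⟨D, hD0, hD⟩ := bounds hw h
  by_contra hneg
  rw [not_le] at hneg
  have : min (vv t n p) 0 = 0 := by
    apply zero_of_sqrt (D := D)
    intro M
    have e1 := (hD (fun _ => p) (fun _ => ⟨h0, h1⟩) M).2.1
    rw [Finset.sum_const, Finset.card_range, nsmul_eq_mul] at e1
    have e2 := varX_nonneg (n := n) (M := M) (p := fun _ => p) (fun _ => ⟨h0, h1⟩)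
    rw [min_eq_left hneg.le, abs_of_neg hneg]
    have := (abs_le.1 e1).2
    linarith
  rw [min_eq_left hneg.le] at this
  linarith

end

end Pool.Agent.Helper21.LK
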