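import Pool.Agent.Helper21.LK.Left
import Pool.Agent.Helper21.LK.Defs

/-!
# The exact martingale of the displacement
-/

namespace Pool.Agent.Helper21.LK

open H906K Pool.Agent.H974R3 Polynomial

/-- the spectral parameter of the bias `p` -/
noncomputable def xp (p : ℝ) : ℂ := -((p : ℂ) + om) / ((p : ℂ) + om ^ 2)

theorem om_rel : om ^ 2 = -om - 1 := by
  have := e2_om
  linear_combination this

theorem den_ne (p : ℝ) : ((p : ℂ) + om ^ 2) ≠ 0 := by
  intro h
  have h1 := congrArg Complex.im h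
  rw [om_rel] at h1
  simp [om] at h1

theorem one_add_xp (p : ℝ) : 1 + xp p = (om ^ 2 - om) / ((p : ℂ) + om ^ 2) := by
  have h := den_ne p
  unfold xp
  field_simp
  ring

theorem om_sub_ne : om ^ 2 - om ≠ 0 := by
  intro h
  have h1 := congrArg Complex.im h
  rw [om_rel] at h1
  simp [om] at h1
  have h3 : Real.sqrt 3 ≠ 0 := by positivity
  apply h3
  linarith

theorem one_add_xp_ne (p : ℝ) : 1 + xp p ≠ 0 := by
  rw [one_add_xp]
  exact div_ne_zero om_sub_ne (den_ne p)

theorem wt_xp (p : ℝ) (b : Bool) :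
    wt om b (xp p) = (1 + xp p) * ((if b = true then p else 1 - p : ℝ) : ℂ) := by
  have h := den_ne p
  have hx : xp p * ((p : ℂ) + om ^ 2) = -((p : ℂ) + om) := by
    unfold xp
    rw [div_mul_cancel₀ _ h]
  cases b
  · simp only [wt, Bool.false_eq_true, if_false]
    push_cast
    linear_combination (-(1 : ℂ) - xp p) * e2_om + hx
  · simp only [wt, if_true]
    linear_combination -hx

/-- the weight of a row -/
noncomputable def rowW (n : ℕ) (p : ℝ) (r : Fin (2 * n + 1) → Bool) : ℝ :=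
  ∏ j, if r j = true then p else 1 - p

theorem sum_rowW (n : ℕ) (p : ℝ) : ∑ r, rowW n p r = 1 := by
  unfold rowW
  have h := Finset.prod_univ_sum (fun _ : Fin (2 * n + 1) => (Finset.univ : Finset Bool))
    (fun _ b => if b = true then p else 1 - p)
  rw [Fintype.piFinset_univ] at h
  rw [← h]
  simp

theorem rowW_nonneg {n : ℕ} {p : ℝ} (h0 : 0 ≤ p) (h1 : p ≤ 1) (r : Fin (2 * n + 1) → Bool) :
    0 ≤ rowW n p r := by
  unfold rowW
  refine Finset.prod_nonneg fun j _ => ?_
  split_ifs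
  · exact h0
  · linarith

theorem prod_wt (n : ℕ) (p : ℝ) (r : Fin (2 * n + 1) → Bool) :
    ∏ j, wt (PowerSeries.C om) (r j) (PowerSeries.C (xp p)) =
      PowerSeries.C ((1 + xp p) ^ (2 * n + 1)) * PowerSeries.C ((rowW n p r : ℝ) : ℂ) := by
  have h1 : ∀ b : Bool, wt (PowerSeries.C om) b (PowerSeries.C (xp p)) =
      PowerSeries.C (wt om b (xp p)) := by
    intro b
    cases b <;> simp [wt]
  simp only [h1, wt_xp]
  rw [← map_prod, ← map_mul]
  congr 1
  unfold rowW
  rw [Finset.prod_mul_distrib, Finset.prod_const, Finset.card_univ, Fintype.card_fin]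
  push_cast
  rfl

/-- the normalized eigenvalue at the bias `p` -/
noncomputable def Lam (t : (PowerSeries ℂ)[X]) (n : ℕ) (p : ℝ) : PowerSeries ℂ :=
  PowerSeries.C (((1 + xp p) ^ (2 * n + 1))⁻¹) * t.eval (PowerSeries.C (xp p))

section
variable {n : ℕ} {w : Pat (2 * n + 1) → PowerSeries ℂ} {t : (PowerSeries ℂ)[X]}

theorem row_id (h : ∀ x : ℂ, (TL (2 * n) (PowerSeries.C om) (PowerSeries.C x) ez).vecMul w =
      (t.eval (PowerSeries.C x)) • w) (p : ℝ) (σ : Pat (2 * n + 1)) :
    ∑ r, PowerSeries.C ((rowW n p r : ℝ) : ℂ) *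
      (w (Tc (2 * n) r σ) * expI (dTc (2 * n) r σ)) = Lam t n p * w σ := by
  have h1 := congrFun (h (xp p)) σ
  rw [Pi.smul_apply, smul_eq_mul] at h1
  have h2 : (TL (2 * n) (PowerSeries.C om) (PowerSeries.C (xp p)) ez).vecMul w σ =
      PowerSeries.C ((1 + xp p) ^ (2 * n + 1)) * ∑ r, PowerSeries.C ((rowW n p r : ℝ) : ℂ) *
      (w (Tc (2 * n) r σ) * expI (dTc (2 * n) r σ)) := by
    show ∑ τ, w τ * TL (2 * n) (PowerSeries.C om) (PowerSeries.C (xp p)) ez τ σ = _
    simp only [TL, prod_wt, p2_ez, Finset.mul_sum]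
    rw [Finset.sum_comm]
    refine Finset.sum_congr rfl fun r _ => ?_
    rw [Finset.sum_eq_single (Tc (2 * n) r σ)]
    · simp only [if_true]
      ring
    · intro τ _ hτ
      rw [if_neg (Ne.symm hτ), mul_zero]
    · intro h; exact absurd (Finset.mem_univ _) h
  have h3 : PowerSeries.C (((1 + xp p) ^ (2 * n + 1))⁻¹) *
      PowerSeries.C ((1 + xp p) ^ (2 * n + 1)) = (1 : PowerSeries ℂ) := by
    rw [← map_mul, inv_mul_cancel₀ (pow_ne_zero _ (one_add_xp_ne p)), map_one]
  unfold Lam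
  rw [mul_assoc, ← h1, h2, ← mul_assoc, h3, one_mul]

theorem weight_snoc (M : ℕ) (p : ℕ → ℝ) (c : Fin M → Fin (2 * n + 1) → Bool)
    (r : Fin (2 * n + 1) → Bool) :
    weight n (M + 1) p (Fin.snoc (α := fun _ => Fin (2 * n + 1) → Bool) c r) =
      weight n M p c * rowW n (p M) r := by
  unfold weight rowW
  rw [Fin.prod_univ_castSucc]
  simp

theorem sum_weight (M : ℕ) (p : ℕ → ℝ) : ∑ c, weight n M p c = 1 := by
  induction M with
  | zero => simp [weight]
  | succ M ih =>
    rw [p2_snoc]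
    simp only [weight_snoc, ← Finset.mul_sum, sum_rowW, mul_one]
    exact ih

theorem weight_nonneg {M : ℕ} {p : ℕ → ℝ} (hp : ∀ t, 0 ≤ p t ∧ p t ≤ 1)
    (c : Fin M → Fin (2 * n + 1) → Bool) : 0 ≤ weight n M p c :=
  Finset.prod_nonneg fun t _ => rowW_nonneg (hp t).1 (hp t).2 _

theorem all_id (h : ∀ x : ℂ, (TL (2 * n) (PowerSeries.C om) (PowerSeries.C x) ez).vecMul w =
      (t.eval (PowerSeries.C x)) • w) (p : ℕ → ℝ) (σ : Pat (2 * n + 1)) (M : ℕ) :
    ∑ c, PowerSeries.C ((weight n M p c : ℝ) : ℂ) *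
      (w (run (2 * n) M c σ).1 * expI ((run (2 * n) M c σ).2 : ℂ)) =
      (∏ s ∈ Finset.range M, Lam t n (p s)) * w σ := by
  induction M with
  | zero => simp [run, expI_zero, weight]
  | succ M ih =>
    rw [p2_snoc, Finset.prod_range_succ, mul_comm (∏ s ∈ Finset.range M, Lam t n (p s)), mul_assoc,
      ← ih, Finset.mul_sum]
    refine Finset.sum_congr rfl fun c _ => ?_
    simp only [p2_run, weight_snoc]
    have h1 := row_id h (p M) (run (2 * n) M c σ).1
    calc _ = PowerSeries.C ((weight n M p c : ℝ) : ℂ) * expI ((run (2 * n) M c σ).2 : ℂ) *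
          ∑ r, PowerSeries.C ((rowW n (p M) r : ℝ) : ℂ) *
            (w (Tc (2 * n) r (run (2 * n) M c σ).1) *
              expI (dTc (2 * n) r (run (2 * n) M c σ).1)) := by
          rw [Finset.mul_sum]
          refine Finset.sum_congr rfl fun r _ => ?_
          push_cast
          rw [← expI_mul, map_mul]
          ring
      _ = _ := by
          rw [h1]
          ring

/-! ### coefficients -/

theorem lam_zero (hw : ∀ σ, PowerSeries.coeff 0 (w σ) = 1)
    (h : ∀ x : ℂ, (TL (2 * n) (PowerSeries.C om) (PowerSeries.C x) ez).vecMul w =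
      (t.eval (PowerSeries.C x)) • w) (p : ℝ) : PowerSeries.coeff 0 (Lam t n p) = 1 := by
  have h1 := congrArg (PowerSeries.coeff 0) (row_id h p (start n))
  rw [map_sum, p2_mul0, hw, mul_one] at h1
  rw [← h1]
  simp only [p2_mul0, hw, p2_exp0, mul_one, PowerSeries.coeff_zero_C]
  rw [← Complex.ofReal_sum, sum_rowW, Complex.ofReal_one]

theorem prod_coeff (f : ℕ → PowerSeries ℂ) (hf : ∀ s, PowerSeries.coeff 0 (f s) = 1) (M : ℕ) :
    PowerSeries.coeff 0 (∏ s ∈ Finset.range M, f s) = 1 ∧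
    PowerSeries.coeff 1 (∏ s ∈ Finset.range M, f s) =
      ∑ s ∈ Finset.range M, PowerSeries.coeff 1 (f s) ∧
    PowerSeries.coeff 2 (∏ s ∈ Finset.range M, f s) =
      ∑ s ∈ Finset.range M, (PowerSeries.coeff 2 (f s) - PowerSeries.coeff 1 (f s) ^ 2 / 2) +
        (∑ s ∈ Finset.range M, PowerSeries.coeff 1 (f s)) ^ 2 / 2 := by
  induction M with
  | zero => simp [PowerSeries.coeff_one]
  | succ M ih =>
    obtain ⟨i0, i1, i2⟩ := ih
    simp only [Finset.prod_range_succ, Finset.sum_range_succ, p2_mul0, p2_mul1, p2_mul2, i0, i1, i2,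
      hf]
    refine ⟨by ring, by ring, by ring⟩

end

end Pool.Agent.Helper21.LK
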