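import Pool.Graph.R_seed8.H906R3.K6.A2b
import Pool.Graph.R_seed8.H906R3.K6.G3a

/-!
# Analytic continuation of the convolution with the kernel
-/

namespace Pool.Agent.Helper21.LK

open H906K MeasureTheory Filter Topology

/-- the kernel at complex arguments -/
noncomputable def kc (z : ℂ) : ℂ := 3 / (4 * Real.pi * Complex.cosh (3 * z / 2))

/-- its derivative -/
noncomputable def kc' (z : ℂ) : ℂ :=
  -(3 / 2 * (Complex.sinh (3 * z / 2) / Complex.cosh (3 * z / 2))) * kc z

theorem normSq_cosh (x y : ℝ) :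
    Complex.normSq (Complex.cosh (x + y * Complex.I)) = Real.cosh x ^ 2 - Real.sin y ^ 2 := by
  rw [Complex.cosh_add, Complex.cosh_mul_I, Complex.sinh_mul_I, Complex.normSq_apply]
  have h1 := Real.cosh_sq x
  have h2 := Real.sin_sq_add_cos_sq y
  simp only [← Complex.ofReal_cosh, ← Complex.ofReal_sinh, ← Complex.ofReal_cos,
    ← Complex.ofReal_sin, Complex.add_re, Complex.add_im, Complex.mul_re, Complex.mul_im,
    Complex.ofReal_re, Complex.ofReal_im, Complex.I_re, Complex.I_im]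
  ring_nf
  nlinarith

theorem normSq_sinh (x y : ℝ) :
    Complex.normSq (Complex.sinh (x + y * Complex.I)) = Real.sinh x ^ 2 + Real.sin y ^ 2 := by
  rw [Complex.sinh_add, Complex.cosh_mul_I, Complex.sinh_mul_I, Complex.normSq_apply]
  have h1 := Real.cosh_sq x
  have h2 := Real.sin_sq_add_cos_sq y
  simp only [← Complex.ofReal_cosh, ← Complex.ofReal_sinh, ← Complex.ofReal_cos,
    ← Complex.ofReal_sin, Complex.add_re, Complex.add_im, Complex.mul_re, Complex.mul_im,
    Complex.ofReal_re, Complex.ofReal_im, Complex.I_re, Complex.I_im]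
  ring_nf
  nlinarith

theorem norm_cosh_ge {x y : ℝ} (hc : 0 ≤ Real.cos y) :
    Real.cos y * Real.cosh x ≤ ‖Complex.cosh (x + y * Complex.I)‖ := by
  have h0 : 0 ≤ Real.cosh x := (Real.cosh_pos x).le
  rw [← Real.sqrt_sq (mul_nonneg hc h0), Complex.norm_def, normSq_cosh]
  apply Real.sqrt_le_sqrt
  have h1 := Real.cosh_sq x
  have h2 := Real.sin_sq_add_cos_sq y
  have h3 : 0 ≤ Real.sin y ^ 2 * Real.sinh x ^ 2 := by positivity
  have h4 : Real.cosh x ^ 2 - Real.sin y ^ 2 - (Real.cos y * Real.cosh x) ^ 2 =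
      Real.sin y ^ 2 * Real.sinh x ^ 2 := by
    have e : Real.cos y ^ 2 = 1 - Real.sin y ^ 2 := by linarith
    rw [mul_pow, e, h1]
    ring
  linarith

theorem norm_sinh_le (x y : ℝ) : ‖Complex.sinh (x + y * Complex.I)‖ ≤ Real.cosh x := by
  have h0 : 0 ≤ Real.cosh x := (Real.cosh_pos x).le
  rw [← Real.sqrt_sq h0, Complex.norm_def, normSq_sinh]
  apply Real.sqrt_le_sqrt
  have h1 := Real.cosh_sq x
  have h2 := Real.sin_sq_le_one y
  linarith

theorem arg_eq (z : ℂ) : 3 * z / 2 = ((3 * z.re / 2 : ℝ) : ℂ) +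
    ((3 * z.im / 2 : ℝ) : ℂ) * Complex.I := by
  apply Complex.ext
  · simp
  · simp

theorem cosh_ne {z : ℂ} (hz : 0 < Real.cos (3 * z.im / 2)) : Complex.cosh (3 * z / 2) ≠ 0 := by
  rw [← norm_pos_iff, arg_eq]
  refine lt_of_lt_of_le ?_ (norm_cosh_ge hz.le)
  have := Real.cosh_pos (3 * z.re / 2)
  positivity

theorem kc_le {z : ℂ} (hz : 0 < Real.cos (3 * z.im / 2)) :
    ‖kc z‖ ≤ kk z.re / Real.cos (3 * z.im / 2) := by
  unfold kc kk
  have hpi := Real.pi_pos
  have hc := Real.cosh_pos (3 * z.re / 2)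
  rw [norm_div, norm_mul, norm_mul, Complex.norm_real, Real.norm_eq_abs, abs_of_pos hpi, arg_eq]
  have h1 := norm_cosh_ge (x := 3 * z.re / 2) hz.le
  rw [div_div]
  have h3 : ‖(3 : ℂ)‖ = 3 := by simp
  have h4 : ‖(4 : ℂ)‖ = 4 := by simp
  rw [h3, h4]
  apply div_le_div_of_nonneg_left (by norm_num) (by positivity)
  have : 0 < 4 * Real.pi := by positivity
  calc 4 * Real.pi * Real.cosh (3 * z.re / 2) * Real.cos (3 * z.im / 2)
      = 4 * Real.pi * (Real.cos (3 * z.im / 2) * Real.cosh (3 * z.re / 2)) := by ring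
    _ ≤ _ := mul_le_mul_of_nonneg_left h1 this.le

theorem kc'_le {z : ℂ} (hz : 0 < Real.cos (3 * z.im / 2)) :
    ‖kc' z‖ ≤ 3 / 2 * kk z.re / Real.cos (3 * z.im / 2) ^ 2 := by
  unfold kc'
  have h1 := kc_le hz
  have hc := Real.cosh_pos (3 * z.re / 2)
  have h2 : ‖Complex.sinh (3 * z / 2) / Complex.cosh (3 * z / 2)‖ ≤
      1 / Real.cos (3 * z.im / 2) := by
    rw [norm_div, arg_eq, div_le_div_iff₀ (by
      refine lt_of_lt_of_le ?_ (norm_cosh_ge hz.le)
      positivity) hz]
    have h3 := norm_cosh_ge (x := 3 * z.re / 2) hz.le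
    have h4 := norm_sinh_le (3 * z.re / 2) (3 * z.im / 2)
    nlinarith
  rw [norm_mul, norm_neg, norm_mul]
  have h5 : ‖(3 / 2 : ℂ)‖ = 3 / 2 := by simp
  rw [h5]
  have hk := kk_pos z.re
  calc 3 / 2 * ‖Complex.sinh (3 * z / 2) / Complex.cosh (3 * z / 2)‖ * ‖kc z‖
      ≤ 3 / 2 * (1 / Real.cos (3 * z.im / 2)) * (kk z.re / Real.cos (3 * z.im / 2)) := by
        gcongr
    _ = _ := by ring

theorem kc_deriv {z : ℂ} (hz : 0 < Real.cos (3 * z.im / 2)) : HasDerivAt kc (kc' z) z := by
  have h1 : HasDerivAt (fun z : ℂ => 3 * z / 2) (3 / 2) z := by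
    have := ((hasDerivAt_id z).const_mul 3).div_const 2
    simpa using this
  have h2 := ((h1.ccosh)).const_mul ((4 : ℂ) * Real.pi)
  have hc := cosh_ne hz
  have hpi : (Real.pi : ℂ) ≠ 0 := by exact_mod_cast Real.pi_ne_zero
  have h3 := (hasDerivAt_const z (3 : ℂ)).div h2 (by
    refine mul_ne_zero (mul_ne_zero (by norm_num) hpi) hc)
  refine h3.congr_deriv ?_
  unfold kc' kc
  field_simp
  ring

theorem kc_cont {z : ℂ} (hz : 0 < Real.cos (3 * z.im / 2)) :
    Continuous (fun u : ℝ => kc (z - u)) := by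
  rw [continuous_iff_continuousAt]
  intro u
  have h1 : 0 < Real.cos (3 * (z - (u : ℂ)).im / 2) := by simpa using hz
  exact ContinuousAt.comp (f := fun u : ℝ => z - (u : ℂ)) (kc_deriv h1).continuousAt
    (by fun_prop)

theorem kc'_cont {z : ℂ} (hz : 0 < Real.cos (3 * z.im / 2)) :
    Continuous (fun u : ℝ => kc' (z - u)) := by
  unfold kc'
  refine Continuous.mul ?_ (kc_cont hz)
  refine Continuous.neg (Continuous.mul continuous_const (Continuous.div ?_ ?_ ?_))
  · exact Complex.continuous_sinh.comp (by fun_prop)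
  · exact Complex.continuous_cosh.comp (by fun_prop)
  · intro u
    exact cosh_ne (by simpa using hz)

theorem kc_int {z : ℂ} (hz : 0 < Real.cos (3 * z.im / 2)) {f : ℝ → ℝ} {K : ℝ}
    (hf : Continuous f) (hK : ∀ u, |f u| ≤ K) :
    Integrable (fun u : ℝ => kc (z - u) * (f u : ℂ)) := by
  refine (((a2a_integrable_shift z.re).div_const (Real.cos (3 * z.im / 2))).mul_const K).mono'
    ((kc_cont hz).mul (Complex.continuous_ofReal.comp hf)).aestronglyMeasurable ?_
  refine Eventually.of_forall fun u => ?_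
  rw [norm_mul, Complex.norm_real, Real.norm_eq_abs]
  have h1 : ‖kc (z - u)‖ ≤ kk (z.re - u) / Real.cos (3 * z.im / 2) := by
    have := kc_le (z := z - u) (by simpa using hz)
    simpa using this
  have h2 := kk_pos (z.re - u)
  exact mul_le_mul h1 (hK u) (abs_nonneg _) (by positivity)

theorem conv_deriv (f : ℝ → ℝ) (K : ℝ) (hf : Continuous f) (hK : ∀ u, |f u| ≤ K) {z : ℂ}
    (hz : |z.im| < Real.pi / 3) :
    HasDerivAt (fun z : ℂ => ∫ u : ℝ, kc (z - u) * (f u : ℂ))
      (∫ u : ℝ, kc' (z - u) * (f u : ℂ)) z := by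
  have hpi := Real.pi_pos
  have hK0 : 0 ≤ K := (abs_nonneg _).trans (hK 0)
  obtain ⟨β, hβ1, hβ2⟩ := exists_between hz
  have hβ0 : 0 ≤ β := (abs_nonneg _).trans hβ1.le
  set c : ℝ := Real.cos (3 * β / 2) with hc
  have hc0 : 0 < c := Real.cos_pos_of_mem_Ioo ⟨by linarith, by linarith⟩
  have hcos : ∀ y : ℝ, |y| < β → c ≤ Real.cos (3 * y / 2) := by
    intro y hy
    rw [← Real.cos_abs (3 * y / 2)]
    have e : |3 * y / 2| = 3 * |y| / 2 := by
      rw [abs_div, abs_mul, abs_of_pos (by norm_num : (0:ℝ) < 3),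
        abs_of_pos (by norm_num : (0:ℝ) < 2)]
    rw [e]
    apply Real.cos_le_cos_of_nonneg_of_le_pi
    · positivity
    · linarith
    · linarith
  set s : Set ℂ := {x : ℂ | |x.re - z.re| < 1 ∧ |x.im| < β} with hs
  have hso : IsOpen s := by
    refine IsOpen.inter (s := {x : ℂ | |x.re - z.re| < 1}) (t := {x : ℂ | |x.im| < β}) ?_ ?_
    · exact isOpen_lt (by fun_prop) continuous_const
    · exact isOpen_lt (by fun_prop) continuous_const
  have hsn : s ∈ 𝓝 z := hso.mem_nhds ⟨by simp, hβ1⟩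
  have hpos : ∀ x ∈ s, 0 < Real.cos (3 * x.im / 2) := fun x hx =>
    lt_of_lt_of_le hc0 (hcos _ hx.2)
  have hexp : Integrable (fun u : ℝ => Real.exp (-(3 * |z.re - u| / 2))) :=
    a2a_exp_integrable.comp_sub_left z.re
  have hb : Integrable (fun u : ℝ => 3 / 2 * (3 / (2 * Real.pi) * Real.exp (3 / 2) *
      Real.exp (-(3 * |z.re - u| / 2))) / c ^ 2 * K) :=
    ((((hexp.const_mul _).const_mul _).div_const _).mul_const K)
  have := hasDerivAt_integral_of_dominated_loc_of_deriv_le (μ := volume)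
    (F := fun (x : ℂ) (u : ℝ) => kc (x - u) * (f u : ℂ))
    (F' := fun (x : ℂ) (u : ℝ) => kc' (x - u) * (f u : ℂ))
    (x₀ := z) (s := s) hsn
    (bound := fun u : ℝ => 3 / 2 * (3 / (2 * Real.pi) * Real.exp (3 / 2) *
      Real.exp (-(3 * |z.re - u| / 2))) / c ^ 2 * K)
    (by
      filter_upwards [hsn] with x hx
      exact ((kc_cont (hpos x hx)).mul
        (Complex.continuous_ofReal.comp hf)).aestronglyMeasurable)
    (kc_int (hpos z ⟨by simp, hβ1⟩) hf hK)
    ((kc'_cont (hpos z ⟨by simp, hβ1⟩)).mul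
      (Complex.continuous_ofReal.comp hf)).aestronglyMeasurable
    (Eventually.of_forall fun u x hx => by
      rw [norm_mul, Complex.norm_real, Real.norm_eq_abs]
      refine mul_le_mul ?_ (hK u) (abs_nonneg _) (by positivity)
      have h1 := kc'_le (z := x - u) (by simpa using hpos x hx)
      simp only [Complex.sub_re, Complex.ofReal_re, Complex.sub_im, Complex.ofReal_im,
        sub_zero] at h1
      refine h1.trans ?_
      have h2 := a2b_local z.re x.re u hx.1.le
      have h3 := hcos _ hx.2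
      have h4 := kk_pos (x.re - u)
      gcongr)
    hb
    (Eventually.of_forall fun u x hx => by
      have h1 : HasDerivAt (fun x : ℂ => x - (u : ℂ)) 1 x := (hasDerivAt_id x).sub_const _
      have h2 := (kc_deriv (z := x - u) (by simpa using hpos x hx)).comp x h1
      simpa using h2.mul_const (f u : ℂ))
  exact this.2

/-- the open strip -/
theorem strip_open : IsOpen {z : ℂ | |z.im| < Real.pi / 3} :=
  isOpen_lt (by fun_prop) continuous_const

theorem strip_conn : IsPreconnected {z : ℂ | |z.im| < Real.pi / 3} := by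
  apply Convex.isPreconnected
  intro x hx y hy a b ha hb hab
  simp only [Set.mem_ofPred_eq] at *
  have e : (a • x + b • y).im = a * x.im + b * y.im := by simp
  rw [e]
  refine (abs_add_le _ _).trans_lt ?_
  rw [abs_mul, abs_mul, abs_of_nonneg ha, abs_of_nonneg hb]
  rcases ha.eq_or_lt with h | h
  · have : b = 1 := by linarith
    rw [← h, this]
    linarith
  · have h3 : a * |x.im| < a * (Real.pi / 3) := mul_lt_mul_of_pos_left hx h
    have h4 : b * |y.im| ≤ b * (Real.pi / 3) := mul_le_mul_of_nonneg_left hy.le hb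
    have h5 : a * (Real.pi / 3) + b * (Real.pi / 3) = Real.pi / 3 := by
      rw [← add_mul, hab, one_mul]
    linarith

/-- a function analytic in the strip that is a convolution on the real line is a convolution in
the strip -/
theorem continuation (F : ℂ → ℂ) (f : ℝ → ℝ) (K : ℝ) (hf : Continuous f) (hK : ∀ u, |f u| ≤ K)
    (hF : ∀ z : ℂ, |z.im| < Real.pi / 3 → DifferentiableAt ℂ F z)
    (hreal : ∀ x : ℝ, F x = ((∫ u : ℝ, kk (x - u) * f u : ℝ) : ℂ)) {z : ℂ}
    (hz : |z.im| < Real.pi / 3) : F z = ∫ u : ℝ, kc (z - u) * (f u : ℂ) := by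
  have h1 : AnalyticOnNhd ℂ F {z : ℂ | |z.im| < Real.pi / 3} :=
    DifferentiableOn.analyticOnNhd (fun x hx => (hF x hx).differentiableWithinAt) strip_open
  have h2 : AnalyticOnNhd ℂ (fun z : ℂ => ∫ u : ℝ, kc (z - u) * (f u : ℂ))
      {z : ℂ | |z.im| < Real.pi / 3} :=
    DifferentiableOn.analyticOnNhd
      (fun x hx => (conv_deriv f K hf hK hx).differentiableAt.differentiableWithinAt) strip_open
  have h0 : (0 : ℂ) ∈ {z : ℂ | |z.im| < Real.pi / 3} := by
    simp only [Set.mem_ofPred_eq, Complex.zero_im, abs_zero]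
    have := Real.pi_pos
    positivity
  refine h1.eqOn_of_preconnected_of_frequently_eq h2 strip_conn h0 ?_ hz
  have h3 : Tendsto (fun x : ℝ => (x : ℂ)) (𝓝[≠] (0 : ℝ)) (𝓝[≠] (0 : ℂ)) := by
    apply tendsto_nhdsWithin_of_tendsto_nhds_of_eventually_within
    · have : Tendsto (fun x : ℝ => (x : ℂ)) (𝓝 (0 : ℝ)) (𝓝 ((0 : ℝ) : ℂ)) :=
        Complex.continuous_ofReal.tendsto 0
      rw [Complex.ofReal_zero] at this
      exact this.mono_left nhdsWithin_le_nhds
    · filter_upwards [self_mem_nhdsWithin] with x hx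
      intro h
      exact hx (by simpa using h)
  refine h3.frequently (Eventually.frequently (Eventually.of_forall fun x => ?_))
  rw [hreal, ← integral_complex_ofReal]
  congr 1
  funext u
  have e : kc ((x : ℂ) - (u : ℂ)) = ((kk (x - u) : ℝ) : ℂ) := by
    unfold kc kk
    push_cast
    rfl
  rw [e]
  push_cast
  rfl

end Pool.Agent.Helper21.LK
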