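import Pool.Agent.Helper21.LK.Strip
import Pool.Agent.Helper21.LK.First
import Pool.Graph.R_seed8.H906R3.K6.G5

/-!
# The values at imaginary points
-/

namespace Pool.Agent.Helper21.LK

open H906K MeasureTheory Filter Topology Polynomial

theorem w_eq (φ u : ℝ) : Complex.cosh (3 * ((φ : ℂ) * Complex.I - u) / 2) =
    ((Real.cosh (3 * u / 2) * Real.cos (3 * φ / 2) : ℝ) : ℂ) -
      ((Real.sinh (3 * u / 2) * Real.sin (3 * φ / 2) : ℝ) : ℂ) * Complex.I := by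
  have e : 3 * ((φ : ℂ) * Complex.I - u) / 2 = ((-(3 * u / 2) : ℝ) : ℂ) +
      ((3 * φ / 2 : ℝ) : ℂ) * Complex.I := by
    push_cast
    ring
  rw [e, Complex.cosh_add, Complex.cosh_mul_I, Complex.sinh_mul_I, ← Complex.ofReal_cosh,
    ← Complex.ofReal_sinh, ← Complex.ofReal_cos, ← Complex.ofReal_sin, Real.cosh_neg,
    Real.sinh_neg]
  push_cast
  ring

/-- the real and the imaginary part of the kernel -/
theorem kc_parts {φ : ℝ} (hφ : 0 < Real.cos (3 * φ / 2)) (u : ℝ) :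
    0 < Real.cosh (3 * u / 2) ^ 2 - Real.sin (3 * φ / 2) ^ 2 ∧
    (kc ((φ : ℂ) * Complex.I - u)).re = 3 / (4 * Real.pi) *
      (Real.cosh (3 * u / 2) * Real.cos (3 * φ / 2)) /
        (Real.cosh (3 * u / 2) ^ 2 - Real.sin (3 * φ / 2) ^ 2) ∧
    (kc ((φ : ℂ) * Complex.I - u)).im = 3 / (4 * Real.pi) *
      (Real.sinh (3 * u / 2) * Real.sin (3 * φ / 2)) /
        (Real.cosh (3 * u / 2) ^ 2 - Real.sin (3 * φ / 2) ^ 2) := by
  set a := Real.cosh (3 * u / 2) * Real.cos (3 * φ / 2) with ha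
  set b := Real.sinh (3 * u / 2) * Real.sin (3 * φ / 2) with hb
  have hD : Real.cosh (3 * u / 2) ^ 2 - Real.sin (3 * φ / 2) ^ 2 = a ^ 2 + b ^ 2 := by
    have h1 := Real.cosh_sq (3 * u / 2)
    have h2 := Real.sin_sq_add_cos_sq (3 * φ / 2)
    rw [ha, hb, mul_pow, mul_pow]
    have h3 : Real.cos (3 * φ / 2) ^ 2 = 1 - Real.sin (3 * φ / 2) ^ 2 := by linarith
    rw [h3, h1]
    ring
  have hapos : 0 < a := by
    have := Real.cosh_pos (3 * u / 2)
    positivity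
  have hpos : 0 < a ^ 2 + b ^ 2 := by positivity
  have hpi := Real.pi_pos
  have hk : kc ((φ : ℂ) * Complex.I - u) =
      ((3 / (4 * Real.pi) * a / (a ^ 2 + b ^ 2) : ℝ) : ℂ) +
      ((3 / (4 * Real.pi) * b / (a ^ 2 + b ^ 2) : ℝ) : ℂ) * Complex.I := by
    unfold kc
    rw [w_eq, ← ha, ← hb]
    have hne : ((a : ℝ) : ℂ) - ((b : ℝ) : ℂ) * Complex.I ≠ 0 := by
      intro h
      have := congrArg Complex.re h
      simp at this
      linarith
    have hne2 : ((a : ℂ) ^ 2 + (b : ℂ) ^ 2) ≠ 0 := by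
      have : ((a ^ 2 + b ^ 2 : ℝ) : ℂ) ≠ 0 := by
        exact_mod_cast hpos.ne'
      push_cast at this
      exact this
    have hpi' : (Real.pi : ℂ) ≠ 0 := by exact_mod_cast hpi.ne'
    push_cast
    rw [div_eq_iff (mul_ne_zero (mul_ne_zero (by norm_num) hpi') hne)]
    field_simp
    linear_combination (b : ℂ) ^ 2 * Complex.I_sq
  rw [hD, hk]
  refine ⟨hpos, ?_, ?_⟩
  · rw [Complex.add_re, Complex.ofReal_re, Complex.re_ofReal_mul, Complex.I_re]
    ring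
  · rw [Complex.add_im, Complex.ofReal_im, Complex.im_ofReal_mul, Complex.I_im]
    ring

theorem D_ge {φ : ℝ} (u : ℝ) : Real.cos (3 * φ / 2) ^ 2 * Real.cosh (3 * u / 2) ^ 2 ≤
    Real.cosh (3 * u / 2) ^ 2 - Real.sin (3 * φ / 2) ^ 2 := by
  have h1 := Real.cosh_sq (3 * u / 2)
  have h2 := Real.sin_sq_add_cos_sq (3 * φ / 2)
  have h3 : Real.cos (3 * φ / 2) ^ 2 = 1 - Real.sin (3 * φ / 2) ^ 2 := by linarith
  have h4 : 0 ≤ Real.sin (3 * φ / 2) ^ 2 * Real.sinh (3 * u / 2) ^ 2 := by positivity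
  rw [h3, h1]
  nlinarith

theorem kc_re_approx {φ : ℝ} (hφ : 0 < Real.cos (3 * φ / 2)) (u : ℝ) :
    |(kc ((φ : ℂ) * Complex.I - u)).re - Real.cos (3 * φ / 2) * kk u| ≤
      kk u * (1 / Real.cosh (3 * u / 2) ^ 2) / Real.cos (3 * φ / 2) := by
  obtain ⟨hD, hre, -⟩ := kc_parts hφ u
  have hge := D_ge (φ := φ) u
  rw [hre]
  have hs := Real.sin_sq_le_one (3 * φ / 2)
  have hc := Real.cosh_pos (3 * u / 2)
  have hpi := Real.pi_pos
  unfold kk
  set D := Real.cosh (3 * u / 2) ^ 2 - Real.sin (3 * φ / 2) ^ 2 with hDd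
  set C := Real.cosh (3 * u / 2) with hC
  set c := Real.cos (3 * φ / 2) with hcc
  set s := Real.sin (3 * φ / 2) with hss
  have e : 3 / (4 * Real.pi) * (C * c) / D - c * (3 / (4 * Real.pi * C)) =
      3 / (4 * Real.pi * C) * (c * s ^ 2 / D) := by
    have : C ^ 2 - D = s ^ 2 := by rw [hDd]; ring
    rw [← this]
    field_simp
  have e2 : 3 / (4 * Real.pi * C) * (1 / C ^ 2) / c =
      3 / (4 * Real.pi * C) * (1 / (C ^ 2 * c)) := by
    rw [mul_div_assoc, div_div]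
  rw [e, abs_of_nonneg (by positivity), e2]
  apply mul_le_mul_of_nonneg_left _ (by positivity)
  rw [div_le_div_iff₀ hD (by positivity)]
  calc c * s ^ 2 * (C ^ 2 * c) = (c ^ 2 * C ^ 2) * s ^ 2 := by ring
    _ ≤ D * 1 := mul_le_mul hge hs (by positivity) hD.le
    _ = 1 * D := by ring

theorem kc_im_approx {φ : ℝ} (hφ : 0 < Real.cos (3 * φ / 2)) (u : ℝ) (hu : 0 < u) :
    |(kc ((φ : ℂ) * Complex.I - u)).im - Real.sin (3 * φ / 2) * kk u| ≤
      kk u * (1 / Real.cosh (3 * u / 2) ^ 2) / Real.cos (3 * φ / 2) ^ 2 := by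
  obtain ⟨hD, -, him⟩ := kc_parts hφ u
  have hge := D_ge (φ := φ) u
  rw [him]
  have hs := Real.sin_sq_le_one (3 * φ / 2)
  have hs0 := sq_nonneg (Real.sin (3 * φ / 2))
  have hs1 := Real.abs_sin_le_one (3 * φ / 2)
  have hc := Real.cosh_pos (3 * u / 2)
  have hpi := Real.pi_pos
  have h1 := Real.cosh_sq (3 * u / 2)
  have hsp : 0 < Real.sinh (3 * u / 2) := Real.sinh_pos_iff.2 (by linarith)
  have hlt : Real.sinh (3 * u / 2) < Real.cosh (3 * u / 2) := Real.sinh_lt_cosh _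
  unfold kk
  set D := Real.cosh (3 * u / 2) ^ 2 - Real.sin (3 * φ / 2) ^ 2 with hDd
  set C := Real.cosh (3 * u / 2) with hC
  set S := Real.sinh (3 * u / 2) with hS
  set c := Real.cos (3 * φ / 2) with hcc
  set s := Real.sin (3 * φ / 2) with hss
  have e : 3 / (4 * Real.pi) * (S * s) / D - s * (3 / (4 * Real.pi * C)) =
      3 / (4 * Real.pi * C) * (s * (s ^ 2 - C * (C - S)) / D) := by
    have : s ^ 2 = C ^ 2 - D := by rw [hDd]; ring
    rw [this]
    field_simp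
    ring
  have hnum : |s ^ 2 - C * (C - S)| ≤ 1 := by
    have h2 : 0 ≤ C * (C - S) := mul_nonneg hc.le (by linarith)
    have h3 : C * (C - S) ≤ 1 := by nlinarith
    rw [abs_le]
    constructor <;> linarith
  have e2 : 3 / (4 * Real.pi * C) * (1 / C ^ 2) / c ^ 2 =
      3 / (4 * Real.pi * C) * (1 / (C ^ 2 * c ^ 2)) := by
    rw [mul_div_assoc, div_div]
  rw [e, abs_mul, abs_of_nonneg (by positivity : 0 ≤ 3 / (4 * Real.pi * C)), e2]
  apply mul_le_mul_of_nonneg_left _ (by positivity)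
  rw [abs_div, abs_mul, abs_of_pos hD, div_le_div_iff₀ hD (by positivity)]
  calc |s| * |s ^ 2 - C * (C - S)| * (C ^ 2 * c ^ 2) ≤ 1 * 1 * (C ^ 2 * c ^ 2) := by gcongr
    _ = c ^ 2 * C ^ 2 := by ring
    _ ≤ 1 * D := by linarith

/-- `tanh^N / cosh² ≤ 4 / N²` -/
theorem tanh_cosh_le {N : ℕ} (hN : 1 ≤ N) (u : ℝ) :
    |Real.tanh (3 * u / 4)| ^ N * (1 / Real.cosh (3 * u / 2) ^ 2) ≤ 4 / (N : ℝ) ^ 2 := by
  have hN0 : (0 : ℝ) < N := by exact_mod_cast hN
  set y := Real.exp (-(3 * |u| / 2)) with hy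
  have hy0 : 0 < y := Real.exp_pos _
  have h1 : |Real.tanh (3 * u / 4)| ^ N ≤ Real.exp (-(2 * N * y)) := by
    rw [a6_abs_tanh]
    exact a6_tanh_pow_le (abs_nonneg u) N
  have h2 : 1 / Real.cosh (3 * u / 2) ^ 2 ≤ 4 * y ^ 2 := by
    have h3 := a2a_cosh (3 * u / 2)
    have e1 : |3 * u / 2| = 3 * |u| / 2 := by
      rw [abs_div, abs_mul, abs_of_pos (by norm_num : (0:ℝ) < 3),
        abs_of_pos (by norm_num : (0:ℝ) < 2)]
    rw [e1] at h3
    have e2 : Real.exp (3 * |u| / 2) = y⁻¹ := by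
      rw [hy, ← Real.exp_neg, neg_neg]
    rw [e2] at h3
    have hc := Real.cosh_pos (3 * u / 2)
    rw [div_le_iff₀ (by positivity)]
    have h4 : (y⁻¹ / 2) ^ 2 ≤ Real.cosh (3 * u / 2) ^ 2 :=
      pow_le_pow_left₀ (by positivity) h3 2
    calc (1 : ℝ) = 4 * y ^ 2 * (y⁻¹ / 2) ^ 2 := by field_simp; ring
      _ ≤ 4 * y ^ 2 * Real.cosh (3 * u / 2) ^ 2 := mul_le_mul_of_nonneg_left h4 (by positivity)
  have h5 : y * Real.exp (-(N * y)) ≤ 1 / N := a6_wexp hN0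
  calc |Real.tanh (3 * u / 4)| ^ N * (1 / Real.cosh (3 * u / 2) ^ 2)
      ≤ Real.exp (-(2 * N * y)) * (4 * y ^ 2) := by gcongr
    _ = 4 * (y * Real.exp (-(N * y))) ^ 2 := by
        have e3 : Real.exp (-(2 * N * y)) = Real.exp (-(N * y)) ^ 2 := by
          rw [← Real.exp_nat_mul]
          congr 1
          push_cast
          ring
        rw [e3]
        ring
    _ ≤ 4 * (1 / N) ^ 2 := by
        have : 0 ≤ y * Real.exp (-(N * y)) := by positivity
        gcongr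
    _ = 4 / (N : ℝ) ^ 2 := by ring

/-- the functions `X` and `y` in the strip -/
theorem X_strip {n : ℕ} (hn : 1 ≤ n) {s1 s2 V1 V2 : ℝ[X]} (hR : RPert n s1 s2 V1 V2) {z : ℂ}
    (hz : |z.im| < Real.pi / 3) :
    Xc n s1 z = ∫ u : ℝ, kc (z - u) * (A1 (2 * n + 1) (fun u => (Xc n s1 u).re) u : ℂ) := by
  have hS := sys_of_rpert hR
  obtain ⟨b1, b2, b3, b4, b5, b6, b7⟩ := sys_bounds (by omega : 1 ≤ 2 * n + 1) hS
  obtain ⟨n1, n2, n3, n4, n5⟩ := sys_nice (by omega : 1 ≤ 2 * n + 1) hS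
  refine continuation (Xc n s1) _ (2 * Real.sqrt 3) n4.1.continuous ?_ ?_ ?_ hz
  · intro u
    refine (b4 u).trans ?_
    have : |Real.tanh (3 * u / 4)| ^ (2 * n + 1) ≤ 1 := a8_pow_le _ u
    have := mul_le_mul_of_nonneg_left this (show 0 ≤ 2 * Real.sqrt 3 by positivity)
    linarith
  · intro w hw
    refine g3a_diff n s1 w ?_
    have := Real.pi_pos
    linarith
  · intro x
    rw [← hS.eqX x]
    rw [g3a_real, Complex.ofReal_re]

theorem Y_strip {n : ℕ} (hn : 1 ≤ n) {s1 s2 V1 V2 : ℝ[X]} (hR : RPert n s1 s2 V1 V2) {z : ℂ}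
    (hz : |z.im| < Real.pi / 3) :
    Xc n s2 z - Xc n s1 z ^ 2 / 2 = ∫ u : ℝ, kc (z - u) *
      (A2 (2 * n + 1) (fun u => (Xc n s1 u).re) (fun u => (Bc V1 V2 u).re) u : ℂ) := by
  have hS := sys_of_rpert hR
  obtain ⟨b1, b2, b3, b4, b5, b6, b7⟩ := sys_bounds (by omega : 1 ≤ 2 * n + 1) hS
  obtain ⟨n1, n2, n3, n4, n5⟩ := sys_nice (by omega : 1 ≤ 2 * n + 1) hS
  refine continuation (fun z => Xc n s2 z - Xc n s1 z ^ 2 / 2) _ 12 n5.1.continuous ?_ ?_ ?_ hz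
  · intro u
    refine (b5 u).trans ?_
    have : |Real.tanh (3 * u / 4)| ^ (2 * n + 1) ≤ 1 := a8_pow_le _ u
    linarith
  · intro w hw
    have hpi := Real.pi_pos
    have h1 := g3a_diff n s1 w (by linarith)
    have h2 := g3a_diff n s2 w (by linarith)
    exact h2.sub ((h1.pow 2).div_const 2)
  · intro x
    rw [← hS.eqY x]
    simp only [g3a_real, Complex.ofReal_re]
    push_cast
    ring

theorem phi_cos {φ : ℝ} (h : |φ| < Real.pi / 3) : 0 < Real.cos (3 * φ / 2) := by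
  obtain ⟨h1, h2⟩ := abs_lt.1 h
  exact Real.cos_pos_of_mem_Ioo ⟨by linarith, by linarith⟩

theorem int_bound {N : ℕ} (hN : 1 ≤ N) {f g : ℝ → ℝ} {c a : ℝ} (hc : 0 ≤ c) (ha : 0 ≤ a)
    (hf : ∀ u, |f u| ≤ a * |Real.tanh (3 * u / 4)| ^ N) {S : Set ℝ} (hS : MeasurableSet S)
    (hg : ∀ u ∈ S, |g u| ≤ kk u * (1 / Real.cosh (3 * u / 2) ^ 2) * c) :
    |∫ u in S, g u * f u| ≤ 2 * a * c / (N : ℝ) ^ 2 := by
  have hN0 : (0 : ℝ) < N := by exact_mod_cast hN
  have h1 : |∫ u in S, g u * f u| ≤ ∫ u in S, (c * a * (4 / (N : ℝ) ^ 2)) * kk u := by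
    rw [← Real.norm_eq_abs]
    refine norm_integral_le_of_norm_le (kk_integrable.integrableOn.const_mul _) ?_
    refine (ae_restrict_iff' hS).mpr (Eventually.of_forall (fun u hu => ?_))
    rw [Real.norm_eq_abs, abs_mul]
    have hk := kk_pos u
    have h2 := tanh_cosh_le hN u
    calc |g u| * |f u| ≤ (kk u * (1 / Real.cosh (3 * u / 2) ^ 2) * c) *
          (a * |Real.tanh (3 * u / 4)| ^ N) := by
          refine mul_le_mul (hg u hu) (hf u) (abs_nonneg _) ?_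
          have := Real.cosh_pos (3 * u / 2)
          positivity
      _ = c * a * kk u * (|Real.tanh (3 * u / 4)| ^ N * (1 / Real.cosh (3 * u / 2) ^ 2)) := by
          ring
      _ ≤ c * a * kk u * (4 / (N : ℝ) ^ 2) := by gcongr
      _ = _ := by ring
  have h3 : ∫ u in S, (c * a * (4 / (N : ℝ) ^ 2)) * kk u ≤
      ∫ u, (c * a * (4 / (N : ℝ) ^ 2)) * kk u :=
    setIntegral_le_integral (kk_integrable.const_mul _) (Eventually.of_forall fun u => by
      have := kk_pos u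
      simp only [Pi.zero_apply]
      positivity)
  have h4 : ∫ u, (c * a * (4 / (N : ℝ) ^ 2)) * kk u = (c * a * (4 / (N : ℝ) ^ 2)) * (1 / 2) := by
    rw [integral_const_mul, kk_integral]
  rw [h4] at h3
  refine h1.trans (h3.trans (le_of_eq ?_))
  ring

end Pool.Agent.Helper21.LK
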